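import Mathlib
import Pool.Agent.H52.RK.LocG

/-!
# Integer combinations of ordinates of zeros: definitions
-/

set_option autoImplicit false

open Complex

namespace Pool.Agent.H76.GS

open Pool.Agent.H76.CR Pool.Agent.H76.RP Pool.Agent.H52.RK

/-- the combination `∑ k(ρ) Im ρ` of the ordinates -/
noncomputable def comb (S : Finset ℂ) (k : ℂ → ℤ) : ℝ := ∑ ρ ∈ S, (k ρ : ℝ) * ρ.im

/-- its length `∑ |k(ρ)|` -/
noncomputable def len (S : Finset ℂ) (k : ℂ → ℤ) : ℝ := ∑ ρ ∈ S, |(k ρ : ℝ)|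

/-- its depth `(∑ |k(ρ)|) (∑ |k(ρ)| (1 - Re ρ))` -/
noncomputable def dep (S : Finset ℂ) (k : ℂ → ℤ) : ℝ :=
  len S k * ∑ ρ ∈ S, |(k ρ : ℝ)| * (1 - ρ.re)

/-- the parity sign `(-1)^(∑ k(ρ))` -/
noncomputable def sg (S : Finset ℂ) (k : ℂ → ℤ) : ℝ := (-1) ^ (∑ ρ ∈ S, k ρ)

/-- the Dirichlet sum `∑ d(n) n^(-it)` -/
noncomputable def Ds (d : ℕ → ℝ) (t : ℝ) : ℂ := ∑' n : ℕ, (d n : ℂ) * (n : ℂ) ^ (-((t : ℂ) * I))

/-- the loss `(∑ |k(ρ)|) ∑ |k(ρ)| (D(0) + Re D(γ))` -/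
noncomputable def loss (d : ℕ → ℝ) (S : Finset ℂ) (k : ℂ → ℤ) : ℝ :=
  len S k * ∑ ρ ∈ S, |(k ρ : ℝ)| * ((∑' n, d n) + (Ds d ρ.im).re)

theorem Dk_Ds (a : ℝ) (k : ℕ) (t : ℝ) : Dk a k t = Ds (dco a k) t := rfl

theorem len_nonneg (S : Finset ℂ) (k : ℂ → ℤ) : 0 ≤ len S k :=
  Finset.sum_nonneg fun _ _ => abs_nonneg _

theorem sg_sq (S : Finset ℂ) (k : ℂ → ℤ) : sg S k = 1 ∨ sg S k = -1 := by
  unfold sg
  rcases Int.even_or_odd (∑ ρ ∈ S, k ρ) with h | h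
  · left
    exact h.neg_one_zpow
  · right
    exact h.neg_one_zpow

end Pool.Agent.H76.GS
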