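import Mathlib
import Pool.Agent.H76.GS.Defs

/-!
# Uncrowded zeros: definitions
-/

set_option autoImplicit false

open Complex

namespace Pool.Agent.H76.GS

open Pool.Agent.H76.CR Pool.Agent.H76.RP Pool.Agent.H52.RK

/-- `(∑ |k(ρ)|) (∑ |k(ρ)| n(Im ρ))`, `n` the number of zeros in the disc of radius `r` -/
noncomputable def num (r : ℝ) (S : Finset ℂ) (k : ℂ → ℤ) : ℝ :=
  len S k * ∑ ρ ∈ S, |(k ρ : ℝ)| * zc r ρ.im

end Pool.Agent.H76.GS
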