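import Mathlib
import Pool.Agent.H76.RP.Dk0
import Pool.Agent.H76.GS.Defs

/-!
# DkNear: the kernel near the pole

PROOF: copy `H76/RP/Dk0.lean` (`dk0`, which is the case `t = 0`) with the centre `1 + a + it` in place of
`1 + a`: there `-ζ'/ζ (s) = 1/(s-1) - g(s)`, `g = zetaPole'/zetaPole` analytic on `ball 1 R2`; `k`-th
derivatives: `Dk a k t = 1/(a+it)^(k+1) - (-1)^k/k! g^(k)(1+a+it)` and Cauchy on the disc of radius `2a`
around `1+a+it` (contained in `ball 1 R1` when `|t| ≤ 2a`, `5a ≤ R1`):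
`a^(k+1) |g^(k)(..)|/k! ≤ a^(k+1) M/(2a)^k ≤ M a/2^k`.  Take `r1 = min (R1/16) (1/16)`.  About 150 lines.
-/

set_option autoImplicit false

open Complex Metric Filter Topology Set

namespace Pool.Agent.H76.GS

open Pool.Agent.H76.CR Pool.Agent.H76.RP Pool.Agent.H6 Pool.Agent.H6.Win

private lemma iter_inv_sub1 (k : ℕ) (u s : ℂ) :
    iteratedDeriv k (fun z : ℂ => (z - u)⁻¹) s = (-1) ^ k * (k.factorial : ℂ) / (s - u) ^ (k + 1) := by
  have h := iteratedDeriv_comp_sub_const k (fun z : ℂ => z⁻¹) u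
  rw [h]
  have h2 : iteratedDeriv k (fun z : ℂ => z⁻¹) (s - u)
      = (-1) ^ k * (k.factorial : ℂ) * (s - u) ^ (-1 - k : ℤ) := by
    rw [iteratedDeriv_eq_iterate]
    exact iter_deriv_inv k (s - u)
  show iteratedDeriv k (fun z : ℂ => z⁻¹) (s - u) = _
  rw [h2, div_eq_mul_inv]
  congr 1
  rw [show (-1 - k : ℤ) = -((k + 1 : ℕ) : ℤ) by push_cast; ring, zpow_neg, zpow_natCast]

theorem dkNear : ∃ r1 C : ℝ, 0 < r1 ∧ r1 ≤ 1 / 16 ∧ 1 ≤ C ∧ ∀ (a t : ℝ) (k : ℕ), 0 < a → a ≤ r1 →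
    |t| ≤ 2 * a →
    ‖(a : ℂ) ^ (k + 1) * Dk a k t - ((a : ℂ) / (a + t * I)) ^ (k + 1)‖ ≤ C / 2 ^ k := by
  classical
  have hdiff := zetaPole_differentiable
  have hne1 : zetaPole 1 ≠ 0 := zetaPole_ne_zero_of_one_le (by simp)
  obtain ⟨R2, hR2, hball⟩ := Metric.eventually_nhds_iff_ball.1
    (hdiff.continuous.continuousAt.eventually_ne hne1)
  set R1 : ℝ := min (R2 / 2) 1 with hR1def
  have hR1 : 0 < R1 := lt_min (by linarith) one_pos
  have hR12 : R1 < R2 := (min_le_left _ _).trans_lt (by linarith)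
  have hR11 : R1 ≤ 1 := min_le_right _ _
  have hnz : ∀ z ∈ ball (1 : ℂ) R2, zetaPole z ≠ 0 := hball
  set g : ℂ → ℂ := fun z => deriv zetaPole z / zetaPole z with hg
  have hgd : DifferentiableOn ℂ g (ball 1 R2) := by
    intro z hz
    have h1 : DifferentiableAt ℂ (deriv zetaPole) z :=
      ((hdiff.analyticAt z).deriv).differentiableAt
    exact (h1.div (hdiff z) (hnz z hz)).differentiableWithinAt
  obtain ⟨M, hM⟩ : ∃ M : ℝ, ∀ z ∈ closedBall (1 : ℂ) R1, ‖g z‖ ≤ M := by
    have h1 : ContinuousOn g (closedBall 1 R1) := hgd.continuousOn.mono (closedBall_subset_ball hR12)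
    exact (isCompact_closedBall (1 : ℂ) R1).exists_bound_of_continuousOn h1
  refine ⟨R1 / 16, max M 1, by positivity, by linarith, le_max_right _ _, fun a t k ha har hta => ?_⟩
  set s0 : ℂ := pt a t with hs0
  have hs01 : s0 - 1 = (a : ℂ) + t * I := by
    rw [hs0]
    unfold pt
    push_cast
    ring
  have hre : (s0 - 1).re = a := by
    rw [hs01]
    simp
  have hne : (a : ℂ) + t * I ≠ 0 := by
    intro h
    have h1 := congrArg Complex.re h
    simp at h1
    exact ha.ne' h1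
  have hs0ne : s0 ≠ 1 := by
    intro h
    rw [h, sub_self] at hs01
    exact hne hs01.symm
  set F : ℂ → ℂ := LSeries (fun n => (ArithmeticFunction.vonMangoldt n : ℂ)) with hF
  have hev : F =ᶠ[𝓝 s0] fun z => (z - 1)⁻¹ - g z := by
    have o1 : {z : ℂ | 1 < z.re} ∈ 𝓝 s0 :=
      (isOpen_lt continuous_const Complex.continuous_re).mem_nhds (by
        show 1 < s0.re
        rw [sub_re, one_re] at hre
        linarith)
    filter_upwards [o1] with z hz1
    have h2 := neg_logDeriv_zetaPole hz1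
    rw [hF, hg]
    simp only [div_eq_mul_inv, one_mul] at h2 ⊢
    linear_combination -h2
  have hn1 : ‖s0 - 1‖ ≤ 3 * a := by
    rw [hs01]
    refine (norm_add_le _ _).trans ?_
    rw [norm_mul, Complex.norm_real, Complex.norm_real, Complex.norm_I, mul_one, Real.norm_eq_abs,
      Real.norm_eq_abs, abs_of_pos ha]
    linarith
  have hsub : closedBall s0 (R1 / 4) ⊆ closedBall 1 R1 := by
    intro z hz
    rw [mem_closedBall, dist_eq_norm] at hz ⊢
    calc ‖z - 1‖ = ‖(z - s0) + (s0 - 1)‖ := by ring_nf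
      _ ≤ ‖z - s0‖ + ‖s0 - 1‖ := norm_add_le _ _
      _ ≤ R1 := by linarith
  have hs0in : s0 ∈ ball (1 : ℂ) R2 :=
    closedBall_subset_ball hR12 (hsub (mem_closedBall_self (by positivity)))
  have hgc : ContDiffAt ℂ k g s0 := ((hgd.analyticOnNhd isOpen_ball) s0 hs0in).contDiffAt
  have hinv : ContDiffAt ℂ k (fun z : ℂ => (z - 1)⁻¹) s0 :=
    (contDiffAt_id.sub contDiffAt_const).inv (sub_ne_zero.2 hs0ne)
  have hder : iteratedDeriv k F s0 =
      (-1) ^ k * (k.factorial : ℂ) / (s0 - 1) ^ (k + 1) - iteratedDeriv k g s0 := by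
    rw [hev.iteratedDeriv_eq k, iteratedDeriv_fun_sub hinv hgc, iter_inv_sub1]
  have hk0 : (k.factorial : ℂ) ≠ 0 := by exact_mod_cast k.factorial_ne_zero
  have hsq : ((-1 : ℂ)) ^ k * (-1) ^ k = 1 := by
    rw [← mul_pow]; norm_num
  have hDk : Dk a k t = 1 / ((a : ℂ) + t * I) ^ (k + 1) - (-1) ^ k / (k.factorial : ℂ) * iteratedDeriv k g s0 := by
    rw [Dk_eq ha k t, ← hs0, ← hF, hder, hs01, mul_sub]
    congr 1
    rw [div_mul_div_comm, ← mul_assoc, hsq, one_mul]
    rw [mul_comm (k.factorial : ℂ), div_mul_cancel_right₀ hk0, one_div]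
  have hcast : (a : ℂ) ^ (k + 1) * Dk a k t - ((a : ℂ) / (a + t * I)) ^ (k + 1) =
      -((a : ℂ) ^ (k + 1) * ((-1) ^ k / (k.factorial : ℂ) * iteratedDeriv k g s0)) := by
    rw [hDk, mul_sub, mul_one_div, div_pow]
    ring
  rw [hcast, norm_neg]
  have hR4 : 0 < R1 / 4 := by positivity
  have e1 : ‖iteratedDeriv k g s0‖ ≤ k.factorial * max M 1 / (R1 / 4) ^ k := by
    refine Complex.norm_iteratedDeriv_le_of_forall_mem_sphere_norm_le k hR4 ?_ ?_
    · refine DifferentiableOn.diffContOnCl ?_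
      rw [closure_ball s0 hR4.ne']
      exact hgd.mono (hsub.trans (closedBall_subset_ball hR12))
    · intro z hz
      exact (hM z (hsub (sphere_subset_closedBall hz))).trans (le_max_left _ _)
  have hkf : (0 : ℝ) < k.factorial := by exact_mod_cast k.factorial_pos
  have hM1 : (0 : ℝ) ≤ max M 1 := le_trans zero_le_one (le_max_right _ _)
  rw [norm_mul, norm_mul, norm_div, norm_pow, norm_pow, norm_neg, norm_one, one_pow, Complex.norm_natCast,
    Complex.norm_real, Real.norm_eq_abs, abs_of_pos ha]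
  calc a ^ (k + 1) * (1 / (k.factorial : ℝ) * ‖iteratedDeriv k g s0‖)
      ≤ a ^ (k + 1) * (1 / (k.factorial : ℝ) * (k.factorial * max M 1 / (R1 / 4) ^ k)) := by
        gcongr
    _ = max M 1 * (a * (a / (R1 / 4)) ^ k) := by
        rw [div_pow a (R1 / 4) k]
        have hP : (0 : ℝ) < (R1 / 4) ^ k := by positivity
        generalize (R1 / 4) ^ k = P at hP
        generalize max M 1 = W
        field_simp
        ring
    _ ≤ max M 1 * (1 * (1 / 2) ^ k) := by
        have h1 : a / (R1 / 4) ≤ 1 / 2 := by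
          rw [div_le_iff₀ hR4]
          linarith
        have h2 : (a / (R1 / 4)) ^ k ≤ (1 / 2) ^ k := pow_le_pow_left₀ (by positivity) h1 k
        have h3 : a * (a / (R1 / 4)) ^ k ≤ 1 * (1 / 2) ^ k :=
          mul_le_mul (by linarith) h2 (by positivity) zero_le_one
        exact mul_le_mul_of_nonneg_left h3 hM1
    _ = max M 1 / 2 ^ k := by
        rw [one_mul, one_div, inv_pow, div_eq_mul_inv]

end Pool.Agent.H76.GS
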