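import Mathlib

/-!
# Unit: products of unit complex numbers

PROOF.  For unit `x, y`: `‖1 - x y‖ ≤ ‖1 - x‖ + ‖1 - y‖` (`1 - xy = (1 - x) + x (1 - y)`); for a unit `z` and
`m : ℤ`: `‖1 - z^m‖ ≤ |m| ‖1 - z‖` (natural `m` by induction, negative: `1 - z^(-m) = -z^(-m) (1 - z^m)`).
Induction on `S`: `‖1 - ∏ z^k‖ ≤ ∑ |k| ‖1 - z‖`.  Cauchy-Schwarz with weights `|k|`:
`(∑ |k| ‖1-z‖)² ≤ (∑ |k|) (∑ |k| ‖1-z‖²)` (`Finset.sum_mul_sq_le_sq_mul_sq` or `inner_mul_le_norm_mul_norm`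
with `√|k|`), and `‖1 - w‖² = 2 (1 - Re w)` for unit `w` (`Complex.sq_norm`, `normSq_apply`).
About 90 lines.
-/

set_option autoImplicit false

open Complex

namespace Pool.Agent.H76.GS

private theorem unit_mul {x y : ℂ} (hx : ‖x‖ = 1) : ‖1 - x * y‖ ≤ ‖1 - x‖ + ‖1 - y‖ := by
  have h1 : 1 - x * y = (1 - x) + x * (1 - y) := by ring
  rw [h1]
  refine (norm_add_le _ _).trans ?_
  rw [norm_mul, hx, one_mul]

private theorem unit_pow {x : ℂ} (hx : ‖x‖ = 1) (m : ℕ) : ‖1 - x ^ m‖ ≤ m * ‖1 - x‖ := by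
  induction m with
  | zero => simp
  | succ m ih =>
    have h1 : x ^ (m + 1) = x * x ^ m := pow_succ' x m
    rw [h1]
    refine (unit_mul hx).trans ?_
    push_cast
    linarith

private theorem unit_zpow {x : ℂ} (hx : ‖x‖ = 1) (m : ℤ) : ‖1 - x ^ m‖ ≤ |(m : ℝ)| * ‖1 - x‖ := by
  have hx0 : x ≠ 0 := by
    intro h
    rw [h, norm_zero] at hx
    exact zero_ne_one hx
  obtain ⟨n, rfl | rfl⟩ := m.eq_nat_or_neg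
  · have h1 : |((n : ℤ) : ℝ)| = n := by
      rw [Int.cast_natCast, Nat.abs_cast]
    rw [h1, zpow_natCast]
    exact unit_pow hx n
  · have h1 : |((-(n : ℤ) : ℤ) : ℝ)| = n := by
      rw [Int.cast_neg, abs_neg, Int.cast_natCast, Nat.abs_cast]
    rw [h1, zpow_neg, zpow_natCast]
    have hp : x ^ n ≠ 0 := pow_ne_zero n hx0
    have h2 : 1 - (x ^ n)⁻¹ = -((x ^ n)⁻¹ * (1 - x ^ n)) := by
      field_simp
      ring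
    rw [h2, norm_neg, norm_mul, norm_inv, norm_pow, hx, one_pow, inv_one, one_mul]
    exact unit_pow hx n

private theorem unit_prod (S : Finset ℂ) (k : ℂ → ℤ) (z : ℂ → ℂ) (hz : ∀ ρ ∈ S, ‖z ρ‖ = 1) :
    ‖1 - ∏ ρ ∈ S, z ρ ^ (k ρ)‖ ≤ ∑ ρ ∈ S, |(k ρ : ℝ)| * ‖1 - z ρ‖ := by
  classical
  induction S using Finset.induction_on with
  | empty => simp
  | insert a s ha ih =>
    rw [Finset.prod_insert ha, Finset.sum_insert ha]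
    have h1 : ‖z a ^ (k a)‖ = 1 := by
      rw [norm_zpow, hz a (Finset.mem_insert_self a s), one_zpow]
    refine (unit_mul h1).trans ?_
    refine add_le_add (unit_zpow (hz a (Finset.mem_insert_self a s)) _) ?_
    exact ih fun ρ hρ => hz ρ (Finset.mem_insert_of_mem hρ)

private theorem unit_sq {w : ℂ} (hw : ‖w‖ = 1) : ‖1 - w‖ ^ 2 = 2 * (1 - w.re) := by
  have h1 : ‖w‖ ^ 2 = 1 := by rw [hw]; norm_num
  rw [Complex.sq_norm, Complex.normSq_apply] at h1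
  rw [Complex.sq_norm, Complex.normSq_apply, Complex.sub_re, Complex.sub_im, Complex.one_re, Complex.one_im]
  nlinarith

theorem unitK (S : Finset ℂ) (k : ℂ → ℤ) (z : ℂ → ℂ) (hz : ∀ ρ ∈ S, ‖z ρ‖ = 1) :
    1 - (∏ ρ ∈ S, z ρ ^ (k ρ)).re ≤
      (∑ ρ ∈ S, |(k ρ : ℝ)|) * ∑ ρ ∈ S, |(k ρ : ℝ)| * (1 - (z ρ).re) := by
  have hP : ‖∏ ρ ∈ S, z ρ ^ (k ρ)‖ = 1 := by
    rw [norm_prod]
    refine Finset.prod_eq_one fun ρ hρ => ?_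
    rw [norm_zpow, hz ρ hρ, one_zpow]
  have h1 := unit_prod S k z hz
  have h2 : ‖1 - ∏ ρ ∈ S, z ρ ^ (k ρ)‖ ^ 2 ≤ (∑ ρ ∈ S, |(k ρ : ℝ)| * ‖1 - z ρ‖) ^ 2 :=
    pow_le_pow_left₀ (norm_nonneg _) h1 2
  rw [unit_sq hP] at h2
  have h3 : (∑ ρ ∈ S, |(k ρ : ℝ)| * ‖1 - z ρ‖) ^ 2 ≤
      (∑ ρ ∈ S, |(k ρ : ℝ)|) * ∑ ρ ∈ S, |(k ρ : ℝ)| * ‖1 - z ρ‖ ^ 2 := by
    have h4 := Finset.sum_mul_sq_le_sq_mul_sq S (fun ρ => √|(k ρ : ℝ)|) (fun ρ => √|(k ρ : ℝ)| * ‖1 - z ρ‖)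
    have h5 : ∀ ρ, √|(k ρ : ℝ)| * (√|(k ρ : ℝ)| * ‖1 - z ρ‖) = |(k ρ : ℝ)| * ‖1 - z ρ‖ := fun ρ => by
      rw [← mul_assoc, Real.mul_self_sqrt (abs_nonneg _)]
    have h6 : ∀ ρ, √|(k ρ : ℝ)| ^ 2 = |(k ρ : ℝ)| := fun ρ => Real.sq_sqrt (abs_nonneg _)
    have h7 : ∀ ρ, (√|(k ρ : ℝ)| * ‖1 - z ρ‖) ^ 2 = |(k ρ : ℝ)| * ‖1 - z ρ‖ ^ 2 := fun ρ => by
      rw [mul_pow, h6]
    simp only [h5, h6, h7] at h4
    exact h4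
  have h8 : ∑ ρ ∈ S, |(k ρ : ℝ)| * ‖1 - z ρ‖ ^ 2 = 2 * ∑ ρ ∈ S, |(k ρ : ℝ)| * (1 - (z ρ).re) := by
    rw [Finset.mul_sum]
    refine Finset.sum_congr rfl fun ρ hρ => ?_
    rw [unit_sq (hz ρ hρ)]
    ring
  rw [h8] at h3
  nlinarith

end Pool.Agent.H76.GS
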