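import Mathlib
import Pool.Agent.H76.GS.Defs
import Pool.Agent.H76.GS.Unit

/-!
# PosK: positivity for integer combinations of frequencies

PROOF.  For `n ≥ 1` put `e(x) = n^(-ix) = exp(-i x log n)` (unit complex number; for `n = 0` the term has
`d 0 = 0`), `z_ρ = -e(Im ρ)`, also a unit complex number.  Then
`∏_ρ z_ρ^(k ρ) = (-1)^(∑ k) e(comb S k) = sg · e(comb)`, so by `unitK`
`1 - sg Re e(comb) ≤ len ∑ |k ρ| (1 + Re e(Im ρ))`.                                       (*)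
`posK`: multiply (*) by `d n ≥ 0` and sum over `n` (`HasSum`; `Ds d t = ∑' d n · e_n(t)`,
see the private lemmas of `H76/RP/PosT.lean`: `ee`, `hasSumD`, `hasSumRe`, `term_eq`, which you may copy;
summability from `hs` since `|e| = 1`).
`vecK`: `Ds d t0 - sg Ds d (t0 + comb) = ∑' d n e_n(t0) (1 - sg e_n(comb))`; by Cauchy-Schwarz
`|∑ d n x_n|² ≤ (∑ d n) (∑ d n |x_n|²)` (see `vecT` in `PosT.lean`),
`|1 - sg e_n(comb)|² = 2 (1 - sg Re e_n(comb))` and (*).
About 170 lines.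
-/

set_option autoImplicit false

open Complex

namespace Pool.Agent.H76.GS

/-- the unimodular number `n^(-it)` -/
private noncomputable def ee (n : ℕ) (t : ℝ) : ℂ := Complex.exp (((-(t * Real.log n) : ℝ) : ℂ) * I)

private theorem ee_norm (n : ℕ) (t : ℝ) : ‖ee n t‖ = 1 := Complex.norm_exp_ofReal_mul_I _

private theorem ee_add (n : ℕ) (x z : ℝ) : ee n (x + z) = ee n x * ee n z := by
  unfold ee
  rw [← Complex.exp_add]
  congr 1
  push_cast
  ring

private theorem ee_zpow (n : ℕ) (x : ℝ) (m : ℤ) : ee n x ^ m = ee n ((m : ℝ) * x) := by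
  unfold ee
  rw [← Complex.exp_int_mul]
  congr 1
  push_cast
  ring

private theorem ee_prod (n : ℕ) (S : Finset ℂ) (k : ℂ → ℤ) :
    ∏ ρ ∈ S, ee n ρ.im ^ (k ρ) = ee n (comb S k) := by
  classical
  unfold comb
  induction S using Finset.induction_on with
  | empty =>
    rw [Finset.prod_empty, Finset.sum_empty]
    unfold ee
    simp
  | insert a S ha ih => rw [Finset.prod_insert ha, Finset.sum_insert ha, ih, ee_add, ee_zpow]

private theorem ee_eq {n : ℕ} (hn : n ≠ 0) (t : ℝ) : (n : ℂ) ^ (-((t : ℂ) * I)) = ee n t := by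
  rw [Complex.cpow_def_of_ne_zero (by exact_mod_cast hn), ee, ← Complex.natCast_log]
  congr 1
  push_cast
  ring

private theorem term_eq (d : ℕ → ℝ) (hd0 : d 0 = 0) (t : ℝ) (n : ℕ) :
    (d n : ℂ) * (n : ℂ) ^ (-((t : ℂ) * I)) = (d n : ℂ) * ee n t := by
  by_cases hn : n = 0
  · subst hn
    rw [hd0, Complex.ofReal_zero, zero_mul, zero_mul]
  · rw [ee_eq hn]

private theorem hasSumD (d : ℕ → ℝ) (hd : ∀ n, 0 ≤ d n) (hd0 : d 0 = 0) (hs : Summable d) (t : ℝ) :
    HasSum (fun n => (d n : ℂ) * ee n t) (Ds d t) := by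
  have h1 : Summable (fun n => (d n : ℂ) * ee n t) := by
    refine Summable.of_norm ?_
    refine hs.congr fun n => ?_
    rw [norm_mul, ee_norm, mul_one, Complex.norm_real, Real.norm_of_nonneg (hd n)]
  have h2 : (fun n : ℕ => (d n : ℂ) * (n : ℂ) ^ (-((t : ℂ) * I))) = fun n => (d n : ℂ) * ee n t :=
    funext (term_eq d hd0 t)
  unfold Ds
  rw [h2]
  exact h1.hasSum

private theorem hasSumRe (d : ℕ → ℝ) (hd : ∀ n, 0 ≤ d n) (hd0 : d 0 = 0) (hs : Summable d) (t : ℝ) :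
    HasSum (fun n => d n * (ee n t).re) (Ds d t).re := by
  have h := Complex.hasSum_re (hasSumD d hd hd0 hs t)
  have e : (fun n => ((d n : ℂ) * ee n t).re) = fun n => d n * (ee n t).re :=
    funext fun n => Complex.re_ofReal_mul _ _
  rwa [e] at h

private theorem prod_neg_zpow (S : Finset ℂ) (k : ℂ → ℤ) :
    ∏ ρ ∈ S, (-1 : ℂ) ^ (k ρ) = ((sg S k : ℝ) : ℂ) := by
  classical
  unfold sg
  induction S using Finset.induction_on with
  | empty => simp
  | insert a S ha ih =>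
    rw [Finset.prod_insert ha, Finset.sum_insert ha, ih, zpow_add₀ (by norm_num)]
    push_cast
    rfl

private theorem pointK (n : ℕ) (S : Finset ℂ) (k : ℂ → ℤ) : 1 - sg S k * (ee n (comb S k)).re ≤
    len S k * ∑ ρ ∈ S, |(k ρ : ℝ)| * (1 + (ee n ρ.im).re) := by
  have h := unitK S k (fun ρ => -ee n ρ.im) (fun ρ _ => by rw [norm_neg, ee_norm])
  have h1 : ∏ ρ ∈ S, (-ee n ρ.im) ^ (k ρ) = ((sg S k : ℝ) : ℂ) * ee n (comb S k) := by
    rw [← prod_neg_zpow, ← ee_prod, ← Finset.prod_mul_distrib]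
    refine Finset.prod_congr rfl fun ρ _ => ?_
    rw [← mul_zpow, neg_one_mul]

  rw [h1, Complex.re_ofReal_mul] at h
  refine h.trans (le_of_eq ?_)
  unfold len
  congr 1
  refine Finset.sum_congr rfl fun ρ _ => ?_
  rw [Complex.neg_re]
  ring

theorem posK (d : ℕ → ℝ) (hd : ∀ n, 0 ≤ d n) (hd0 : d 0 = 0) (hs : Summable d) (S : Finset ℂ)
    (k : ℂ → ℤ) : (∑' n, d n) - sg S k * (Ds d (comb S k)).re ≤ loss d S k := by
  have h0 : HasSum d (∑' n, d n) := hs.hasSum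
  have h1 := h0.sub ((hasSumRe d hd hd0 hs (comb S k)).mul_left (sg S k))
  have h2 := (hasSum_sum (s := S) fun (ρ : ℂ) (_ : ρ ∈ S) =>
    ((h0.add (hasSumRe d hd hd0 hs ρ.im)).mul_left |(k ρ : ℝ)|)).mul_left (len S k)
  refine hasSum_le (fun n => ?_) h1 h2
  show d n - sg S k * (d n * (ee n (comb S k)).re) ≤
    len S k * ∑ ρ ∈ S, |(k ρ : ℝ)| * (d n + d n * (ee n ρ.im).re)
  have h3 := mul_le_mul_of_nonneg_left (pointK n S k) (hd n)
  have h4 : len S k * ∑ ρ ∈ S, |(k ρ : ℝ)| * (d n + d n * (ee n ρ.im).re) =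
      d n * (len S k * ∑ ρ ∈ S, |(k ρ : ℝ)| * (1 + (ee n ρ.im).re)) := by
    rw [Finset.mul_sum, Finset.mul_sum, Finset.mul_sum]
    refine Finset.sum_congr rfl fun ρ _ => ?_
    ring
  rw [h4]
  refine le_trans (le_of_eq ?_) h3
  ring

private theorem csK {d : ℕ → ℝ} {x : ℕ → ℂ} {A Y : ℝ} {Z : ℂ} (hd : ∀ n, 0 ≤ d n) (h0 : HasSum d A)
    (hZ : HasSum (fun n => (d n : ℂ) * x n) Z) (hY : HasSum (fun n => d n * ‖x n‖ ^ 2) Y) :
    ‖Z‖ ^ 2 ≤ A * Y := by
  have hA : 0 ≤ A := h0.nonneg hd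
  have hY0 : 0 ≤ Y := hY.nonneg fun n => mul_nonneg (hd n) (by positivity)
  have h2 : (Z * (starRingEnd ℂ) Z).re = ‖Z‖ ^ 2 := by
    rw [Complex.mul_conj, Complex.ofReal_re, Complex.normSq_eq_norm_sq]
  have key : ∀ s : ℝ, 0 ≤ (‖Z‖ ^ 2 * A) * (s * s) + (-(2 * ‖Z‖ ^ 2)) * s + Y := by
    intro s
    have hZ2 : HasSum (fun n => ((d n : ℂ) * x n * (starRingEnd ℂ) Z).re) (Z * (starRingEnd ℂ) Z).re :=
      Complex.hasSum_re (hZ.mul_right _)
    have h1 := ((h0.mul_left (‖Z‖ ^ 2 * (s * s))).add (hZ2.mul_left (-(2 * s)))).add hY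
    rw [h2] at h1
    have h3 := h1.nonneg fun n => ?_
    · calc (0 : ℝ) ≤ _ := h3
        _ = _ := by ring
    · show 0 ≤ ‖Z‖ ^ 2 * (s * s) * d n + -(2 * s) * ((d n : ℂ) * x n * (starRingEnd ℂ) Z).re + d n * ‖x n‖ ^ 2
      have h6 : ‖Z‖ ^ 2 = Z.re ^ 2 + Z.im ^ 2 := by
        rw [← Complex.normSq_eq_norm_sq, Complex.normSq_apply]
        ring
      have h7 : ‖x n‖ ^ 2 = (x n).re ^ 2 + (x n).im ^ 2 := by
        rw [← Complex.normSq_eq_norm_sq, Complex.normSq_apply]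
        ring
      have h8 : ((d n : ℂ) * x n * (starRingEnd ℂ) Z).re = d n * ((x n).re * Z.re + (x n).im * Z.im) := by
        rw [mul_assoc, Complex.re_ofReal_mul, Complex.mul_re, Complex.conj_re, Complex.conj_im]
        ring
      rw [h6, h7, h8]
      have h9 : (Z.re ^ 2 + Z.im ^ 2) * (s * s) * d n + -(2 * s) * (d n * ((x n).re * Z.re + (x n).im * Z.im)) +
          d n * ((x n).re ^ 2 + (x n).im ^ 2) =
          d n * (((x n).re - s * Z.re) ^ 2 + ((x n).im - s * Z.im) ^ 2) := by ring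
      rw [h9]
      exact mul_nonneg (hd n) (by positivity)
  have h3 := discrim_le_zero key
  unfold discrim at h3
  by_cases hz : ‖Z‖ = 0
  · rw [hz]
    have := mul_nonneg hA hY0
    simpa using this
  · have hz2 : 0 < ‖Z‖ ^ 2 := by positivity
    have h4 : ‖Z‖ ^ 2 * (‖Z‖ ^ 2 - A * Y) ≤ 0 := by nlinarith
    by_contra hcon
    push Not at hcon
    have : 0 < ‖Z‖ ^ 2 * (‖Z‖ ^ 2 - A * Y) := mul_pos hz2 (by linarith)
    linarith

theorem vecK (d : ℕ → ℝ) (hd : ∀ n, 0 ≤ d n) (hd0 : d 0 = 0) (hs : Summable d) (S : Finset ℂ)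
    (k : ℂ → ℤ) (t0 : ℝ) :
    ‖Ds d t0 - (sg S k : ℂ) * Ds d (t0 + comb S k)‖ ^ 2 ≤ 2 * (∑' n, d n) * loss d S k := by
  have h0 : HasSum d (∑' n, d n) := hs.hasSum
  have hZ : HasSum (fun n => (d n : ℂ) * (ee n t0 * (1 - (sg S k : ℂ) * ee n (comb S k))))
      (Ds d t0 - (sg S k : ℂ) * Ds d (t0 + comb S k)) := by
    have h1 := (hasSumD d hd hd0 hs t0).sub ((hasSumD d hd hd0 hs (t0 + comb S k)).mul_left (sg S k : ℂ))
    refine h1.congr_fun ?_ |> fun h => h
    intro n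
    rw [ee_add]
    ring
  have hY : HasSum (fun n => d n * ‖ee n t0 * (1 - (sg S k : ℂ) * ee n (comb S k))‖ ^ 2)
      (2 * ((∑' n, d n) - sg S k * (Ds d (comb S k)).re)) := by
    have h1 := (h0.sub ((hasSumRe d hd hd0 hs (comb S k)).mul_left (sg S k))).mul_left 2
    refine h1.congr_fun ?_ |> fun h => h
    intro n
    rw [norm_mul, ee_norm, one_mul]
    have h2 := ee_norm n (comb S k)
    have h3 : (ee n (comb S k)).re ^ 2 + (ee n (comb S k)).im ^ 2 = 1 := by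
      have h4 := Complex.normSq_eq_norm_sq (ee n (comb S k))
      rw [h2, Complex.normSq_apply] at h4
      linarith
    rw [← Complex.normSq_eq_norm_sq, Complex.normSq_apply, Complex.sub_re, Complex.sub_im,
      Complex.re_ofReal_mul, Complex.im_ofReal_mul, Complex.one_re, Complex.one_im]
    have h5 : sg S k ^ 2 = 1 := by
      rcases sg_sq S k with h | h <;> rw [h] <;> norm_num
    generalize sg S k = s at *
    generalize ee n (comb S k) = w at *
    linear_combination (d n * s ^ 2) * h3 + d n * h5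
  have h1 := csK hd h0 hZ hY
  have h2 := posK d hd hd0 hs S k
  have h3 : 0 ≤ ∑' n, d n := tsum_nonneg hd
  calc _ ≤ _ := h1
    _ = (2 * ∑' n, d n) * ((∑' n, d n) - sg S k * (Ds d (comb S k)).re) := by ring
    _ ≤ _ := mul_le_mul_of_nonneg_left h2 (by positivity)

end Pool.Agent.H76.GS
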