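import Mathlib

/-!
# EvA: the geometric average of the levels (pure real analysis)

PROOF.  Put `x = (1-q) a`.  For `k0 ≤ k`: `R k ≥ D0 k - L k` and
`(qa)^k D0 k = (q^k/a) a^(k+1) D0 k ≥ (q^k/a) (1 - C/2^k)`,
`(qa)^k L k = (q^k/a) a^(k+1) L k ≤ (q^k/a) ((k+1) e/a + M/2^k)`.  Sum over `k0 ≤ k < K`:
`∑ q^k = (q^k0 - q^K)/(1-q) ≥ (1 - k0 (1-q) - (1-q))/(1-q)` (Bernoulli; `q^K ≤ 1-q`), so the first part is
`≥ 1/x - (k0+1)/a - 2C/a` (`∑ q^k/2^k ≤ 2`);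
`∑ q^k (k+1) ≤ 1/(1-q)²` (`tsum`/induction: `∑_(k<K) (k+1) q^k ≤ 1/(1-q)^2`), so the second is
`≤ e/x² + 2 M/(a 2^k0) ≤ e/x² + 2/a`.  About 120 lines.
-/

set_option autoImplicit false

namespace Pool.Agent.H76.GS

private theorem evA_aux1 (q : ℝ) (K : ℕ) :
    (1 - q) ^ 2 * ∑ k ∈ Finset.range K, q ^ k * ((k : ℝ) + 1) = 1 - (K + 1) * q ^ K + K * q ^ (K + 1) := by
  induction K with
  | zero => simp
  | succ n ih =>
    rw [Finset.sum_range_succ, mul_add, ih]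
    push_cast
    ring

private theorem evA_aux2 {q : ℝ} (hq : 0 < q) (hq1 : q < 1) (k0 K : ℕ) :
    ∑ k ∈ Finset.Ico k0 K, q ^ k * ((k : ℝ) + 1) ≤ 1 / (1 - q) ^ 2 := by
  have h1 : 0 < 1 - q := by linarith
  have h2 : ∑ k ∈ Finset.Ico k0 K, q ^ k * ((k : ℝ) + 1) ≤ ∑ k ∈ Finset.range K, q ^ k * ((k : ℝ) + 1) := by
    apply Finset.sum_le_sum_of_subset_of_nonneg
    · intro k hk
      rw [Finset.mem_Ico] at hk
      exact Finset.mem_range.2 hk.2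
    · intro k _ _
      positivity
  refine h2.trans ?_
  rw [le_div_iff₀ (by positivity), mul_comm, evA_aux1]
  have h3 : 0 < q ^ K := pow_pos hq K
  have h4 : (K : ℝ) * q ^ (K + 1) ≤ (K + 1) * q ^ K := by
    rw [pow_succ]
    have h5 : (0 : ℝ) ≤ K := Nat.cast_nonneg K
    nlinarith [mul_nonneg h5 h3.le, mul_nonneg (mul_nonneg h5 h3.le) h1.le]
  linarith

private theorem evA_aux3 (k0 K : ℕ) (hk : k0 ≤ K) :
    ∑ k ∈ Finset.Ico k0 K, ((1 : ℝ) / 2 ^ k) ≤ 2 / 2 ^ k0 := by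
  have h : ∑ k ∈ Finset.Ico k0 K, ((1 : ℝ) / 2 ^ k) = 2 / 2 ^ k0 - 2 / 2 ^ K := by
    induction K, hk using Nat.le_induction with
    | base => simp
    | succ n hn ih =>
      rw [Finset.sum_Ico_succ_top hn, ih, pow_succ]
      have : (2 : ℝ) ^ n ≠ 0 := by positivity
      field_simp
      ring
  rw [h]
  have : (0 : ℝ) ≤ 2 / 2 ^ K := by positivity
  linarith

theorem evA {a q C M e : ℝ} {k0 K : ℕ} {D0 L R : ℕ → ℝ} (ha : 0 < a) (hq : 0 < q) (hq1 : q < 1)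
    (hk : k0 ≤ K) (hqK : q ^ K ≤ 1 - q) (hC : 0 ≤ C) (hM : 0 ≤ M) (hM2 : M ≤ 2 ^ k0) (he : 0 ≤ e)
    (hD0 : ∀ k, |a ^ (k + 1) * D0 k - 1| ≤ C / 2 ^ k)
    (hL : ∀ k, a ^ (k + 1) * L k ≤ (k + 1) * e / a + M / 2 ^ k)
    (hR : ∀ k, D0 k - R k ≤ L k) :
    1 / ((1 - q) * a) - (k0 + 1) / a - (2 * C + 2) / a - e / ((1 - q) * a) ^ 2 ≤
      ∑ k ∈ Finset.Ico k0 K, (q * a) ^ k * R k := by
  have h1 : 0 < 1 - q := by linarith
  -- termwise bound
  have hterm : ∀ k : ℕ, q ^ k / a - (C + M) / a * (1 / 2 ^ k) - e / a ^ 2 * (q ^ k * ((k : ℝ) + 1)) ≤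
      (q * a) ^ k * R k := by
    intro k
    have hqk : 0 < q ^ k := pow_pos hq k
    have hqk1 : q ^ k ≤ 1 := pow_le_one₀ hq.le hq1.le
    have hak : 0 < a ^ (k + 1) := pow_pos ha _
    have e1 : a ^ (k + 1) * R k ≥ a ^ (k + 1) * D0 k - a ^ (k + 1) * L k := by
      have := hR k
      have h2 : D0 k - L k ≤ R k := by linarith
      nlinarith [mul_le_mul_of_nonneg_left h2 hak.le]
    have e2 : a ^ (k + 1) * D0 k ≥ 1 - C / 2 ^ k := by
      have := (abs_le.1 (hD0 k)).1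
      linarith
    have e3 := hL k
    have e4 : 1 - C / 2 ^ k - ((k + 1) * e / a + M / 2 ^ k) ≤ a ^ (k + 1) * R k := by linarith
    have e5 : (q * a) ^ k * R k = q ^ k / a * (a ^ (k + 1) * R k) := by
      rw [mul_pow, pow_succ]
      field_simp
    rw [e5]
    have e6 : q ^ k / a * (1 - C / 2 ^ k - ((k + 1) * e / a + M / 2 ^ k)) ≤ q ^ k / a * (a ^ (k + 1) * R k) :=
      mul_le_mul_of_nonneg_left e4 (by positivity)
    refine le_trans ?_ e6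
    have e7 : q ^ k / a * (1 - C / 2 ^ k - ((k + 1) * e / a + M / 2 ^ k)) =
        q ^ k / a - q ^ k * ((C + M) / a * (1 / 2 ^ k)) - e / a ^ 2 * (q ^ k * ((k : ℝ) + 1)) := by
      field_simp
      ring
    rw [e7]
    have e8 : q ^ k * ((C + M) / a * (1 / 2 ^ k)) ≤ 1 * ((C + M) / a * (1 / 2 ^ k)) :=
      mul_le_mul_of_nonneg_right hqk1 (by positivity)
    linarith
  have hsum := Finset.sum_le_sum (fun k (_ : k ∈ Finset.Ico k0 K) => hterm k)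
  refine le_trans ?_ hsum
  rw [Finset.sum_sub_distrib, Finset.sum_sub_distrib, ← Finset.mul_sum, ← Finset.mul_sum, ← Finset.sum_div]
  have s1 : 1 / (1 - q) - (k0 + 1) ≤ ∑ k ∈ Finset.Ico k0 K, q ^ k := by
    have hb : 1 - k0 * (1 - q) ≤ q ^ k0 := by
      have := one_add_mul_le_pow (a := q - 1) (by linarith) k0
      have h3 : 1 + (q - 1) = q := by ring
      rw [h3] at this
      linarith
    have hg : (1 - q) * ∑ k ∈ Finset.Ico k0 K, q ^ k = q ^ k0 - q ^ K := by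
      have := geom_sum_Ico (x := q) (by linarith [hq1]) hk
      rw [this]
      have h3 : q - 1 ≠ 0 := by linarith
      field_simp
      ring
    have : 1 / (1 - q) - (k0 + 1) = (1 - (k0 + 1) * (1 - q)) / (1 - q) := by
      field_simp
    rw [this, div_le_iff₀ h1, mul_comm (∑ k ∈ Finset.Ico k0 K, q ^ k) (1 - q), hg]
    linarith
  have s2 := evA_aux2 hq hq1 k0 K
  have s3 := evA_aux3 k0 K hk
  have t1 : 1 / ((1 - q) * a) - (k0 + 1) / a ≤ (∑ k ∈ Finset.Ico k0 K, q ^ k) / a := by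
    have : 1 / ((1 - q) * a) - (k0 + 1) / a = (1 / (1 - q) - (k0 + 1)) / a := by
      field_simp
    rw [this]
    exact div_le_div_of_nonneg_right s1 ha.le
  have t2 : (C + M) / a * ∑ k ∈ Finset.Ico k0 K, ((1 : ℝ) / 2 ^ k) ≤ (2 * C + 2) / a := by
    have h2k : (1 : ℝ) ≤ 2 ^ k0 := one_le_pow₀ (by norm_num)
    have h3 : (C + M) / a * ∑ k ∈ Finset.Ico k0 K, ((1 : ℝ) / 2 ^ k) ≤ (C + M) / a * (2 / 2 ^ k0) :=
      mul_le_mul_of_nonneg_left s3 (by positivity)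
    refine h3.trans ?_
    have h4 : (C + M) / a * (2 / 2 ^ k0) = (2 * ((C + M) / 2 ^ k0)) / a := by
      field_simp
    rw [h4]
    apply div_le_div_of_nonneg_right _ ha.le
    have h5 : (C + M) / 2 ^ k0 ≤ C + 1 := by
      rw [div_le_iff₀ (by positivity)]
      nlinarith
    linarith
  have t3 : e / a ^ 2 * ∑ k ∈ Finset.Ico k0 K, (q ^ k * ((k : ℝ) + 1)) ≤ e / ((1 - q) * a) ^ 2 := by
    have h3 := mul_le_mul_of_nonneg_left s2 (show 0 ≤ e / a ^ 2 by positivity)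
    refine h3.trans (le_of_eq ?_)
    field_simp
  linarith

end Pool.Agent.H76.GS
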