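import Mathlib
import Pool.Agent.H76.GS.Defs

/-!
# EvB: the average near the pole

PROOF.  With `A = a + it`, `z = q a/A` (`‖z‖ ≤ 1` since `|A| ≥ a`):
`∑_(k0 ≤ k < K) (qa)^k/A^(k+1) = (z^k0 - z^K)/(A - q a)` (`A (1 - z) = A - qa`), `|A - qa| ≥ |t|`, so its
absolute value is `≤ 2/|t|` (see `H76/RP/Geo.lean` for the algebra).  The difference:
`∑ (qa)^k ‖D k - 1/A^(k+1)‖ ≤ ∑ (qa)^k C/(2^k a^(k+1)) ≤ 2C/a`.  About 80 lines.
-/

set_option autoImplicit false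

open Complex

namespace Pool.Agent.H76.GS

theorem evB {a q t C : ℝ} {k0 K : ℕ} {D : ℕ → ℂ} (ha : 0 < a) (hq : 0 < q) (hq1 : q < 1)
    (hk : k0 ≤ K) (hC : 0 ≤ C) (ht : t ≠ 0)
    (hD : ∀ k, ‖(a : ℂ) ^ (k + 1) * D k - ((a : ℂ) / (a + t * I)) ^ (k + 1)‖ ≤ C / 2 ^ k) :
    ∑ k ∈ Finset.Ico k0 K, (q * a) ^ k * (D k).re ≤ 2 / |t| + 2 * C / a := by
  obtain ⟨A, hA⟩ : ∃ A : ℂ, A = (a : ℂ) + t * I := ⟨_, rfl⟩
  obtain ⟨Bc, hBc⟩ : ∃ Bc : ℂ, Bc = A - (q * a : ℝ) := ⟨_, rfl⟩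
  have hAre : A.re = a := by rw [hA]; simp
  have hAn : a ≤ ‖A‖ := by
    have h1 := abs_re_le_norm A
    rw [hAre, abs_of_pos ha] at h1
    exact h1
  have hA0 : A ≠ 0 := by
    intro h
    rw [h, norm_zero] at hAn
    linarith
  have hBim : Bc.im = t := by rw [hBc, hA]; simp
  have hBn : |t| ≤ ‖Bc‖ := by
    have h1 := abs_im_le_norm Bc
    rwa [hBim] at h1
  have htp : 0 < |t| := abs_pos.2 ht
  have hB0 : Bc ≠ 0 := by
    intro h
    rw [h, norm_zero] at hBn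
    linarith
  obtain ⟨z, hz⟩ : ∃ z : ℂ, z = ((q * a : ℝ) : ℂ) / A := ⟨_, rfl⟩
  have hz1 : ‖z‖ ≤ 1 := by
    rw [hz, norm_div, norm_real, Real.norm_of_nonneg (mul_pos hq ha).le,
      div_le_one (lt_of_lt_of_le ha hAn)]
    calc q * a ≤ 1 * a := mul_le_mul_of_nonneg_right hq1.le ha.le
      _ = a := one_mul a
      _ ≤ ‖A‖ := hAn
  have hterm : ∀ k : ℕ, ((q * a : ℝ) : ℂ) ^ k / A ^ (k + 1) = z ^ k / A := by
    intro k
    rw [hz, div_pow, pow_succ, div_div]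
  have hAz : (1 - z) * A = Bc := by
    rw [hz, sub_mul, one_mul, div_mul_cancel₀ _ hA0, hBc]
  have hsum : ∀ n : ℕ, (∑ k ∈ Finset.range n, z ^ k / A) = (1 - z ^ n) / Bc := by
    intro n
    have h1 : (∑ k ∈ Finset.range n, z ^ k) * (1 - z) = 1 - z ^ n := geom_sum_mul_neg z n
    rw [← Finset.sum_div, eq_div_iff hB0, ← hAz, ← h1]
    field_simp
  have e1 : (∑ k ∈ Finset.Ico k0 K, ((q * a : ℝ) : ℂ) ^ k / A ^ (k + 1)) = (z ^ k0 - z ^ K) / Bc := by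
    rw [Finset.sum_congr rfl (fun k _ => hterm k), Finset.sum_Ico_eq_sub _ hk, hsum K, hsum k0, ← sub_div]
    congr 1
    ring
  have h2 : (∑ k ∈ Finset.Ico k0 K, (((q * a : ℝ) : ℂ) ^ k / A ^ (k + 1)).re) ≤ 2 / |t| := by
    rw [← re_sum, e1]
    refine (le_abs_self _).trans ((abs_re_le_norm _).trans ?_)
    rw [norm_div]
    refine div_le_div₀ (by norm_num) ?_ htp hBn
    refine (norm_sub_le _ _).trans ?_
    rw [norm_pow, norm_pow]
    have h3 := pow_le_one₀ (n := k0) (norm_nonneg z) hz1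
    have h4 := pow_le_one₀ (n := K) (norm_nonneg z) hz1
    linarith
  have h5 : ∀ k ∈ Finset.Ico k0 K, (q * a) ^ k * (D k).re ≤
      (((q * a : ℝ) : ℂ) ^ k / A ^ (k + 1)).re + C / a * (1 / 2) ^ k := by
    intro k _
    have h6 := hD k
    rw [← hA] at h6
    have hak : (0 : ℝ) < a ^ (k + 1) := pow_pos ha _
    have e2 : (a : ℂ) ^ (k + 1) * D k - ((a : ℂ) / A) ^ (k + 1) =
        ((a ^ (k + 1) : ℝ) : ℂ) * (D k - 1 / A ^ (k + 1)) := by
      rw [div_pow]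
      push_cast
      ring
    rw [e2, norm_mul, norm_real, Real.norm_of_nonneg hak.le] at h6
    have h7 : ‖D k - 1 / A ^ (k + 1)‖ ≤ C / 2 ^ k / a ^ (k + 1) := by
      rw [le_div_iff₀ hak, mul_comm]
      exact h6
    have h8 : (D k - 1 / A ^ (k + 1)).re ≤ C / 2 ^ k / a ^ (k + 1) :=
      (le_abs_self _).trans ((abs_re_le_norm _).trans h7)
    rw [sub_re] at h8
    have hqk : (0 : ℝ) ≤ (q * a) ^ k := pow_nonneg (mul_pos hq ha).le k
    have h9 := mul_le_mul_of_nonneg_left h8 hqk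
    have e3 : (((q * a : ℝ) : ℂ) ^ k / A ^ (k + 1)).re = (q * a) ^ k * (1 / A ^ (k + 1)).re := by
      rw [div_eq_mul_one_div, ← ofReal_pow, re_ofReal_mul]
    have h10 : (q * a) ^ k * (C / 2 ^ k / a ^ (k + 1)) ≤ C / a * (1 / 2) ^ k := by
      have e4 : (q * a) ^ k * (C / 2 ^ k / a ^ (k + 1)) = q ^ k * (C / a * (1 / 2) ^ k) := by
        rw [mul_pow, pow_succ, one_div, inv_pow]
        field_simp
      rw [e4]
      have h11 : q ^ k ≤ 1 := pow_le_one₀ hq.le hq1.le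
      have h12 : 0 ≤ C / a * (1 / 2) ^ k := mul_nonneg (div_nonneg hC ha.le) (by positivity)
      calc q ^ k * (C / a * (1 / 2) ^ k) ≤ 1 * (C / a * (1 / 2) ^ k) :=
            mul_le_mul_of_nonneg_right h11 h12
        _ = _ := one_mul _
    rw [e3]
    rw [mul_sub] at h9
    linarith
  have h13 : ∑ k ∈ Finset.Ico k0 K, C / a * (1 / 2 : ℝ) ^ k ≤ 2 * C / a := by
    have hCa : 0 ≤ C / a := div_nonneg hC ha.le
    have h14 : ∑ k ∈ Finset.Ico k0 K, C / a * (1 / 2 : ℝ) ^ k ≤ ∑ k ∈ Finset.range K, C / a * (1 / 2 : ℝ) ^ k := by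
      apply Finset.sum_le_sum_of_subset_of_nonneg
      · intro k hk'
        exact Finset.mem_range.2 (Finset.mem_Ico.1 hk').2
      · intro k _ _
        positivity
    refine h14.trans ?_
    rw [← Finset.mul_sum]
    have h15 : ∑ k ∈ Finset.range K, (1 / 2 : ℝ) ^ k ≤ 2 := by
      have h16 : (∑ k ∈ Finset.range K, (1 / 2 : ℝ) ^ k) * (1 - 1 / 2) = 1 - (1 / 2) ^ K := geom_sum_mul_neg _ K
      have h17 : (0 : ℝ) ≤ (1 / 2) ^ K := by positivity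
      linarith
    calc C / a * ∑ k ∈ Finset.range K, (1 / 2 : ℝ) ^ k ≤ C / a * 2 := mul_le_mul_of_nonneg_left h15 hCa
      _ = 2 * C / a := by ring
  calc ∑ k ∈ Finset.Ico k0 K, (q * a) ^ k * (D k).re
      ≤ ∑ k ∈ Finset.Ico k0 K, ((((q * a : ℝ) : ℂ) ^ k / A ^ (k + 1)).re + C / a * (1 / 2) ^ k) :=
        Finset.sum_le_sum h5
    _ = (∑ k ∈ Finset.Ico k0 K, (((q * a : ℝ) : ℂ) ^ k / A ^ (k + 1)).re) +
        ∑ k ∈ Finset.Ico k0 K, C / a * (1 / 2 : ℝ) ^ k := Finset.sum_add_distrib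
    _ ≤ 2 / |t| + 2 * C / a := add_le_add h2 h13

end Pool.Agent.H76.GS
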