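import Mathlib
import Pool.Agent.H52.RK.LocG
import Pool.Agent.H76.GS.DkNear

/-!
# Defic: the loss at isolated zeros

PROOF.  `r1, C1` from `dkNear`, `C2` from `locG_pt`; answer `r1`, `C = C1 + C2`.  Part 1 is `dkNear`.
Part 2 (`t = 0`): `|a^(k+1) ∑' dco - 1| ≤ C1/2^k` from part 1 at `t = 0` (`Dk_zero` of `H76/RP/Dk0.lean`).
Part 3: for `ρ ∈ S` with `kk ρ ≠ 0`: `1 - Re ρ < a`, so `ρ ∈ disc (3a) (Im ρ)`; `zc r (Im ρ) ≤ 1` and
`3a ≤ r ≤ 1` give: `ρ` is the only zero in `disc (3a) (Im ρ)` and has order 1 (see the private lemma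
`mb_uniq` of `H52/RK/MainBG.lean`, copy it).  `locG_pt` (`2a ≤ 1/8 ≤ 1 ≤ |Im ρ|`, `a ≤ 1/16`):
`|a^(k+1) Dk(Im ρ) + (a/(a+δ))^(k+1)| ≤ C2 Λ/2^(k+1)`, `δ = 1 - Re ρ > 0`, and by Bernoulli
`(a/(a+δ))^(k+1) ≥ (1 - δ/a)^(k+1) ≥ 1 - (k+1)δ/a`.  So
`a^(k+1) (∑' dco + Re Dk(Im ρ)) ≤ (k+1) δ/a + C1/2^k + C2 Λ/2^(k+1) ≤ (k+1)δ/a + C Λ/2^k` (`1 ≤ gv ≤ Λ`:
`gv_ge`).  Multiply by `|kk ρ|`, sum (terms with `kk ρ = 0` vanish), multiply by `len`.  About 150 lines.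
-/

set_option autoImplicit false

open Complex

namespace Pool.Agent.H76.GS

open Pool.Agent.H76.CR Pool.Agent.H76.RP Pool.Agent.H52.RK

private theorem df_uniq {a r : ℝ} (hr : r ≤ 1) (har : 3 * a ≤ r) {ρ : ℂ} (hρ : riemannZeta ρ = 0)
    (hd : 1 - ρ.re < r) (hz : zc r ρ.im ≤ 1) :
    analyticOrderNatAt riemannZeta ρ = 1 ∧ ∀ u ∈ disc (3 * a) ρ.im, u = ρ := by
  have h1 : ρ.re < 1 := re_lt_one hρ
  have hmem : ρ ∈ disc r ρ.im := by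
    refine ⟨hρ, ?_⟩
    have e : ρ - (1 + ρ.im * I) = ((ρ.re - 1 : ℝ) : ℂ) := by
      apply Complex.ext <;> simp
    rw [e, Complex.norm_real, Real.norm_eq_abs, abs_of_neg (by linarith)]
    linarith
  have h2 := ord_pos hρ
  refine ⟨?_, ?_⟩
  · have h3 := zc_ge hr ρ.im {ρ} (by
      intro u hu
      rw [Finset.mem_singleton] at hu
      rw [hu]
      exact hmem)
    rw [Finset.sum_singleton] at h3
    omega
  · intro u hu
    by_contra hne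
    have hu' : u ∈ disc r ρ.im := ⟨hu.1, lt_of_lt_of_le hu.2 har⟩
    have h3 := zc_ge hr ρ.im {u, ρ} (by
      intro z hz
      rw [Finset.mem_insert, Finset.mem_singleton] at hz
      rcases hz with h | h
      · rw [h]; exact hu'
      · rw [h]; exact hmem)
    rw [Finset.sum_pair hne] at h3
    have h4 := ord_pos hu.1
    omega

/-- Bernoulli -/
private theorem df_bern {a δ : ℝ} (ha : 0 < a) (hδ : 0 < δ) (hδa : δ < a) (k : ℕ) :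
    1 - (k + 1) * δ / a ≤ (a / (a + δ)) ^ (k + 1) := by
  have h1 : 1 - δ / a ≤ a / (a + δ) := by
    rw [le_div_iff₀ (by positivity)]
    have : (1 - δ / a) * (a + δ) = a - δ ^ 2 / a := by field_simp; ring
    rw [this]
    have : 0 ≤ δ ^ 2 / a := by positivity
    linarith
  have h0 : δ / a ≤ 1 := by rw [div_le_one ha]; exact hδa.le
  have h3 := one_add_mul_le_pow (by linarith : -2 ≤ -(δ / a)) (k + 1)
  have h4 : (1 + -(δ / a)) ^ (k + 1) ≤ (a / (a + δ)) ^ (k + 1) :=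
    pow_le_pow_left₀ (by linarith) (by linarith) _
  have h5 : 1 + ((k + 1 : ℕ) : ℝ) * -(δ / a) = 1 - (k + 1) * δ / a := by
    push_cast
    ring
  linarith

/-- the value at the pole -/
private theorem df_zero {a C1 : ℝ} {k : ℕ} (ha : 0 < a)
    (h : ‖(a : ℂ) ^ (k + 1) * Dk a k 0 - ((a : ℂ) / (a + (0 : ℝ) * I)) ^ (k + 1)‖ ≤ C1 / 2 ^ k) :
    |a ^ (k + 1) * (∑' n : ℕ, dco a k n) - 1| ≤ C1 / 2 ^ k := by
  have ha0 : (a : ℂ) ≠ 0 := by exact_mod_cast ha.ne'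
  have e1 : ((a : ℂ) / (a + (0 : ℝ) * I)) ^ (k + 1) = 1 := by
    rw [Complex.ofReal_zero, zero_mul, add_zero, div_self ha0, one_pow]
  have e2 : ((a ^ (k + 1) * (∑' n : ℕ, dco a k n) - 1 : ℝ) : ℂ) =
      (a : ℂ) ^ (k + 1) * Dk a k 0 - ((a : ℂ) / (a + (0 : ℝ) * I)) ^ (k + 1) := by
    rw [e1, Dk_zero, Complex.ofReal_sub, Complex.ofReal_mul, Complex.ofReal_pow, Complex.ofReal_one]
  rw [← Real.norm_eq_abs, ← Complex.norm_real, e2]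
  exact h

/-- one zero -/
private theorem df_one {a C1 C2 Λ δ T t : ℝ} {k : ℕ} (ha : 0 < a) (hδ : 0 < δ) (hδa : δ < a)
    (hC1 : 0 ≤ C1) (hC2 : 0 ≤ C2) (hΛ : 1 ≤ Λ) (hT : |a ^ (k + 1) * T - 1| ≤ C1 / 2 ^ k)
    (h : ‖(a : ℂ) ^ (k + 1) * Dk a k t + (((a / (a + δ)) ^ (k + 1) : ℝ) : ℂ)‖ ≤
      C2 * Λ / 2 ^ (k + 1)) :
    a ^ (k + 1) * (T + (Dk a k t).re) ≤ (k + 1) * δ / a + (C1 + C2) * Λ / 2 ^ k := by
  have h1 := df_bern ha hδ hδa k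
  have h2 := (abs_le.1 hT).2
  have h3 : a ^ (k + 1) * (Dk a k t).re + (a / (a + δ)) ^ (k + 1) ≤ C2 * Λ / 2 ^ (k + 1) := by
    refine le_trans ?_ h
    refine le_trans (le_of_eq ?_) (Complex.re_le_norm _)
    rw [Complex.add_re, Complex.ofReal_re, ← Complex.ofReal_pow, Complex.re_ofReal_mul]
  have hp : (0 : ℝ) < 2 ^ k := by positivity
  have h4 : C1 / 2 ^ k + C2 * Λ / 2 ^ (k + 1) ≤ (C1 + C2) * Λ / 2 ^ k := by
    have h5 : C1 / 2 ^ k ≤ C1 * Λ / 2 ^ k := by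
      apply div_le_div_of_nonneg_right _ hp.le
      nlinarith
    have h6 : C2 * Λ / 2 ^ (k + 1) ≤ C2 * Λ / 2 ^ k := by
      have h7 : 0 ≤ C2 * Λ := by positivity
      apply div_le_div_of_nonneg_left h7 hp
      rw [pow_succ]
      linarith
    calc _ ≤ C1 * Λ / 2 ^ k + C2 * Λ / 2 ^ k := add_le_add h5 h6
      _ = _ := by ring
  rw [mul_add]
  linarith

theorem defic : ∃ r1 C : ℝ, 0 < r1 ∧ r1 ≤ 1 / 16 ∧ 1 ≤ C ∧
    (∀ (a t : ℝ) (k : ℕ), 0 < a → a ≤ r1 → |t| ≤ 2 * a →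
      ‖(a : ℂ) ^ (k + 1) * Dk a k t - ((a : ℂ) / (a + t * I)) ^ (k + 1)‖ ≤ C / 2 ^ k) ∧
    (∀ (a : ℝ) (k : ℕ), 0 < a → a ≤ r1 → |a ^ (k + 1) * (∑' n : ℕ, dco a k n) - 1| ≤ C / 2 ^ k) ∧
    (∀ (a r Λ : ℝ) (k : ℕ) (S : Finset ℂ) (kk : ℂ → ℤ), 0 < a → a ≤ r1 → 3 * a ≤ r → r ≤ 1 →
      (∀ ρ ∈ S, riemannZeta ρ = 0 ∧ 1 ≤ |ρ.im| ∧ zc r ρ.im ≤ 1 ∧ (kk ρ ≠ 0 → 1 - ρ.re < a) ∧
        gv a ρ.im ≤ Λ) →
      a ^ (k + 1) * loss (dco a k) S kk ≤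
        (k + 1) * dep S kk / a + len S kk ^ 2 * (C * Λ / 2 ^ k)) := by
  obtain ⟨r1, C1, hr1, hr16, hC1, h1⟩ := dkNear
  obtain ⟨C2, hC2, h2⟩ := locG_pt
  have hzero : ∀ (a : ℝ) (k : ℕ), 0 < a → a ≤ r1 →
      |a ^ (k + 1) * (∑' n : ℕ, dco a k n) - 1| ≤ C1 / 2 ^ k := by
    intro a k ha har
    exact df_zero ha (h1 a 0 k ha har (by rw [abs_zero]; positivity))
  refine ⟨r1, C1 + C2, hr1, hr16, by linarith, ?_, ?_, ?_⟩
  · intro a t k ha har ht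
    refine (h1 a t k ha har ht).trans ?_
    apply div_le_div_of_nonneg_right (by linarith) (by positivity)
  · intro a k ha har
    refine (hzero a k ha har).trans ?_
    apply div_le_div_of_nonneg_right (by linarith) (by positivity)
  · intro a r Λ k S kk ha har h3a hr hS
    set T : ℝ := ∑' n : ℕ, dco a k n with hT
    have hTz := hzero a k ha har
    have hterm : ∀ ρ ∈ S, a ^ (k + 1) * (|(kk ρ : ℝ)| * (T + (Ds (dco a k) ρ.im).re)) ≤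
        |(kk ρ : ℝ)| * ((k + 1) * (1 - ρ.re) / a + (C1 + C2) * Λ / 2 ^ k) := by
      intro ρ hρ
      obtain ⟨hz, him, hzc, hdep, hg⟩ := hS ρ hρ
      by_cases hk0 : kk ρ = 0
      · rw [hk0, Int.cast_zero, abs_zero, zero_mul, mul_zero, zero_mul]
      · have hδa := hdep hk0
        have hlt := re_lt_one hz
        have hΛ : 1 ≤ Λ := (gv_ge ha (by linarith)).trans hg
        obtain ⟨ho, hu⟩ := df_uniq hr h3a hz (by linarith) hzc
        have h4 := (h2 a ρ.im Λ k ha (by linarith) (by linarith) hg).2 ρ hz rfl hδa hu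
        rw [ho, Nat.cast_one, one_mul] at h4
        have h5 := df_one ha (by linarith) hδa (by linarith) (by linarith) hΛ hTz h4
        rw [← Dk_Ds]
        calc a ^ (k + 1) * (|(kk ρ : ℝ)| * (T + (Dk a k ρ.im).re))
            = |(kk ρ : ℝ)| * (a ^ (k + 1) * (T + (Dk a k ρ.im).re)) := by ring
          _ ≤ _ := mul_le_mul_of_nonneg_left h5 (abs_nonneg _)
    have hL := len_nonneg S kk
    have hsum := Finset.sum_le_sum hterm
    rw [← Finset.mul_sum] at hsum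
    have hr2 : ∑ ρ ∈ S, |(kk ρ : ℝ)| * ((k + 1) * (1 - ρ.re) / a + (C1 + C2) * Λ / 2 ^ k) =
        (k + 1) / a * (∑ ρ ∈ S, |(kk ρ : ℝ)| * (1 - ρ.re)) +
          len S kk * ((C1 + C2) * Λ / 2 ^ k) := by
      unfold len
      rw [Finset.mul_sum, Finset.sum_mul, ← Finset.sum_add_distrib]
      refine Finset.sum_congr rfl fun ρ _ => ?_
      ring
    rw [hr2] at hsum
    have h6 := mul_le_mul_of_nonneg_left hsum hL
    unfold loss dep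
    calc a ^ (k + 1) * (len S kk * ∑ ρ ∈ S, |(kk ρ : ℝ)| * (T + (Ds (dco a k) ρ.im).re))
        = len S kk * (a ^ (k + 1) * ∑ ρ ∈ S, |(kk ρ : ℝ)| * (T + (Ds (dco a k) ρ.im).re)) := by ring
      _ ≤ _ := h6
      _ = _ := by ring

end Pool.Agent.H76.GS
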