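import Mathlib
import Pool.Agent.H76.GS.Defic
import Pool.Agent.H76.GS.DefsU

/-!
# LossU: the averaged loss at uncrowded zeros

PROOF.  `r1, C1` from `defic`, `C2` from `locEG`; `C = 2 C1 + C2 + 1`.  Put `x = (1-q) a`.  The left side is
`len ∑_ρ |kk ρ| (E0 + Re E(Im ρ))` with `E0 = ∑ (qa)^k ∑' dco a k n`, `E(t) = ∑ ((q a : ℝ) : ℂ)^k Dk a k t`
(exchange the sums, `Finset.sum_comm`, `loss` unfolded, `Dk_Ds`).  `E0 ≤ 1/x + 2 C1/a` (`defic` (2), as the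
private lemma `ma_zero` of `H52/RK/MainAG.lean`, copy).  For `kk ρ ≠ 0`, `δ = 1 - Re ρ < a`: `locEG` (2)
(`2a ≤ 1/8 ≤ 1 ≤ |Im ρ|`): `Re E(Im ρ) ≤ -1/(x+δ) + (k0+1)/a zc (3a) (Im ρ) + C2/a`,
`zc (3a) ≤ zc r` (`zc_mono`), `1 ≤ zc r (Im ρ)` (`zc_pos`).  `1/x - 1/(x+δ) = δ/(x(x+δ)) ≤ δ/x²`.  So
`E0 + Re E ≤ δ/x² + ((k0+1) + 2C1 + C2) zc r (Im ρ)/a ≤ δ/x² + C (k0+1) zc r (Im ρ)/a`; multiply by
`|kk ρ|` (zero terms are trivial), sum, multiply by `len`.  About 150 lines.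
-/

set_option autoImplicit false

open Complex

namespace Pool.Agent.H76.GS

open Pool.Agent.H76.CR Pool.Agent.H76.RP Pool.Agent.H52.RK

private theorem lu_geo {q : ℝ} (hq : 0 ≤ q) (hq1 : q < 1) (k0 K : ℕ) :
    ∑ k ∈ Finset.Ico k0 K, q ^ k ≤ 1 / (1 - q) := by
  have h := (summable_geometric_of_lt_one hq hq1).sum_le_tsum (Finset.Ico k0 K)
    (fun k _ => pow_nonneg hq k)
  rw [tsum_geometric_of_lt_one hq hq1] at h
  rw [one_div]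
  exact h

private theorem lu_zero {a q C1 : ℝ} (ha : 0 < a) (hq : 0 < q) (hq1 : q < 1) (hC1 : 0 ≤ C1)
    (k0 K : ℕ) (h : ∀ k : ℕ, |a ^ (k + 1) * (∑' n : ℕ, dco a k n) - 1| ≤ C1 / 2 ^ k) :
    ∑ k ∈ Finset.Ico k0 K, (q * a) ^ k * (∑' n : ℕ, dco a k n) ≤
      1 / ((1 - q) * a) + 2 * C1 / a := by
  have h1 : ∀ k ∈ Finset.Ico k0 K, (q * a) ^ k * (∑' n : ℕ, dco a k n) ≤
      1 / a * q ^ k + C1 / a * (1 / 2) ^ k := by
    intro k _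
    set D := ∑' n : ℕ, dco a k n
    have h2 := (abs_le.mp (h k)).2
    have hqk : 0 < q ^ k := pow_pos hq k
    have hqk1 : q ^ k ≤ 1 := pow_le_one₀ hq.le hq1.le
    have h3 : (q * a) ^ k * D = q ^ k / a * (a ^ (k + 1) * D) := by
      field_simp
      ring
    have h4 : a ^ (k + 1) * D ≤ 1 + C1 / 2 ^ k := by linarith
    rw [h3]
    calc q ^ k / a * (a ^ (k + 1) * D) ≤ q ^ k / a * (1 + C1 / 2 ^ k) :=
          mul_le_mul_of_nonneg_left h4 (div_nonneg hqk.le ha.le)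
      _ = 1 / a * q ^ k + q ^ k * (C1 / a * (1 / 2) ^ k) := by
          rw [one_div_pow]
          ring
      _ ≤ 1 / a * q ^ k + 1 * (C1 / a * (1 / 2) ^ k) := by
          have h5 : 0 ≤ C1 / a * (1 / 2) ^ k := by positivity
          linarith [mul_le_mul_of_nonneg_right hqk1 h5]
      _ = _ := by ring
  refine (Finset.sum_le_sum h1).trans ?_
  rw [Finset.sum_add_distrib, ← Finset.mul_sum, ← Finset.mul_sum]
  have h6 := lu_geo hq.le hq1 k0 K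
  have h7 := lu_geo (q := 1 / 2) (by norm_num) (by norm_num) k0 K
  have h8 : (1 : ℝ) / (1 - 1 / 2) = 2 := by norm_num
  rw [h8] at h7
  have hq2 : 0 < 1 - q := by linarith
  have h9 : 1 / a * ∑ k ∈ Finset.Ico k0 K, q ^ k ≤ 1 / ((1 - q) * a) := by
    calc 1 / a * ∑ k ∈ Finset.Ico k0 K, q ^ k ≤ 1 / a * (1 / (1 - q)) :=
          mul_le_mul_of_nonneg_left h6 (by positivity)
      _ = 1 / ((1 - q) * a) := by
          rw [one_div_mul_one_div, mul_comm a]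
  have h10 : C1 / a * ∑ k ∈ Finset.Ico k0 K, (1 / 2 : ℝ) ^ k ≤ 2 * C1 / a := by
    calc C1 / a * ∑ k ∈ Finset.Ico k0 K, (1 / 2 : ℝ) ^ k ≤ C1 / a * 2 :=
          mul_le_mul_of_nonneg_left h7 (by positivity)
      _ = 2 * C1 / a := by ring
  linarith

private theorem lu_diff {x δ : ℝ} (hx : 0 < x) (hδ : 0 ≤ δ) :
    1 / x - 1 / (x + δ) ≤ δ / x ^ 2 := by
  have h1 : 1 / x - 1 / (x + δ) = δ / (x * (x + δ)) := by
    field_simp
    ring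
  rw [h1]
  refine div_le_div_of_nonneg_left hδ (by positivity) ?_
  nlinarith

private theorem lu_exch (a q : ℝ) (k0 K : ℕ) (S : Finset ℂ) (kk : ℂ → ℤ) :
    ∑ k ∈ Finset.Ico k0 K, (q * a) ^ k * loss (dco a k) S kk =
      len S kk * ∑ ρ ∈ S, |(kk ρ : ℝ)| *
        ((∑ k ∈ Finset.Ico k0 K, (q * a) ^ k * (∑' n : ℕ, dco a k n)) +
          (∑ k ∈ Finset.Ico k0 K, ((q * a : ℝ) : ℂ) ^ k * Dk a k ρ.im).re) := by
  have h1 : ∀ ρ : ℂ, (∑ k ∈ Finset.Ico k0 K, ((q * a : ℝ) : ℂ) ^ k * Dk a k ρ.im).re =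
      ∑ k ∈ Finset.Ico k0 K, (q * a) ^ k * (Dk a k ρ.im).re := by
    intro ρ
    rw [Complex.re_sum]
    refine Finset.sum_congr rfl (fun k _ => ?_)
    rw [← Complex.ofReal_pow, Complex.re_ofReal_mul]
  simp only [h1, loss, ← Finset.sum_add_distrib, Finset.mul_sum]
  rw [Finset.sum_comm]
  refine Finset.sum_congr rfl (fun ρ _ => Finset.sum_congr rfl (fun k _ => ?_))
  rw [Dk_Ds]
  ring

theorem lossU : ∃ r1 C : ℝ, 0 < r1 ∧ r1 ≤ 1 / 16 ∧ 1 ≤ C ∧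
    (∀ (a t : ℝ) (k : ℕ), 0 < a → a ≤ r1 → |t| ≤ 2 * a →
      ‖(a : ℂ) ^ (k + 1) * Dk a k t - ((a : ℂ) / (a + t * I)) ^ (k + 1)‖ ≤ C / 2 ^ k) ∧
    (∀ (a : ℝ) (k : ℕ), 0 < a → a ≤ r1 → |a ^ (k + 1) * (∑' n : ℕ, dco a k n) - 1| ≤ C / 2 ^ k) ∧
    (∀ (a q r Λ : ℝ) (k0 K : ℕ) (S : Finset ℂ) (kk : ℂ → ℤ), 0 < a → a ≤ r1 → 3 * a ≤ r → r ≤ 1 →
      0 < q → q < 1 → k0 ≤ K → q ^ K ≤ 1 - q → Λ ≤ 2 ^ k0 →
      (∀ ρ ∈ S, riemannZeta ρ = 0 ∧ 1 ≤ |ρ.im| ∧ (kk ρ ≠ 0 → 1 - ρ.re < a) ∧ gv a ρ.im ≤ Λ) →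
      ∑ k ∈ Finset.Ico k0 K, (q * a) ^ k * loss (dco a k) S kk ≤
        dep S kk / ((1 - q) * a) ^ 2 + C * (k0 + 1) * num r S kk / a) := by
  obtain ⟨r1, C1, hr1, hr1', hC1, hA, hB, -⟩ := defic
  obtain ⟨C2, hC2, hL⟩ := locEG
  refine ⟨r1, 2 * C1 + C2 + 1, hr1, hr1', by linarith, ?_, ?_, ?_⟩
  · intro a t k ha har ht
    refine (hA a t k ha har ht).trans ?_
    exact div_le_div_of_nonneg_right (by linarith) (by positivity)
  · intro a k ha har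
    refine (hB a k ha har).trans ?_
    exact div_le_div_of_nonneg_right (by linarith) (by positivity)
  intro a q r Λ k0 K S kk ha har har3 hr hq hq1 hkK hqK hΛk hS
  set x : ℝ := (1 - q) * a with hx
  have hx0 : 0 < x := mul_pos (by linarith) ha
  rw [lu_exch]
  have hE0 := lu_zero ha hq hq1 (by linarith : (0 : ℝ) ≤ C1) k0 K (fun k => hB a k ha har)
  rw [← hx] at hE0
  set E0 : ℝ := ∑ k ∈ Finset.Ico k0 K, (q * a) ^ k * (∑' n : ℕ, dco a k n) with hE0def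
  set C : ℝ := 2 * C1 + C2 + 1 with hC
  have hterm : ∀ ρ ∈ S, |(kk ρ : ℝ)| * (E0 +
      (∑ k ∈ Finset.Ico k0 K, ((q * a : ℝ) : ℂ) ^ k * Dk a k ρ.im).re) ≤
      |(kk ρ : ℝ)| * (1 - ρ.re) / x ^ 2 +
        C * (k0 + 1) * (|(kk ρ : ℝ)| * (zc r ρ.im : ℝ)) / a := by
    intro ρ hρ
    obtain ⟨s1, s2, s3, s4⟩ := hS ρ hρ
    by_cases hk : kk ρ = 0
    · simp [hk]
    have hδ := s3 hk
    have hre := re_lt_one s1
    have hz1 : (1 : ℝ) ≤ (zc r ρ.im : ℝ) := by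
      have h1 := zc_pos hr s1 (by linarith)
      exact_mod_cast h1
    have hz3 : (zc (3 * a) ρ.im : ℝ) ≤ (zc r ρ.im : ℝ) := by
      exact_mod_cast zc_mono har3 hr ρ.im
    have h2 := (hL a q ρ.im Λ k0 K ha (by linarith) hq hq1 hkK hqK (by linarith) s4 hΛk).2 ρ s1
      rfl hδ
    rw [← hx] at h2
    have h3 := lu_diff hx0 (by linarith : 0 ≤ 1 - ρ.re)
    set E : ℝ := (∑ k ∈ Finset.Ico k0 K, ((q * a : ℝ) : ℂ) ^ k * Dk a k ρ.im).re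
    have hk0 : (0 : ℝ) ≤ (k0 : ℝ) := Nat.cast_nonneg _
    have h4 : ((k0 : ℝ) + 1) / a * zc (3 * a) ρ.im ≤ ((k0 : ℝ) + 1) * (zc r ρ.im : ℝ) / a := by
      rw [div_mul_eq_mul_div]
      exact div_le_div_of_nonneg_right (mul_le_mul_of_nonneg_left hz3 (by positivity)) ha.le
    have h5 : 2 * C1 / a + C2 / a ≤ (2 * C1 + C2) * (k0 + 1) * (zc r ρ.im : ℝ) / a := by
      rw [← add_div]
      refine div_le_div_of_nonneg_right ?_ ha.le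
      have h6 : 1 ≤ ((k0 : ℝ) + 1) * (zc r ρ.im : ℝ) := by nlinarith
      have h7 : 0 ≤ 2 * C1 + C2 := by linarith
      calc 2 * C1 + C2 = (2 * C1 + C2) * 1 := by ring
        _ ≤ (2 * C1 + C2) * (((k0 : ℝ) + 1) * (zc r ρ.im : ℝ)) :=
            mul_le_mul_of_nonneg_left h6 h7
        _ = _ := by ring
    have h8 : E0 + E ≤ (1 - ρ.re) / x ^ 2 + C * (k0 + 1) * (zc r ρ.im : ℝ) / a := by
      have h9 : C * (k0 + 1) * (zc r ρ.im : ℝ) / a =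
          (2 * C1 + C2) * (k0 + 1) * (zc r ρ.im : ℝ) / a +
          ((k0 : ℝ) + 1) * (zc r ρ.im : ℝ) / a := by
        rw [hC]
        ring
      rw [h9]
      linarith
    calc |(kk ρ : ℝ)| * (E0 + E) ≤ |(kk ρ : ℝ)| *
          ((1 - ρ.re) / x ^ 2 + C * (k0 + 1) * (zc r ρ.im : ℝ) / a) :=
          mul_le_mul_of_nonneg_left h8 (abs_nonneg _)
      _ = _ := by ring
  have hsum := Finset.sum_le_sum hterm
  rw [Finset.sum_add_distrib] at hsum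
  have h10 := mul_le_mul_of_nonneg_left hsum (len_nonneg S kk)
  refine h10.trans (le_of_eq ?_)
  unfold dep num
  rw [← Finset.sum_div, ← Finset.sum_div, ← Finset.mul_sum]
  ring

end Pool.Agent.H76.GS
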