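import Mathlib
import Pool.Agent.H52.RK.MainAG
import Pool.Agent.H52.ZR.Low
import Pool.Agent.H76.GS.Defs

/-!
# Par: the parameters

PROOF.  `cv` from `vk_all`.  Let `0 < dep`; then some `ρ ∈ S` has `kk ρ ≠ 0`, so `1 ≤ len` (integers), and
for every `ρ ∈ S` with `kk ρ ≠ 0`: `1 - Re ρ ≤ |kk ρ| (1 - Re ρ) ≤ ∑ ≤ len ∑ = dep` (all terms `≥ 0` since
`Re ρ < 1`, `re_lt_one`).  Put `D = cv / vklam T`; by `vk_all`, `vklam_mono` (`|Im ρ| ≤ T`):
`D ≤ 1 - Re ρ` for `ρ ∈ S`, so `len² D ≤ len ∑ |kk ρ| (1 - Re ρ) = dep ≤ c r/Phi ≤ r` (`Phi ≥ 1` for `T ≥ C`,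
`c ≤ 1`).  Let `X = 2 + r^(3/2) log T + loglog T`.
(i) `r vklam T ≤ C' X`: `log(T+3) ≤ 2 log T`, `1 + loglog(T+3) ≤ 3 loglog T` for `T ≥ e^e`..., and
`r (log T)^(2/3) (loglog T)^(1/3) = (r^(3/2) log T)^(2/3) (loglog T)^(1/3) ≤ r^(3/2) log T + loglog T`
(weighted AM-GM `Real.inner_le_nnorm_mul_nnorm`.. or simply `≤ max ≤ sum`).  So `len² ≤ r/D ≤ C'' X`.
(ii) `D ≤ dep ≤ r` gives `log(1/r) ≤ log(vklam T/cv) ≤ loglog T + C`, since
`vklam T ≤ C log T`.
(iii) for `|t| ≤ (len+1) T ≤ T²` (as `len ≤ len² ≤ C''X ≤ T - 1` for `T ≥ C`: `X ≤ 2 + log T + loglog T`):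
`gv (r1 r) t = (r1 r)^(3/2) log(|t|+2) + loglog(|t|+3) + log(1/(r1 r)) + 1 ≤ C3 X` (compare `gv_le` in
`H52/RK/MainAG.lean`, whose proof may be copied with `T²` in place of `2T`).  `Λ = C3 X`, `C3 ≥ 1`.
(iv) `k0 = ⌈logb 2 (C1 C'' C3 X²)⌉` (plus `X ≥ 1`): then `C1 len² Λ ≤ 2^k0`, `C1 Λ ≤ 2^k0`,
`k0 + 1 ≤ C4 log X = C4 Phi r T` (as `level` in MainAG).  The constants `c = 1`, `C`, `C4` depend on
`r1, C1` only.  About 250 lines.
-/

set_option autoImplicit false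

open Complex

namespace Pool.Agent.H76.GS

open Pool.Agent.H76.CR Pool.Agent.H76.RP Pool.Agent.H52.RK Pool.Agent.H52.ZR

private theorem par_one {S : Finset ℂ} {kk : ℂ → ℤ} (h : 0 < dep S kk) :
    ∃ ρ ∈ S, kk ρ ≠ 0 := by
  by_contra hcon
  push Not at hcon
  have h1 : len S kk = 0 := by
    unfold len
    refine Finset.sum_eq_zero fun ρ hρ => ?_
    rw [hcon ρ hρ]
    simp
  unfold dep at h
  rw [h1, zero_mul] at h
  exact lt_irrefl _ h

private theorem par_abs {z : ℤ} (h : z ≠ 0) : (1 : ℝ) ≤ |(z : ℝ)| := by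
  have h1 : 1 ≤ |z| := Int.one_le_abs h
  have h2 : ((1 : ℤ) : ℝ) ≤ ((|z| : ℤ) : ℝ) := by exact_mod_cast h1
  rw [Int.cast_abs] at h2
  simpa using h2

private theorem par_len {S : Finset ℂ} {kk : ℂ → ℤ} (h : 0 < dep S kk) : 1 ≤ len S kk := by
  obtain ⟨ρ, hρ, hk⟩ := par_one h
  refine (par_abs hk).trans ?_
  exact Finset.single_le_sum (f := fun ρ => |(kk ρ : ℝ)|) (fun _ _ => abs_nonneg _) hρ

private theorem par_dep {S : Finset ℂ} {kk : ℂ → ℤ} (hS : ∀ ρ ∈ S, ρ.re < 1) (h : 0 < dep S kk) :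
    ∀ ρ ∈ S, kk ρ ≠ 0 → 1 - ρ.re ≤ dep S kk := by
  intro ρ hρ hk
  have h1 := par_abs hk
  have h2 : 0 ≤ 1 - ρ.re := by linarith [hS ρ hρ]
  have h3 : |(kk ρ : ℝ)| * (1 - ρ.re) ≤ ∑ ρ ∈ S, |(kk ρ : ℝ)| * (1 - ρ.re) :=
    Finset.single_le_sum (f := fun ρ => |(kk ρ : ℝ)| * (1 - ρ.re))
      (fun ρ' hρ' => mul_nonneg (abs_nonneg _) (by linarith [hS ρ' hρ'])) hρ
  have h4 : 1 - ρ.re ≤ |(kk ρ : ℝ)| * (1 - ρ.re) := le_mul_of_one_le_left h2 h1
  have h5 := par_len h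
  have h6 : 0 ≤ ∑ ρ ∈ S, |(kk ρ : ℝ)| * (1 - ρ.re) := by linarith
  unfold dep
  nlinarith

private theorem par_sq {S : Finset ℂ} {kk : ℂ → ℤ} {D : ℝ} (hS : ∀ ρ ∈ S, D ≤ 1 - ρ.re) :
    len S kk ^ 2 * D ≤ dep S kk := by
  have h1 : len S kk * D ≤ ∑ ρ ∈ S, |(kk ρ : ℝ)| * (1 - ρ.re) := by
    unfold len
    rw [Finset.sum_mul]
    exact Finset.sum_le_sum fun ρ hρ => mul_le_mul_of_nonneg_left (hS ρ hρ) (abs_nonneg _)
  unfold dep
  calc len S kk ^ 2 * D = len S kk * (len S kk * D) := by ring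
    _ ≤ _ := mul_le_mul_of_nonneg_left h1 (len_nonneg S kk)

private theorem par_log {T : ℝ} (hT : Real.exp (Real.exp 1) ≤ T) :
    3 ≤ T ∧ 2 ≤ Real.log T ∧ 1 ≤ Real.log (Real.log T) ∧ Real.log (T + 3) ≤ 2 * Real.log T ∧
      1 + Real.log (Real.log (T + 3)) ≤ 3 * Real.log (Real.log T) := by
  have e1 : (2 : ℝ) ≤ Real.exp 1 := by
    have := Real.add_one_le_exp (1 : ℝ)
    linarith
  have e2 : Real.exp 1 + 1 ≤ Real.exp (Real.exp 1) := Real.add_one_le_exp _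
  have hT3 : 3 ≤ T := by linarith
  have hl : Real.exp 1 ≤ Real.log T := by
    rw [Real.le_log_iff_exp_le (by linarith)]
    exact hT
  have hL1 : 1 ≤ Real.log (Real.log T) := by
    rw [Real.le_log_iff_exp_le (by linarith)]
    exact hl
  have h1 : Real.log (T + 3) ≤ 2 * Real.log T := by
    have := Real.log_le_log (by linarith : 0 < T + 3) (by nlinarith : T + 3 ≤ T ^ 2)
    rw [Real.log_pow] at this
    push_cast at this
    exact this
  have h2 : 0 < Real.log (T + 3) := Real.log_pos (by linarith)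
  have h3 := Real.log_le_log h2 h1
  rw [Real.log_mul (by norm_num) (by linarith)] at h3
  have h4 : Real.log 2 ≤ 1 := by linarith [Real.log_two_lt_d9]
  exact ⟨hT3, by linarith, hL1, h1, by linarith⟩

private theorem par_rpow {x y Z : ℝ} (hx : 0 ≤ x) (hy : 0 ≤ y) (hxZ : x ≤ Z) (hyZ : y ≤ Z) :
    x ^ (2 / 3 : ℝ) * y ^ (1 / 3 : ℝ) ≤ Z := by
  have hZ : 0 ≤ Z := hx.trans hxZ
  calc x ^ (2 / 3 : ℝ) * y ^ (1 / 3 : ℝ) ≤ Z ^ (2 / 3 : ℝ) * Z ^ (1 / 3 : ℝ) :=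
        mul_le_mul (Real.rpow_le_rpow hx hxZ (by norm_num)) (Real.rpow_le_rpow hy hyZ (by norm_num))
          (Real.rpow_nonneg hy _) (Real.rpow_nonneg hZ _)
    _ = Z := by
        rcases hZ.eq_or_lt with h | h
        · rw [← h]
          rw [Real.zero_rpow (by norm_num)]
          simp
        · rw [← Real.rpow_add h]
          norm_num

private theorem par_vk {T : ℝ} (hT : Real.exp (Real.exp 1) ≤ T) :
    vklam T ≤ (2 * Real.log T) ^ (2 / 3 : ℝ) * (3 * Real.log (Real.log T)) ^ (1 / 3 : ℝ) := by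
  obtain ⟨h1, h2, h3, h4, h5⟩ := par_log hT
  have h6 : 1 ≤ Real.log (T + 3) := by
    have := Real.log_le_log (by linarith : 0 < T) (by linarith : T ≤ T + 3)
    linarith
  have h7 : 0 ≤ Real.log (Real.log (T + 3)) := Real.log_nonneg h6
  unfold vklam
  gcongr

private theorem par_vk1 {T : ℝ} (hT : Real.exp (Real.exp 1) ≤ T) : vklam T ≤ 3 * Real.log T := by
  obtain ⟨h1, h2, h3, h4, h5⟩ := par_log hT
  have h6 : Real.log (Real.log T) ≤ Real.log T := by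
    have := Real.log_le_sub_one_of_pos (by linarith : 0 < Real.log T)
    linarith
  exact (par_vk hT).trans (par_rpow (by linarith) (by linarith) (by linarith) (by linarith))

private theorem par_vk2 {r T : ℝ} (hr : 0 < r) (hT : Real.exp (Real.exp 1) ≤ T) :
    r * vklam T ≤ 3 * (2 + r ^ (3 / 2 : ℝ) * Real.log T + Real.log (Real.log T)) := by
  obtain ⟨h1, h2, h3, h4, h5⟩ := par_log hT
  have hrp : 0 ≤ r ^ (3 / 2 : ℝ) := Real.rpow_nonneg hr.le _
  have h6 : r = (r ^ (3 / 2 : ℝ)) ^ (2 / 3 : ℝ) := by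
    rw [← Real.rpow_mul hr.le]
    norm_num
  have h7 : r * vklam T ≤ r * ((2 * Real.log T) ^ (2 / 3 : ℝ) *
      (3 * Real.log (Real.log T)) ^ (1 / 3 : ℝ)) := mul_le_mul_of_nonneg_left (par_vk hT) hr.le
  have h8 : r * ((2 * Real.log T) ^ (2 / 3 : ℝ) * (3 * Real.log (Real.log T)) ^ (1 / 3 : ℝ)) =
      (r ^ (3 / 2 : ℝ) * (2 * Real.log T)) ^ (2 / 3 : ℝ) *
        (3 * Real.log (Real.log T)) ^ (1 / 3 : ℝ) := by
    rw [Real.mul_rpow hrp (by linarith), ← h6]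
    ring
  rw [h8] at h7
  refine h7.trans (par_rpow (by positivity) (by linarith) ?_ ?_)
  · have : 0 ≤ r ^ (3 / 2 : ℝ) * Real.log T := mul_nonneg hrp (by linarith)
    nlinarith
  · have : 0 ≤ r ^ (3 / 2 : ℝ) * Real.log T := mul_nonneg hrp (by linarith)
    linarith

private theorem par_X {r T : ℝ} (hr : 0 < r) (hr1 : r ≤ 1) (hT : Real.exp (Real.exp 1) ≤ T) :
    2 + r ^ (3 / 2 : ℝ) * Real.log T + Real.log (Real.log T) ≤ 6 * Real.sqrt T := by
  obtain ⟨h1, h2, h3, h4, h5⟩ := par_log hT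
  have h6 : Real.log (Real.log T) ≤ Real.log T := by
    have := Real.log_le_sub_one_of_pos (by linarith : 0 < Real.log T)
    linarith
  have h7 : r ^ (3 / 2 : ℝ) ≤ 1 := Real.rpow_le_one hr.le hr1 (by norm_num)
  have h8 : r ^ (3 / 2 : ℝ) * Real.log T ≤ Real.log T := mul_le_of_le_one_left (by linarith) h7
  have h9 : 1 ≤ Real.sqrt T := by
    rw [Real.one_le_sqrt]
    linarith
  have h10 : Real.log T ≤ 2 * Real.sqrt T - 2 := by
    have h11 := Real.log_le_sub_one_of_pos (by linarith : 0 < Real.sqrt T)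
    rw [Real.log_sqrt (by linarith)] at h11
    linarith
  linarith

private theorem par_gv {r1 cv r T Le : ℝ} (hr1 : 0 < r1) (hr1' : r1 ≤ 1) (hcv : 0 < cv) (hr : 0 < r)
    (hT : Real.exp (Real.exp 1) ≤ T) (hcr : cv ≤ r * vklam T) (hLe : Le + 1 ≤ T) {t : ℝ}
    (ht : |t| ≤ (Le + 1) * T) :
    gv (r1 * r) t ≤ (5 + Real.log (1 / r1) + |Real.log (3 / cv)|) *
      (2 + r ^ (3 / 2 : ℝ) * Real.log T + Real.log (Real.log T)) := by
  obtain ⟨hT3, hl0, hL1, _, _⟩ := par_log hT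
  set a : ℝ := r1 * r with ha_def
  have ha : 0 < a := mul_pos hr1 hr
  have har : a ≤ r := by
    rw [ha_def]
    nlinarith
  have hap : a ^ (3 / 2 : ℝ) ≤ r ^ (3 / 2 : ℝ) := Real.rpow_le_rpow ha.le har (by norm_num)
  have hrp : 0 ≤ r ^ (3 / 2 : ℝ) := Real.rpow_nonneg hr.le _
  have hap0 : 0 ≤ a ^ (3 / 2 : ℝ) := Real.rpow_nonneg ha.le _
  have ht0 := abs_nonneg t
  have htT : |t| ≤ T ^ 2 := by nlinarith
  have hlt0 : 0 ≤ Real.log (|t| + 2) := Real.log_nonneg (by linarith)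
  have hsq : |t| + 3 ≤ T ^ 3 := by nlinarith [mul_pos (by linarith : 0 < T) (by linarith : 0 < T)]
  have hl2 : Real.log (|t| + 3) ≤ 3 * Real.log T := by
    have := Real.log_le_log (by linarith) hsq
    rw [Real.log_pow] at this
    push_cast at this
    exact this
  have hl1 : Real.log (|t| + 2) ≤ 3 * Real.log T :=
    (Real.log_le_log (by linarith) (by linarith)).trans hl2
  have f1 : a ^ (3 / 2 : ℝ) * Real.log (|t| + 2) ≤ 3 * (r ^ (3 / 2 : ℝ) * Real.log T) := by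
    calc a ^ (3 / 2 : ℝ) * Real.log (|t| + 2) ≤ r ^ (3 / 2 : ℝ) * (3 * Real.log T) := by gcongr
      _ = _ := by ring
  have hl3 : 0 < Real.log (|t| + 3) := Real.log_pos (by linarith)
  have f2 : Real.log (Real.log (|t| + 3)) ≤ 3 * Real.log (Real.log T) := by
    have h1 := Real.log_le_log hl3 hl2
    rw [Real.log_mul (by norm_num) (by linarith)] at h1
    have h2 : Real.log 3 ≤ 2 := by
      have := Real.log_le_sub_one_of_pos (by norm_num : (0 : ℝ) < 3)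
      linarith
    linarith
  have f3 : Real.log (1 / a) ≤ Real.log (1 / r1) + |Real.log (3 / cv)| +
      Real.log (Real.log T) := by
    have h1 : 1 / r ≤ 3 / cv * Real.log T := by
      have h2 : r * vklam T ≤ r * (3 * Real.log T) := mul_le_mul_of_nonneg_left (par_vk1 hT) hr.le
      rw [div_le_iff₀ hr]
      calc (1 : ℝ) = cv / cv := (div_self hcv.ne').symm
        _ ≤ r * (3 * Real.log T) / cv := div_le_div_of_nonneg_right (hcr.trans h2) hcv.le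
        _ = _ := by ring
    have h3 : 1 / a = 1 / r1 * (1 / r) := by rw [ha_def]; field_simp
    rw [h3, Real.log_mul (by positivity) (by positivity)]
    have h4 := Real.log_le_log (by positivity) h1
    rw [Real.log_mul (by positivity) (by linarith)] at h4
    have h5 := le_abs_self (Real.log (3 / cv))
    linarith
  have hb1 : 0 ≤ Real.log (1 / r1) := Real.log_nonneg (by rw [le_div_iff₀ hr1]; linarith)
  have hb2 : 0 ≤ |Real.log (3 / cv)| := abs_nonneg _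
  have hX : 0 ≤ r ^ (3 / 2 : ℝ) * Real.log T := mul_nonneg hrp (by linarith)
  have hgv : gv a t = a ^ (3 / 2 : ℝ) * Real.log (|t| + 2) + Real.log (Real.log (|t| + 3)) +
      Real.log (1 / a) + 1 := rfl
  rw [hgv]
  generalize Real.log (1 / r1) = u at *
  generalize |Real.log (3 / cv)| = v at *
  generalize r ^ (3 / 2 : ℝ) * Real.log T = w at *
  generalize Real.log (Real.log T) = l at *
  nlinarith [mul_nonneg hb1 hX, mul_nonneg hb2 hX, mul_nonneg hb1 (by linarith : 0 ≤ l),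
    mul_nonneg hb2 (by linarith : 0 ≤ l)]

private theorem par_k0 {B X : ℝ} (hB : 1 ≤ B) (hX : Real.exp 1 ≤ X) :
    ∃ k0 : ℕ, B * X ^ 2 ≤ 2 ^ k0 ∧
      (k0 : ℝ) + 1 ≤ ((Real.log B + 2) / Real.log 2 + 2) * Real.log X := by
  have e1 : (2 : ℝ) ≤ Real.exp 1 := by
    have := Real.add_one_le_exp (1 : ℝ)
    linarith
  have hX0 : 0 < X := by linarith
  have hY : 1 ≤ B * X ^ 2 := by nlinarith
  have hlX : 1 ≤ Real.log X := by
    rw [Real.le_log_iff_exp_le hX0]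
    exact hX
  have hl2 : 0 < Real.log 2 := Real.log_pos (by norm_num)
  refine ⟨⌈Real.logb 2 (B * X ^ 2)⌉₊, ?_, ?_⟩
  · have h1 := Nat.le_ceil (Real.logb 2 (B * X ^ 2))
    rw [Real.logb_le_iff_le_rpow (by norm_num) (by linarith)] at h1
    rwa [Real.rpow_natCast] at h1
  · have h2 : 0 ≤ Real.logb 2 (B * X ^ 2) := Real.logb_nonneg (by norm_num) hY
    have h3 := Nat.ceil_lt_add_one h2
    have h4 : Real.logb 2 (B * X ^ 2) = (Real.log B + 2 * Real.log X) / Real.log 2 := by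
      rw [← Real.log_div_log, Real.log_mul (by linarith) (by positivity), Real.log_pow]
      push_cast
      ring
    rw [h4] at h3
    have h5 : (Real.log B + 2 * Real.log X) / Real.log 2 ≤
        (Real.log B + 2) / Real.log 2 * Real.log X := by
      rw [div_mul_eq_mul_div]
      apply div_le_div_of_nonneg_right _ hl2.le
      have := Real.log_nonneg hB
      nlinarith
    rw [h4]
    linarith

theorem par {r1 C1 : ℝ} (hr1 : 0 < r1) (hr1' : r1 ≤ 1) (hC1 : 1 ≤ C1) :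
    ∃ C C4 : ℝ, 1 ≤ C ∧ 1 ≤ C4 ∧ ∀ (r T : ℝ) (S : Finset ℂ) (kk : ℂ → ℤ), 0 < r → r ≤ 1 → C ≤ T →
      (∀ ρ ∈ S, riemannZeta ρ = 0 ∧ 0 < ρ.re ∧ |ρ.im| ≤ T) → 0 < dep S kk →
      dep S kk * Phi r T ≤ r →
      ∃ (Λ : ℝ) (k0 : ℕ), 1 ≤ Λ ∧ (∀ t : ℝ, |t| ≤ (len S kk + 1) * T → gv (r1 * r) t ≤ Λ) ∧
        C1 * len S kk ^ 2 * Λ ≤ 2 ^ k0 ∧ C1 * Λ ≤ 2 ^ k0 ∧ (k0 : ℝ) + 1 ≤ C4 * Phi r T ∧
        1 ≤ Phi r T ∧ (∀ ρ ∈ S, kk ρ ≠ 0 → 1 - ρ.re ≤ dep S kk) ∧ 1 ≤ len S kk := by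
  obtain ⟨cv, hcv, hvk⟩ := vk_all
  set C'' : ℝ := max 1 (3 / cv) with hC''
  have hC1'' : 1 ≤ C'' := le_max_left _ _
  have hC2'' : 3 / cv ≤ C'' := le_max_right _ _
  set C3 : ℝ := 5 + Real.log (1 / r1) + |Real.log (3 / cv)| with hC3
  have hb1 : 0 ≤ Real.log (1 / r1) := Real.log_nonneg (by rw [le_div_iff₀ hr1]; linarith)
  have hb2 : 0 ≤ |Real.log (3 / cv)| := abs_nonneg _
  have hC31 : 1 ≤ C3 := by linarith
  set B : ℝ := C1 * C'' * C3 with hB
  have hB0 : 1 ≤ C1 * C'' := by nlinarith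
  have hB1 : 1 ≤ B := by
    rw [hB]
    nlinarith
  have hlB := Real.log_nonneg hB1
  have hl2 : 0 < Real.log 2 := Real.log_pos (by norm_num)
  refine ⟨max (Real.exp (Real.exp 1)) ((6 * C'' + 1) ^ 2), (Real.log B + 2) / Real.log 2 + 2,
    ?_, ?_, ?_⟩
  · exact le_max_of_le_left (Real.one_le_exp (Real.exp_pos 1).le)
  · have : 0 ≤ (Real.log B + 2) / Real.log 2 := by positivity
    linarith
  intro r T S kk hr hr1'' hT hS hdep hdr
  have hT2 : Real.exp (Real.exp 1) ≤ T := (le_max_left _ _).trans hT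
  have hT4 : (6 * C'' + 1) ^ 2 ≤ T := (le_max_right _ _).trans hT
  obtain ⟨hT3, hl0, hL1, _, _⟩ := par_log hT2
  set X : ℝ := 2 + r ^ (3 / 2 : ℝ) * Real.log T + Real.log (Real.log T) with hX
  have hX0 : 0 ≤ r ^ (3 / 2 : ℝ) * Real.log T :=
    mul_nonneg (Real.rpow_nonneg hr.le _) (by linarith)
  have hX3 : 3 ≤ X := by linarith
  have hXe : Real.exp 1 ≤ X := by
    have := Real.exp_one_lt_d9
    linarith
  have hPhi : Phi r T = Real.log X := rfl
  have hP1 : 1 ≤ Phi r T := by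
    rw [hPhi, Real.le_log_iff_exp_le (by linarith)]
    exact hXe
  have hlen := par_len hdep
  have hre : ∀ ρ ∈ S, ρ.re < 1 := fun ρ hρ => re_lt_one (hS ρ hρ).1
  have hvT : 1 ≤ vklam T := vklam_ge (by linarith)
  have hD : ∀ ρ ∈ S, cv / vklam T ≤ 1 - ρ.re := by
    intro ρ hρ
    obtain ⟨s1, s2, s3⟩ := hS ρ hρ
    have h1 := hvk ρ s1 s2
    have h2 : (1 - ρ.re) * vklam |ρ.im| ≤ (1 - ρ.re) * vklam T :=
      mul_le_mul_of_nonneg_left (vklam_mono (abs_nonneg _) s3) (by linarith [hre ρ hρ])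
    rw [div_le_iff₀ (by linarith)]
    linarith
  have hdr1 : dep S kk ≤ r := by nlinarith
  have hsq : len S kk ^ 2 * cv ≤ r * vklam T := by
    have h1 := (par_sq (kk := kk) hD).trans hdr1
    rw [← mul_div_assoc, div_le_iff₀ (by linarith)] at h1
    exact h1
  have hlen2 : 1 ≤ len S kk ^ 2 := by nlinarith
  have hcr : cv ≤ r * vklam T := by nlinarith
  have hsqX : len S kk ^ 2 ≤ C'' * X := by
    have h1 := hsq.trans (par_vk2 hr hT2)
    have h2 : len S kk ^ 2 ≤ 3 / cv * X := by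
      rw [div_mul_eq_mul_div, le_div_iff₀ hcv]
      exact h1
    exact h2.trans (mul_le_mul_of_nonneg_right hC2'' (by linarith))
  have hlT : len S kk + 1 ≤ T := by
    have h1 : len S kk ≤ len S kk ^ 2 := by nlinarith
    have h2 := par_X hr hr1'' hT2
    have h3 : C'' * X ≤ C'' * (6 * Real.sqrt T) := mul_le_mul_of_nonneg_left h2 (by linarith)
    have h4 : 6 * C'' + 1 ≤ Real.sqrt T := Real.le_sqrt_of_sq_le hT4
    have h5 : Real.sqrt T * Real.sqrt T = T := Real.mul_self_sqrt (by linarith)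
    nlinarith
  obtain ⟨k0, hk1, hk2⟩ := par_k0 hB1 hXe
  refine ⟨C3 * X, k0, by nlinarith, ?_, ?_, ?_, ?_, hP1, par_dep hre hdep, hlen⟩
  · intro t ht
    exact par_gv hr1 hr1' hcv hr hT2 hcr hlT ht
  · refine le_trans ?_ hk1
    have h1 : 0 ≤ C1 * (C3 * X) := by positivity
    calc C1 * len S kk ^ 2 * (C3 * X) = C1 * (C3 * X) * len S kk ^ 2 := by ring
      _ ≤ C1 * (C3 * X) * (C'' * X) := mul_le_mul_of_nonneg_left hsqX h1
      _ = B * X ^ 2 := by rw [hB]; ring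
  · refine le_trans ?_ hk1
    have h1 : 0 ≤ C1 * (C3 * X) := by positivity
    calc C1 * (C3 * X) = C1 * (C3 * X) * 1 := by ring
      _ ≤ C1 * (C3 * X) * (C'' * X) := mul_le_mul_of_nonneg_left (by nlinarith) h1
      _ = B * X ^ 2 := by rw [hB]; ring
  · rw [hPhi]
    exact hk2

end Pool.Agent.H76.GS
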