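import Mathlib
import Pool.Agent.H76.GS.LossU
import Pool.Agent.H76.GS.Par
import Pool.Agent.H76.GS.PosK
import Pool.Agent.H76.GS.EvA

/-!
# CoreU: the averaged inequality at a combination of uncrowded zeros

PROOF.  `r1, C1` from `lossU`, `C, C4` from `par` (with `C1` there).  `a = r1 r`; from `hN`:
`1 ≤ num` (some `ρ` with `kk ρ ≠ 0` has `1 - Re ρ ≤ dep ≤ c r < r`, so `zc r (Im ρ) ≥ 1` by `zc_pos`, and
`len ≥ 1`; `dep ≤ dep num` has to be shown from this: first `dep Phi ≤ r` is needed for `par`: it is a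
hypothesis here), `x = 32 dep`, `q = 1 - x/a` (`x ≤ a/2` by `c` small), `K ≥ k0` with `q^K ≤ 1-q`.
`posK` for each `k`, times `(qa)^k`, summed:
`sg ∑ (qa)^k Re Dk t ≥ ∑ (qa)^k D0 - ∑ (qa)^k loss`.  `evA` with `R = D0`, `L = 0`, `e = 0`, `M = 0`:
`∑ (qa)^k D0 ≥ 1/x - (k0+1)/a - (2C1+2)/a`; `lossU` (3): `∑ (qa)^k loss ≤ dep/x² + C1 (k0+1) num/a`, and
`dep/x² = 1/(32 x)`, `C1 (k0+1) num/a ≤ C1 C4 Phi num/a ≤ 1/(16 x)` as `x num Phi = 32 dep num Phi ≤ 32 c r`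
(`c` small), the other terms likewise (`Phi, num ≥ 1`).  Result `≥ (3/4)/x`.  Give `a = r1 r`, `x = 32 dep`
explicitly so that the users can work with them.  About 170 lines.
-/

set_option autoImplicit false

open Complex

namespace Pool.Agent.H76.GS

open Pool.Agent.H76.CR Pool.Agent.H76.RP Pool.Agent.H52.RK

/-- the arithmetic at the end -/
private theorem cu_fin {a r r1 c C1 C4 P N d k : ℝ} (ha : a = r1 * r) (hr1 : 0 < r1) (hr : 0 < r)
    (hC1 : 1 ≤ C1) (hC4 : 1 ≤ C4) (hc : c = r1 / (1024 * C1 * C4)) (hd : 0 < d) (hP : 1 ≤ P) (hN : 0 ≤ N)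
    (h1 : d * P ≤ c * r) (h2 : d * N * P ≤ c * r) (hk : k + 1 ≤ C4 * P) :
    3 / 4 / (32 * d) ≤ 1 / (32 * d) - (k + 1) / a - (2 * C1 + 2) / a - d / (32 * d) ^ 2 -
      C1 * (k + 1) * N / a := by
  have ha0 : 0 < a := by rw [ha]; positivity
  have hcr : c * r * (C1 * C4) = a / 1024 := by
    rw [hc, ha]
    field_simp
  have hC1p : 0 < C1 := by linarith
  have hC4p : 0 < C4 := by linarith
  have key : ∀ t m : ℝ, d * t ≤ m * (c * r * (C1 * C4)) → t / a ≤ m / 1024 * (1 / d) := by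
    intro t m h
    rw [hcr] at h
    rw [mul_one_div, div_le_div_iff₀ ha0 hd]
    nlinarith
  have hcr0 : 0 < c * r := lt_of_lt_of_le (by positivity) h1
  have t1 : (k + 1) / a ≤ 1 / 1024 * (1 / d) := by
    apply key
    have e1 : d * (k + 1) ≤ C4 * (d * P) := by nlinarith
    have e2 : C4 * (d * P) ≤ C4 * (c * r) := mul_le_mul_of_nonneg_left h1 hC4p.le
    have e3 : C4 * (c * r) ≤ 1 * (c * r * (C1 * C4)) := by
      have : 0 ≤ C4 * (c * r) := by positivity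
      nlinarith
    linarith
  have t2 : (2 * C1 + 2) / a ≤ 4 / 1024 * (1 / d) := by
    apply key
    have e1 : d * (2 * C1 + 2) ≤ 4 * C1 * (d * P) := by
      have e0 : d * 1 ≤ d * P := mul_le_mul_of_nonneg_left hP hd.le
      have e00 : d * (2 * C1 + 2) ≤ 4 * C1 * (d * 1) := by nlinarith
      have : 4 * C1 * (d * 1) ≤ 4 * C1 * (d * P) := mul_le_mul_of_nonneg_left e0 (by positivity)
      linarith
    have e2 : 4 * C1 * (d * P) ≤ 4 * C1 * (c * r) := mul_le_mul_of_nonneg_left h1 (by positivity)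
    have e3 : 4 * C1 * (c * r) ≤ 4 * (c * r * (C1 * C4)) := by
      have : 0 ≤ C1 * (c * r) := by positivity
      nlinarith
    linarith
  have t3 : C1 * (k + 1) * N / a ≤ 1 / 1024 * (1 / d) := by
    apply key
    have e1 : d * (C1 * (k + 1) * N) ≤ C1 * C4 * (d * N * P) := by
      have e0 : 0 ≤ C1 * (d * N) := by positivity
      have := mul_le_mul_of_nonneg_left hk e0
      linarith
    have e2 : C1 * C4 * (d * N * P) ≤ C1 * C4 * (c * r) := mul_le_mul_of_nonneg_left h2 (by positivity)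
    linarith
  have t4 : d / (32 * d) ^ 2 = 1 / 1024 * (1 / d) := by
    field_simp
    norm_num
  have t5 : 1 / (32 * d) = 32 / 1024 * (1 / d) := by
    field_simp
    norm_num
  have t6 : 3 / 4 / (32 * d) = 24 / 1024 * (1 / d) := by
    field_simp
    norm_num
  have hd1 : 0 < 1 / d := by positivity
  rw [t4, t5, t6]
  linarith

/-- the combination is at most the length times the height -/
private theorem cu_comb {S : Finset ℂ} {kk : ℂ → ℤ} {T : ℝ} (h : ∀ ρ ∈ S, |ρ.im| ≤ T) :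
    |comb S kk| ≤ len S kk * T := by
  unfold comb len
  rw [Finset.sum_mul]
  refine (Finset.abs_sum_le_sum_abs _ _).trans (Finset.sum_le_sum fun ρ hρ => ?_)
  rw [abs_mul]
  exact mul_le_mul_of_nonneg_left (h ρ hρ) (abs_nonneg _)

/-- the averaged positivity -/
private theorem cu_pos {a q : ℝ} (ha : 0 < a) (hq : 0 < q) (k0 K : ℕ) (S : Finset ℂ) (kk : ℂ → ℤ) :
    ∑ k ∈ Finset.Ico k0 K, (q * a) ^ k * (∑' n, dco a k n) -
      sg S kk * ∑ k ∈ Finset.Ico k0 K, (q * a) ^ k * (Dk a k (comb S kk)).re ≤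
      ∑ k ∈ Finset.Ico k0 K, (q * a) ^ k * loss (dco a k) S kk := by
  rw [Finset.mul_sum, ← Finset.sum_sub_distrib]
  refine Finset.sum_le_sum fun k _ => ?_
  have h1 := posK (dco a k) (dco_nonneg a k) (by simp [dco]) (summable_dco ha k) S kk
  rw [← Dk_Ds] at h1
  have h2 : 0 ≤ (q * a) ^ k := by positivity
  have h3 := mul_le_mul_of_nonneg_left h1 h2
  linarith

theorem coreU : ∃ r1 C1 c C C4 : ℝ, 0 < r1 ∧ r1 ≤ 1 / 16 ∧ 1 ≤ C1 ∧ 0 < c ∧ c ≤ 1 ∧ 1 ≤ C ∧ 1 ≤ C4 ∧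
    (∀ (a t : ℝ) (k : ℕ), 0 < a → a ≤ r1 → |t| ≤ 2 * a →
      ‖(a : ℂ) ^ (k + 1) * Dk a k t - ((a : ℂ) / (a + t * I)) ^ (k + 1)‖ ≤ C1 / 2 ^ k) ∧
    ∀ (r T : ℝ) (S : Finset ℂ) (kk : ℂ → ℤ), 0 < r → r ≤ 1 →
      C ≤ T → (∀ ρ ∈ S, riemannZeta ρ = 0 ∧ 0 < ρ.re ∧ 1 ≤ |ρ.im| ∧ |ρ.im| ≤ T) →
      0 < dep S kk → dep S kk * Phi r T ≤ c * r → dep S kk * num r S kk * Phi r T ≤ c * r →
      ∃ (q Λ : ℝ) (k0 K : ℕ), 0 < q ∧ q < 1 ∧ (1 - q) * (r1 * r) = 32 * dep S kk ∧ k0 ≤ K ∧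
        q ^ K ≤ 1 - q ∧ 1 ≤ Λ ∧ Λ ≤ 2 ^ k0 ∧ (k0 : ℝ) + 1 ≤ C4 * Phi r T ∧ 1 ≤ Phi r T ∧
        gv (r1 * r) (comb S kk) ≤ Λ ∧
        3 / 4 / (32 * dep S kk) ≤
          sg S kk * ∑ k ∈ Finset.Ico k0 K, (q * (r1 * r)) ^ k * (Dk (r1 * r) k (comb S kk)).re := by
  obtain ⟨r1, C1, hr1, hr1', hC1, hA, hB, hL⟩ := lossU
  obtain ⟨C, C4, hC, hC4, hpar⟩ := par (r1 := r1) (C1 := C1) hr1 (by linarith) hC1
  have hC1p : 0 < C1 := by linarith
  have hC4p : 0 < C4 := by linarith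
  obtain ⟨c, hc⟩ : ∃ c, c = r1 / (1024 * C1 * C4) := ⟨_, rfl⟩
  have hc0 : 0 < c := by rw [hc]; positivity
  have hCC : 1 ≤ C1 * C4 := by nlinarith
  have hc64 : c ≤ r1 / 1024 := by
    rw [hc]
    apply div_le_div_of_nonneg_left hr1.le (by norm_num)
    nlinarith
  have hc1 : c ≤ 1 := by linarith
  refine ⟨r1, C1, c, C, C4, hr1, hr1', hC1, hc0, hc1, hC, hC4, hA, ?_⟩
  intro r T S kk hr hr' hT hS hdep h1 h2
  have hcr : c * r ≤ r := by nlinarith
  obtain ⟨Λ, k0, hΛ, hgv, -, hΛk, hk0, hPhi, hdp, hlen⟩ := hpar r T S kk hr hr' hT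
    (fun ρ hρ => ⟨(hS ρ hρ).1, (hS ρ hρ).2.1, (hS ρ hρ).2.2.2⟩) hdep (h1.trans hcr)
  have hT1 : 1 ≤ T := hC.trans hT
  obtain ⟨a, ha⟩ : ∃ a, a = r1 * r := ⟨_, rfl⟩
  have ha0 : 0 < a := by rw [ha]; positivity
  have har1 : a ≤ r1 := by rw [ha]; nlinarith
  have h3a : 3 * a ≤ r := by rw [ha]; nlinarith
  have hdc : dep S kk ≤ c * r := by
    have : dep S kk * 1 ≤ dep S kk * Phi r T := mul_le_mul_of_nonneg_left hPhi hdep.le
    linarith
  have hda : dep S kk ≤ a / 1024 := by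
    have : c * r ≤ r1 / 1024 * r := mul_le_mul_of_nonneg_right hc64 hr.le
    rw [ha]
    linarith
  -- the ratio
  obtain ⟨q, hq⟩ : ∃ q, q = 1 - 32 * dep S kk / a := ⟨_, rfl⟩
  have hxa : 32 * dep S kk / a ≤ 1 / 2 := by
    rw [div_le_iff₀ ha0]
    linarith
  have hxa0 : 0 < 32 * dep S kk / a := by positivity
  have hq0 : 0 < q := by rw [hq]; linarith
  have hq1 : q < 1 := by rw [hq]; linarith
  have hqa : (1 - q) * a = 32 * dep S kk := by
    rw [hq]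
    field_simp
    ring
  obtain ⟨n, hn⟩ := exists_pow_lt_of_lt_one (show (0 : ℝ) < 1 - q by linarith) hq1
  obtain ⟨K, hK⟩ : ∃ K, K = max k0 n := ⟨_, rfl⟩
  have hKk : k0 ≤ K := by rw [hK]; exact le_max_left _ _
  have hKq : q ^ K ≤ 1 - q := by
    have : q ^ K ≤ q ^ n := pow_le_pow_of_le_one hq0.le hq1.le (by rw [hK]; exact le_max_right _ _)
    linarith
  have hΛ2 : Λ ≤ 2 ^ k0 := by
    have : 1 * Λ ≤ C1 * Λ := mul_le_mul_of_nonneg_right hC1 (by linarith)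
    linarith
  have hlen0 : 0 ≤ len S kk := len_nonneg S kk
  refine ⟨q, Λ, k0, K, hq0, hq1, ?_, hKk, hKq, hΛ, hΛ2, hk0, hPhi, ?_, ?_⟩
  · rw [← ha]
    exact hqa
  · apply hgv
    refine (cu_comb (kk := kk) fun ρ hρ => (hS ρ hρ).2.2.2).trans ?_
    nlinarith
  · rw [← ha]
    have hloss := hL a q r Λ k0 K S kk ha0 har1 h3a hr' hq0 hq1 hKk hKq hΛ2 (by
      intro ρ hρ
      refine ⟨(hS ρ hρ).1, (hS ρ hρ).2.2.1, fun hk => ?_, ?_⟩
      · have := hdp ρ hρ hk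
        linarith
      · rw [ha]
        apply hgv
        have := (hS ρ hρ).2.2.2
        nlinarith)
    have hev := evA (a := a) (q := q) (C := C1) (M := 0) (e := 0) (k0 := k0) (K := K)
      (D0 := fun k => ∑' n, dco a k n) (L := fun _ => 0) (R := fun k => ∑' n, dco a k n)
      ha0 hq0 hq1 hKk hKq (by linarith) le_rfl (by positivity) le_rfl
      (fun k => hB a k ha0 har1) (fun k => by simp) (fun k => by simp)
    have hpos := cu_pos ha0 hq0 k0 K S kk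
    have hN : 0 ≤ num r S kk := by
      unfold num
      exact mul_nonneg hlen0 (Finset.sum_nonneg fun ρ _ => by positivity)
    have hfin := cu_fin (a := a) (r := r) (r1 := r1) (c := c) (C1 := C1) (C4 := C4) (P := Phi r T)
      (N := num r S kk) (d := dep S kk) (k := (k0 : ℝ)) ha hr1 hr hC1 hC4 hc hdep hPhi hN h1 h2 hk0
    rw [hqa] at hloss hev
    rw [zero_div, sub_zero] at hev
    linarith

end Pool.Agent.H76.GS
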