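import Mathlib
import Pool.Agent.H76.GS.Defic
import Pool.Agent.H76.GS.Par
import Pool.Agent.H76.GS.PosK

/-!
# DHM: Deuring-Heilbronn around the combinations

PROOF.  `r1, C1` from `defic`, `C2` from `locG_pt`, `C, C4` from `par` (with `64 (C1 + C2)` in place of
`C1`), `a = r1 r`, `δ0 = 1 - Re ρ0 > 0` (`re_lt_one`).  `V = c r/(dep Phi)`, `x = log V`, `ℓ = Phi r T`.
If `x ≤ 0` the left side is `≤ 0`.  Let `x > 0` (so `dep Phi ≤ c r ≤ r`): `Λ, k0` from `par`.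
If `δ0 ≥ a`: the left side is `≤ c r ≤ a`.  Let `δ0 < a`.
`k = k0 + m`, `m = ⌈4 x⌉₊`: `2^m ≥ V²`, `k + 1 ≤ C4 ℓ + 4x + 1`.
`η := a^(k+1) loss ≤ (k+1) dep/a + len² C1 Λ/2^k ≤ (C4 ℓ + 4x + 1) c/(r1 V ℓ) + 1/(64 V²)
≤ (c (C4+5)/r1) (1 + x)/V + 1/(64 V²) ≤ 1/(50 √V)` for `c` small (`1 + x ≤ 2 √V`).
`locG_pt` at `ρ0` (only zero of `disc (3a)`, order 1: `zc r (Im ρ0) ≤ 1`, private lemma `mb_uniq` of
`H52/RK/MainBG.lean`, copy): `‖a^(k+1) Dk(Im ρ0) + p‖ ≤ C2 Λ/2^(k+1) ≤ 1/(64 V²)`, `p = (a/(a+δ0))^(k+1)`;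
at `Im ρ0 + comb` (`disc (3a)` empty, `mb_empty`; `2a ≤ r ≤ |..|`; `|..| ≤ (len+1) T`):
`a^(k+1) ‖Dk(..)‖ ≤ 1/(64 V²)`.  `vecK` times `a^(2k+2)`: `‖X0 - sg X3‖² ≤ 2 x0 η`, `x0 ≤ 5/4`.  So
`p ≤ 1/(32 V²) + √(5η/2) ≤ V^(-1/4)` and, as `p ≥ exp(-(k+1) δ0/a)`: `(k+1) δ0/a ≥ x/4`, so
`δ0 ≥ a x/(4 (C4 ℓ + 4x + 1)) ≥ c r min(1, x/ℓ)`.  (Compare `b_level`, `b_err`, `b_key`, `b_end` of
`H52/RK/MainBG.lean`.)  If `dep = 0` use `Real.log (c r/0) = 0`: excluded here by `0 < dep`.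
About 250 lines.
-/

set_option autoImplicit false

open Complex

namespace Pool.Agent.H76.GS

open Pool.Agent.H76.CR Pool.Agent.H76.RP Pool.Agent.H52.RK

private theorem dh_uniq {a r : ℝ} (hr : r ≤ 1) (har : 3 * a ≤ r) {ρ : ℂ} (hρ : riemannZeta ρ = 0)
    (hd : 1 - ρ.re < r) (hz : zc r ρ.im ≤ 1) :
    analyticOrderNatAt riemannZeta ρ = 1 ∧ ∀ u ∈ disc (3 * a) ρ.im, u = ρ := by
  have h1 : ρ.re < 1 := re_lt_one hρ
  have hmem : ρ ∈ disc r ρ.im := by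
    refine ⟨hρ, ?_⟩
    have e : ρ - (1 + ρ.im * I) = ((ρ.re - 1 : ℝ) : ℂ) := by
      apply Complex.ext <;> simp
    rw [e, Complex.norm_real, Real.norm_eq_abs, abs_of_neg (by linarith)]
    linarith
  have h2 := ord_pos hρ
  refine ⟨?_, ?_⟩
  · have h3 := zc_ge hr ρ.im {ρ} (by
      intro u hu
      rw [Finset.mem_singleton] at hu
      rw [hu]
      exact hmem)
    rw [Finset.sum_singleton] at h3
    omega
  · intro u hu
    by_contra hne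
    have hu' : u ∈ disc r ρ.im := ⟨hu.1, lt_of_lt_of_le hu.2 har⟩
    have h3 := zc_ge hr ρ.im {u, ρ} (by
      intro z hz
      rw [Finset.mem_insert, Finset.mem_singleton] at hz
      rcases hz with h | h
      · rw [h]; exact hu'
      · rw [h]; exact hmem)
    rw [Finset.sum_pair hne] at h3
    have h4 := ord_pos hu.1
    omega

private theorem dh_empty {a r t : ℝ} (hr : r ≤ 1) (har : 3 * a ≤ r) (hz : zc r t = 0) :
    disc (3 * a) t = ∅ := by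
  rw [Set.eq_empty_iff_forall_notMem]
  intro u hu
  have h3 := zc_ge hr t {u} (by
    intro z hz
    rw [Finset.mem_singleton] at hz
    rw [hz]
    exact ⟨hu.1, lt_of_lt_of_le hu.2 har⟩)
  rw [Finset.sum_singleton] at h3
  have h4 := ord_pos hu.1
  omega

private theorem dh_comb {S : Finset ℂ} {kk : ℂ → ℤ} {T : ℝ} (h : ∀ ρ ∈ S, |ρ.im| ≤ T) :
    |comb S kk| ≤ len S kk * T := by
  unfold comb len
  rw [Finset.sum_mul]
  refine (Finset.abs_sum_le_sum_abs _ _).trans (Finset.sum_le_sum fun ρ hρ => ?_)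
  rw [abs_mul]
  exact mul_le_mul_of_nonneg_left (h ρ hρ) (abs_nonneg _)

/-- the numerical end of the vector inequality -/
private theorem dh_num {p E η x0 sgn : ℝ} {X0 X3 : ℂ} (hs : sgn = 1 ∨ sgn = -1)
    (h0 : ‖X0 + (p : ℂ)‖ ≤ E) (h3 : ‖X3‖ ≤ E)
    (hv : ‖X0 - (sgn : ℂ) * X3‖ ^ 2 ≤ 2 * x0 * η) (hx0 : x0 ≤ 5 / 4) (hη : 0 ≤ η) (hp : 0 ≤ p) :
    p ^ 2 ≤ 8 * E ^ 2 + 5 * η := by
  have hsn : ‖(sgn : ℂ) * X3‖ = ‖X3‖ := by
    rw [norm_mul, Complex.norm_real]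
    rcases hs with h | h <;> rw [h] <;> simp
  have hE : 0 ≤ E := (norm_nonneg _).trans h3
  have h1 : p ≤ 2 * E + ‖X0 - (sgn : ℂ) * X3‖ := by
    have e : ((p : ℝ) : ℂ) = (X0 + (p : ℂ)) - (X0 - (sgn : ℂ) * X3) - (sgn : ℂ) * X3 := by ring
    have h8 : ‖((p : ℝ) : ℂ)‖ ≤ ‖X0 + (p : ℂ)‖ + ‖X0 - (sgn : ℂ) * X3‖ + ‖(sgn : ℂ) * X3‖ := by
      calc ‖((p : ℝ) : ℂ)‖ = ‖(X0 + (p : ℂ)) - (X0 - (sgn : ℂ) * X3) - (sgn : ℂ) * X3‖ := by rw [← e]
        _ ≤ ‖(X0 + (p : ℂ)) - (X0 - (sgn : ℂ) * X3)‖ + ‖(sgn : ℂ) * X3‖ := norm_sub_le _ _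
        _ ≤ _ := by
          have := norm_sub_le (X0 + (p : ℂ)) (X0 - (sgn : ℂ) * X3)
          linarith
    rw [Complex.norm_real, Real.norm_eq_abs, abs_of_nonneg hp, hsn] at h8
    linarith
  obtain ⟨N, hN⟩ : ∃ N : ℝ, N = ‖X0 - (sgn : ℂ) * X3‖ := ⟨_, rfl⟩
  have hN0 : 0 ≤ N := by rw [hN]; exact norm_nonneg _
  rw [← hN] at h1 hv
  have h2 : p ^ 2 ≤ (2 * E + N) ^ 2 := pow_le_pow_left₀ hp h1 2
  have h4 : 2 * x0 * η ≤ 5 / 2 * η := by nlinarith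
  nlinarith [sq_nonneg (2 * E - N)]

private theorem dh_level {V x : ℝ} (hV : 1 < V) (hx : Real.log V = x) (hx0 : 0 < x) :
    ∃ m : ℕ, V ^ 2 ≤ (2 : ℝ) ^ m ∧ (m : ℝ) ≤ 4 * x + 1 := by
  refine ⟨⌈4 * x⌉₊, ?_, ?_⟩
  · have hk1 : 4 * x ≤ (⌈4 * x⌉₊ : ℝ) := Nat.le_ceil _
    have h1 : Real.log (V ^ 2) ≤ Real.log ((2 : ℝ) ^ ⌈4 * x⌉₊) := by
      rw [Real.log_pow, Real.log_pow, hx]
      have h2 := Real.log_two_gt_d9
      have h3 : (⌈4 * x⌉₊ : ℝ) * 0.6 ≤ ⌈4 * x⌉₊ * Real.log 2 :=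
        mul_le_mul_of_nonneg_left (by linarith) (Nat.cast_nonneg _)
      push_cast
      linarith
    exact (Real.log_le_log_iff (by positivity) (by positivity)).1 h1
  · exact (Nat.ceil_lt_add_one (by linarith)).le

/-- the vector inequality -/
private theorem dh_key {a Λ E δ : ℝ} {k : ℕ} (ha0 : 0 < a) (S : Finset ℂ) (kk : ℂ → ℤ) {t0 η : ℝ}
    (hd : 0 < δ) (hη : a ^ (k + 1) * loss (dco a k) S kk ≤ η) (hη0 : 0 ≤ η)
    (hx0 : |a ^ (k + 1) * (∑' n : ℕ, dco a k n) - 1| ≤ 1 / 64)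
    (h1 : ‖(a : ℂ) ^ (k + 1) * Dk a k t0 + (((a / (a + δ)) ^ (k + 1) : ℝ) : ℂ)‖ ≤ E)
    (h3 : a ^ (k + 1) * ‖Dk a k (t0 + comb S kk)‖ ≤ E) :
    Real.exp (-(2 * ((k + 1) * δ / a))) ≤ 8 * E ^ 2 + 5 * η := by
  have hak : 0 < a ^ (k + 1) := by positivity
  have hd00 : dco a k 0 = 0 := by unfold dco; simp
  have hvec := vecK (dco a k) (dco_nonneg a k) hd00 (summable_dco ha0 k) S kk t0
  rw [← Dk_Ds, ← Dk_Ds] at hvec
  have hD0 : 0 ≤ ∑' n : ℕ, dco a k n := tsum_nonneg (dco_nonneg a k)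
  have hx1 := (abs_le.1 hx0).2
  have key : ((a / (a + δ)) ^ (k + 1)) ^ 2 ≤ 8 * E ^ 2 + 5 * η := by
    refine dh_num (X0 := (a : ℂ) ^ (k + 1) * Dk a k t0)
      (X3 := (a : ℂ) ^ (k + 1) * Dk a k (t0 + comb S kk)) (x0 := a ^ (k + 1) * ∑' n : ℕ, dco a k n)
      (sgn := sg S kk) (sg_sq S kk) h1 ?_ ?_ (by linarith) hη0 (by positivity)
    · rw [norm_mul, norm_pow, Complex.norm_real, Real.norm_eq_abs, abs_of_pos ha0]
      exact h3
    · have e1 : (a : ℂ) ^ (k + 1) * Dk a k t0 - (sg S kk : ℂ) * ((a : ℂ) ^ (k + 1) *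
          Dk a k (t0 + comb S kk)) =
          (a : ℂ) ^ (k + 1) * (Dk a k t0 - (sg S kk : ℂ) * Dk a k (t0 + comb S kk)) := by ring
      rw [e1, norm_mul, norm_pow, Complex.norm_real, Real.norm_eq_abs, abs_of_pos ha0, mul_pow]
      calc (a ^ (k + 1)) ^ 2 * ‖Dk a k t0 - (sg S kk : ℂ) * Dk a k (t0 + comb S kk)‖ ^ 2
          ≤ (a ^ (k + 1)) ^ 2 * (2 * (∑' n : ℕ, dco a k n) * loss (dco a k) S kk) :=
            mul_le_mul_of_nonneg_left hvec (by positivity)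
        _ = 2 * (a ^ (k + 1) * ∑' n : ℕ, dco a k n) * (a ^ (k + 1) * loss (dco a k) S kk) := by ring
        _ ≤ 2 * (a ^ (k + 1) * ∑' n : ℕ, dco a k n) * η :=
            mul_le_mul_of_nonneg_left hη (by positivity)
  refine le_trans ?_ key
  have h1 : Real.exp (-(δ / a)) ≤ a / (a + δ) := by
    rw [Real.exp_neg, inv_le_comm₀ (Real.exp_pos _) (by positivity), inv_div]
    have h2 := Real.add_one_le_exp (δ / a)
    have h3 : (a + δ) / a = δ / a + 1 := by field_simp; ring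
    linarith
  have h4 : Real.exp (-(2 * ((k + 1) * δ / a))) = (Real.exp (-(δ / a)) ^ (k + 1)) ^ 2 := by
    rw [← Real.exp_nat_mul, ← Real.exp_nat_mul]
    congr 1
    push_cast
    ring
  rw [h4]
  apply pow_le_pow_left₀ (by positivity)
  exact pow_le_pow_left₀ (Real.exp_pos _).le h1 _

/-- the conclusion -/
private theorem dh_end {a K ℓ x δ : ℝ} {k : ℕ} (ha0 : 0 < a) (hK : 1 ≤ K) (hℓ1 : 1 ≤ ℓ)
    (hx0 : 0 < x) (hd : 0 < δ) (hkx : (k : ℝ) + 1 ≤ K * (ℓ + x))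
    (hexp : Real.exp (-(2 * ((k + 1) * δ / a))) ≤ Real.exp (-(x / 2))) :
    a / (100 * K) * min 1 (x / ℓ) ≤ δ := by
  have hlog : x / 2 ≤ 2 * ((k + 1) * δ / a) := by
    have h1 := Real.exp_le_exp.1 hexp
    linarith
  have hfin : x / (4 * (K * (ℓ + x))) * a ≤ δ := by
    have h1 : x / 4 * a ≤ (k + 1) * δ := by
      have h2 : x / 4 ≤ (k + 1) * δ / a := by linarith
      rwa [le_div_iff₀ ha0] at h2
    have h3 : (k + 1) * δ ≤ K * (ℓ + x) * δ := mul_le_mul_of_nonneg_right hkx hd.le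
    have h4 : x / (4 * (K * (ℓ + x))) * a = (x / 4 * a) / (K * (ℓ + x)) := by
      field_simp
    rw [h4, div_le_iff₀ (by positivity)]
    linarith
  refine le_trans ?_ hfin
  have hm : min 1 (x / ℓ) ≤ 2 * (x / (ℓ + x)) := by
    rcases le_total x ℓ with h | h
    · refine (min_le_right _ _).trans ?_
      rw [div_le_iff₀ (by linarith)]
      have : 2 * (x / (ℓ + x)) * ℓ = x * (2 * ℓ / (ℓ + x)) := by ring
      rw [this]
      have h2 : 1 ≤ 2 * ℓ / (ℓ + x) := by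
        rw [le_div_iff₀ (by linarith)]
        linarith
      nlinarith
    · refine (min_le_left _ _).trans ?_
      have h2 : 1 / 2 ≤ x / (ℓ + x) := by
        rw [le_div_iff₀ (by linarith)]
        linarith
      linarith
  have h7 : 0 ≤ x / (ℓ + x) := by positivity
  have h8 : 0 ≤ a / K * (x / (ℓ + x)) := by positivity
  calc a / (100 * K) * min 1 (x / ℓ) ≤ a / (100 * K) * (2 * (x / (ℓ + x))) :=
        mul_le_mul_of_nonneg_left hm (by positivity)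
    _ = a / K * (x / (ℓ + x)) / 50 := by
        field_simp
        ring
    _ ≤ a / K * (x / (ℓ + x)) / 4 := by linarith
    _ = x / (4 * (K * (ℓ + x))) * a := by
        field_simp

/-- the errors -/
private theorem dh_err {x V s E η : ℝ} (hs : s = Real.exp (x / 2)) (hx0 : 0 < x) (hV : V = s ^ 2)
    (hE0 : 0 ≤ E) (hE : E ≤ 1 / (128 * V ^ 2)) (hη : η ≤ (1 + x) / (100 * V) + 1 / (64 * V ^ 2)) :
    8 * E ^ 2 + 5 * η ≤ Real.exp (-(x / 2)) := by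
  have hs1 : 1 ≤ s := by rw [hs]; exact Real.one_le_exp (by linarith)
  have hs0 : 0 < s := by linarith
  have hxs : 1 + x ≤ 2 * s := by
    have := Real.add_one_le_exp (x / 2)
    rw [← hs] at this
    linarith
  have e1 : Real.exp (-(x / 2)) = 1 / s := by rw [Real.exp_neg, ← hs, one_div]
  rw [e1]
  have h1 : (1 + x) / (100 * V) ≤ 1 / 50 * (1 / s) := by
    rw [hV, div_le_iff₀ (by positivity)]
    have : 1 / 50 * (1 / s) * (100 * s ^ 2) = 2 * s := by field_simp; ring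
    linarith
  have hs4 : s ≤ V ^ 2 := by
    rw [hV]
    calc s = s * 1 := (mul_one s).symm
      _ ≤ s * s ^ 3 := mul_le_mul_of_nonneg_left (one_le_pow₀ hs1) hs0.le
      _ = (s ^ 2) ^ 2 := by ring
  have hV2 : 1 / V ^ 2 ≤ 1 / s := one_div_le_one_div_of_le hs0 hs4
  have h2 : 1 / (64 * V ^ 2) ≤ 1 / 64 * (1 / s) := by
    have : 1 / (64 * V ^ 2) = 1 / 64 * (1 / V ^ 2) := by rw [one_div_mul_one_div]
    rw [this]
    linarith
  have h3 : E ≤ 1 / 128 * (1 / s) := by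
    refine hE.trans ?_
    have : 1 / (128 * V ^ 2) = 1 / 128 * (1 / V ^ 2) := by rw [one_div_mul_one_div]
    rw [this]
    linarith
  have h5 : 0 < 1 / s := by positivity
  have h4 : 1 / s ≤ 1 := by rw [div_le_one hs0]; exact hs1
  have h6 : E ≤ 1 / 128 := h3.trans (by linarith)
  have h7 : E ^ 2 ≤ 1 / 128 * (1 / s) := by
    rw [sq]
    calc E * E ≤ (1 / 128 * (1 / s)) * 1 := mul_le_mul h3 (by linarith) hE0 (by positivity)
      _ = _ := mul_one _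
  linarith

theorem dhM : ∃ c C : ℝ, 0 < c ∧ 1 ≤ C ∧ ∀ (r T : ℝ) (S : Finset ℂ) (kk : ℂ → ℤ) (ρ₀ : ℂ), 0 < r →
    r ≤ 1 → C ≤ T →
    (∀ ρ ∈ S, riemannZeta ρ = 0 ∧ 0 < ρ.re ∧ 1 ≤ |ρ.im| ∧ |ρ.im| ≤ T ∧ zc r ρ.im ≤ 1) →
    riemannZeta ρ₀ = 0 → 0 < ρ₀.re → 1 ≤ |ρ₀.im| → |ρ₀.im| ≤ T → zc r ρ₀.im ≤ 1 →
    r ≤ |ρ₀.im + comb S kk| → zc r (ρ₀.im + comb S kk) = 0 → 0 < dep S kk →
    c * r * min 1 (Real.log (c * r / (dep S kk * Phi r T)) / Phi r T) ≤ 1 - ρ₀.re := by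
  obtain ⟨r1, C1, hr1, hr1', hC1, hp1, hp2, hp3⟩ := defic
  obtain ⟨C2, hC2, hloc⟩ := locG_pt
  obtain ⟨C, C4, hC, hC4, hpar⟩ := par (r1 := r1) (C1 := 64 * (C1 + C2)) hr1 (by linarith)
    (by linarith)
  have hK1 : 1 ≤ C4 + 5 := by linarith
  refine ⟨r1 / (100 * (C4 + 5)), C + Real.exp (Real.exp 1), by positivity, by
    have := Real.exp_pos (Real.exp 1)
    linarith, ?_⟩
  intro r T S kk ρ₀ hr hr' hT hS hz0 hre0 him0 him0' hzc0 hdif hzcd hdep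
  have hCT : C ≤ T := by
    have := Real.exp_pos (Real.exp 1)
    linarith
  have hTe : Real.exp (Real.exp 1) ≤ T := by linarith
  have hTpos : 0 < T := lt_of_lt_of_le (Real.exp_pos _) hTe
  have hlT : Real.exp 1 ≤ Real.log T := by rw [Real.le_log_iff_exp_le hTpos]; exact hTe
  have hlT0 : 0 < Real.log T := lt_of_lt_of_le (Real.exp_pos _) hlT
  have hLL : 1 ≤ Real.log (Real.log T) := by rw [Real.le_log_iff_exp_le hlT0]; exact hlT
  have hT0 : 0 ≤ T := hTpos.le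
  obtain ⟨ℓ, hℓ⟩ : ∃ ℓ : ℝ, ℓ = Phi r T := ⟨_, rfl⟩
  have hℓ1 : 1 ≤ ℓ := by
    rw [hℓ]
    unfold Phi
    have hrl : 0 ≤ r ^ (3 / 2 : ℝ) * Real.log T := mul_nonneg (Real.rpow_nonneg hr.le _) hlT0.le
    rw [Real.le_log_iff_exp_le (by linarith)]
    have := Real.exp_one_lt_d9
    linarith
  obtain ⟨a, ha⟩ : ∃ a : ℝ, a = r1 * r := ⟨_, rfl⟩
  have ha0 : 0 < a := by rw [ha]; positivity
  have har1 : a ≤ r1 := by rw [ha]; nlinarith
  have h3a : 3 * a ≤ r := by rw [ha]; nlinarith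
  have hca : r1 / (100 * (C4 + 5)) * r = a / (100 * (C4 + 5)) := by rw [ha]; ring
  rw [hca, ← hℓ]
  obtain ⟨δ, hδ⟩ : ∃ δ : ℝ, δ = 1 - ρ₀.re := ⟨_, rfl⟩
  rw [← hδ]
  have hd : 0 < δ := by have := re_lt_one hz0; linarith
  have hc100 : 0 < a / (100 * (C4 + 5)) := by positivity
  have hca1 : a / (100 * (C4 + 5)) ≤ a := by
    rw [div_le_iff₀ (by positivity)]
    nlinarith
  obtain ⟨V, hV⟩ : ∃ V : ℝ, V = a / (100 * (C4 + 5)) / (dep S kk * ℓ) := ⟨_, rfl⟩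
  rw [← hV]
  have hℓ0 : 0 < ℓ := by linarith
  have hV0 : 0 < V := by rw [hV]; positivity
  obtain ⟨x, hx⟩ : ∃ x : ℝ, Real.log V = x := ⟨_, rfl⟩
  rw [hx]
  by_cases hx0 : x ≤ 0
  · have h1 : x / ℓ ≤ 0 := div_nonpos_of_nonpos_of_nonneg hx0 (by linarith)
    have h2 : min 1 (x / ℓ) ≤ 0 := (min_le_right _ _).trans h1
    have h3 : a / (100 * (C4 + 5)) * min 1 (x / ℓ) ≤ 0 := mul_nonpos_of_nonneg_of_nonpos hc100.le h2
    linarith
  push Not at hx0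
  have hV1 : 1 < V := by
    by_contra hcon
    push Not at hcon
    have := Real.log_nonpos hV0.le hcon
    linarith
  by_cases hA2 : δ < a
  swap
  · push Not at hA2
    have h1 : a / (100 * (C4 + 5)) * min 1 (x / ℓ) ≤ a / (100 * (C4 + 5)) * 1 :=
      mul_le_mul_of_nonneg_left (min_le_left _ _) hc100.le
    linarith
  have hdepV : dep S kk * ℓ * V = a / (100 * (C4 + 5)) := by
    rw [hV]
    field_simp
  have hdℓ : 0 < dep S kk * ℓ := by positivity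
  have hdepℓ : dep S kk * ℓ ≤ a / (100 * (C4 + 5)) := by nlinarith
  have hdepa : dep S kk < a := by
    have h1 : dep S kk * 1 ≤ dep S kk * ℓ := mul_le_mul_of_nonneg_left hℓ1 hdep.le
    have h2 : a / (100 * (C4 + 5)) < a := by
      rw [div_lt_iff₀ (by positivity)]
      nlinarith
    linarith
  obtain ⟨Λ, k0, hΛ1, hgv, h1, h2, hk0, hPhi, hρdep, hlen⟩ := hpar r T S kk hr hr' hCT
    (fun ρ hρ => ⟨(hS ρ hρ).1, (hS ρ hρ).2.1, (hS ρ hρ).2.2.2.1⟩) hdep (by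
      rw [← hℓ]
      refine hdepℓ.trans (hca1.trans ?_)
      linarith)
  rw [← ha] at hgv
  rw [← hℓ] at hk0
  have hΛ0 : 0 < Λ := by linarith
  have hTT : T ≤ (len S kk + 1) * T := by nlinarith
  obtain ⟨m, hm1, hm2⟩ := dh_level hV1 hx hx0
  obtain ⟨k, hk⟩ : ∃ k : ℕ, k = k0 + m := ⟨_, rfl⟩
  have hkx : (k : ℝ) + 1 ≤ (C4 + 5) * (ℓ + x) := by
    rw [hk]
    push_cast
    nlinarith
  have hpw : (2 : ℝ) ^ k = 2 ^ k0 * 2 ^ m := by rw [hk, pow_add]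
  have hpm0 : (0 : ℝ) < 2 ^ m := by positivity
  have hpk0 : (0 : ℝ) < 2 ^ k0 := by positivity
  have hV21 : 1 ≤ V ^ 2 := one_le_pow₀ hV1.le
  have hpm1 : (1 : ℝ) ≤ 2 ^ m := hV21.trans hm1
  have hC1k : C1 / 2 ^ k ≤ 1 / 64 := by
    rw [hpw, div_le_div_iff₀ (by positivity) (by norm_num)]
    have e1 : C1 * 64 ≤ 64 * (C1 + C2) * Λ := by nlinarith
    have e2 : (2 : ℝ) ^ k0 * 1 ≤ 2 ^ k0 * 2 ^ m := mul_le_mul_of_nonneg_left hpm1 hpk0.le
    linarith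
  have hl := hp3 a r Λ k S kk ha0 har1 h3a hr' (fun ρ hρ => by
    obtain ⟨q1, q2, q3, q4, q5⟩ := hS ρ hρ
    refine ⟨q1, q3, q5, fun hne => ?_, hgv _ (q4.trans hTT)⟩
    have := hρdep ρ hρ hne
    linarith)
  have hA : ((k : ℝ) + 1) * dep S kk / a ≤ (1 + x) / (100 * V) := by
    rw [div_le_div_iff₀ ha0 (by positivity)]
    have hb1 : ((k : ℝ) + 1) ≤ (C4 + 5) * (ℓ * (1 + x)) := by
      refine hkx.trans ?_
      apply mul_le_mul_of_nonneg_left _ (by linarith)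
      nlinarith
    calc ((k : ℝ) + 1) * dep S kk * (100 * V)
        ≤ ((C4 + 5) * (ℓ * (1 + x))) * dep S kk * (100 * V) := by
          apply mul_le_mul_of_nonneg_right _ (by positivity)
          exact mul_le_mul_of_nonneg_right hb1 hdep.le
      _ = (100 * (C4 + 5)) * (1 + x) * (dep S kk * ℓ * V) := by ring
      _ = (1 + x) * a := by
          rw [hdepV]
          field_simp
  have hB : len S kk ^ 2 * (C1 * Λ / 2 ^ k) ≤ 1 / (64 * V ^ 2) := by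
    have e1 : len S kk ^ 2 * (C1 * Λ / 2 ^ k) = C1 * len S kk ^ 2 * Λ / 2 ^ k := by ring
    rw [e1, div_le_div_iff₀ (by positivity) (by positivity), hpw]
    have e3 : 0 ≤ C2 * len S kk ^ 2 * Λ := by positivity
    have e4 : 64 * (C1 * len S kk ^ 2 * Λ) ≤ 2 ^ k0 := by linarith
    calc C1 * len S kk ^ 2 * Λ * (64 * V ^ 2) = (64 * (C1 * len S kk ^ 2 * Λ)) * V ^ 2 := by ring
      _ ≤ 2 ^ k0 * 2 ^ m := mul_le_mul e4 hm1 (by positivity) hpk0.le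
      _ = 1 * (2 ^ k0 * 2 ^ m) := (one_mul _).symm
  have hE : C2 * Λ / 2 ^ (k + 1) ≤ 1 / (128 * V ^ 2) := by
    rw [div_le_div_iff₀ (by positivity) (by positivity), pow_succ (2 : ℝ) k, hpw]
    have e3 : 0 ≤ C1 * Λ := by positivity
    have e4 : 64 * (C2 * Λ) ≤ 2 ^ k0 := by linarith
    calc C2 * Λ * (128 * V ^ 2) = (64 * (C2 * Λ)) * V ^ 2 * 2 := by ring
      _ ≤ 2 ^ k0 * 2 ^ m * 2 := by
          apply mul_le_mul_of_nonneg_right _ (by norm_num)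
          exact mul_le_mul e4 hm1 (by positivity) hpk0.le
      _ = 1 * (2 ^ k0 * 2 ^ m * 2) := (one_mul _).symm
  obtain ⟨ho, hu⟩ := dh_uniq hr' h3a hz0 (by linarith) hzc0
  have he := dh_empty hr' h3a hzcd
  have hX0 := (hloc a ρ₀.im Λ k ha0 (by linarith) (by linarith) (hgv _ (him0'.trans hTT))).2
    ρ₀ hz0 rfl (by linarith) hu
  rw [ho, Nat.cast_one, one_mul, ← hδ] at hX0
  have hct : |comb S kk| ≤ len S kk * T := dh_comb fun ρ hρ => (hS ρ hρ).2.2.2.1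
  have hX3 := (hloc a (ρ₀.im + comb S kk) Λ k ha0 (by linarith) (by linarith) (hgv _ (by
    have := abs_add_le ρ₀.im (comb S kk)
    linarith))).1 he
  have hη0 : 0 ≤ (1 + x) / (100 * V) + 1 / (64 * V ^ 2) := by positivity
  have hkey := dh_key (E := C2 * Λ / 2 ^ (k + 1)) (Λ := Λ) ha0 S kk hd
    (hl.trans (add_le_add hA hB)) hη0 ((hp2 a k ha0 har1).trans hC1k) hX0 hX3
  have hVs : V = Real.exp (x / 2) ^ 2 := by
    rw [← Real.exp_nat_mul]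
    push_cast
    rw [mul_div_cancel₀ x (by norm_num), ← hx, Real.exp_log hV0]
  exact dh_end ha0 hK1 hℓ1 hx0 hd hkx (hkey.trans (dh_err rfl hx0 hVs (by positivity) hE le_rfl))

end Pool.Agent.H76.GS
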