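import Mathlib
import Pool.Agent.H76.GS.Defic
import Pool.Agent.H76.GS.Par
import Pool.Agent.H76.GS.PosK
import Pool.Agent.H76.GS.EvA
import Pool.Agent.H76.GS.EvB

/-!
# EvenM: even combinations

PROOF.  `r1, C1` from `defic`, `C2` from `locEG`, `C, C4` from `par` (with `C1` as given there);
`a = r1 r`, `Λ, k0` from `par`, `t = comb S kk`, `x = 16 dep`, `q = 1 - x/a` (`x < a/2` by the choice of `c`),
`K` with `q^K ≤ 1-q`, `k0 ≤ K`.  `evA` with `D0 k = ∑' dco a k n`, `L k = loss (dco a k) S kk`,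
`R k = (Dk a k t).re` (`posK`, `sg = 1`; `hL`: `defic` (3), `e = dep`, `M = len² C1 Λ ≤ 2^k0`):
`∑ (qa)^k Re Dk t ≥ 1/x - (k0+1)/a - (2C1+2)/a - dep/x² ≥ (15/16)/x - (k0+1+2C1+2)/a ≥ (3/4)/x`
as `x (k0+1) ≤ 16 C4 dep Phi ≤ 16 C4 c r = (16 C4 c/r1) a` and `x ≤ 16 c r` (`Phi ≥ 1`), `c` small.
CASE `|t| < 2a`, `t ≠ 0`: `evB`: `(3/4)/x ≤ 2/|t| + 2C1/a`, so `|t| ≤ 4x = 64 dep` (`c` small).
(`t = 0`: trivial.)
CASE `2a ≤ |t|`: `locEG` (1) (its sum is `((q*a : ℝ) : ℂ)^k * Dk a k t`; take real parts):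
`(3/4)/x ≤ (k0+1)/a zc(3a)(t) + C2/a`, so `zc r t ≥ zc (3a) t ≥ a/(2x (k0+1)) ≥ r1 r/(32 C4 dep Phi)`
(`zc_mono`).  About 200 lines.
-/

set_option autoImplicit false

open Complex

namespace Pool.Agent.H76.GS

open Pool.Agent.H76.CR Pool.Agent.H76.RP Pool.Agent.H52.RK

private theorem em_comb {S : Finset ℂ} {kk : ℂ → ℤ} {T : ℝ} (hS : ∀ ρ ∈ S, |ρ.im| ≤ T) :
    |comb S kk| ≤ len S kk * T := by
  unfold comb len
  rw [Finset.sum_mul]
  refine (Finset.abs_sum_le_sum_abs _ _).trans (Finset.sum_le_sum fun ρ hρ => ?_)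
  rw [abs_mul]
  exact mul_le_mul_of_nonneg_left (hS ρ hρ) (abs_nonneg _)

private theorem em_level {q : ℝ} (hq : 0 < q) (hq1 : q < 1) (k0 : ℕ) : ∃ K : ℕ, k0 ≤ K ∧ q ^ K ≤ 1 - q := by
  obtain ⟨n, hn⟩ := exists_pow_lt_of_lt_one (by linarith : (0 : ℝ) < 1 - q) hq1
  refine ⟨max k0 n, le_max_left _ _, ?_⟩
  exact (pow_le_pow_of_le_one hq.le hq1.le (le_max_right k0 n)).trans hn.le

theorem evenM : ∃ c C : ℝ, 0 < c ∧ 1 ≤ C ∧ ∀ (r T : ℝ) (S : Finset ℂ) (kk : ℂ → ℤ), 0 < r → r ≤ 1 →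
    C ≤ T → (∀ ρ ∈ S, riemannZeta ρ = 0 ∧ 0 < ρ.re ∧ 1 ≤ |ρ.im| ∧ |ρ.im| ≤ T ∧ zc r ρ.im ≤ 1) →
    0 < dep S kk → dep S kk * Phi r T ≤ c * r → Even (∑ ρ ∈ S, kk ρ) →
    |comb S kk| ≤ C * dep S kk ∨ c * r / (dep S kk * Phi r T) ≤ zc r (comb S kk) := by
  obtain ⟨r1, C1, hr1, hr1', hC1, hd1, hd2, hd3⟩ := defic
  obtain ⟨C2, hC2, hloc⟩ := locEG
  obtain ⟨C, C4, hC, hC4, hpar⟩ := par hr1 (by linarith) hC1
  set Q : ℝ := C4 + 2 * C1 + 2 + C2 with hQ
  have hQ6 : 6 ≤ Q := by linarith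
  have hQ0 : 0 < Q := by linarith
  refine ⟨r1 / (256 * Q), max C 64, by positivity, le_max_of_le_left hC, ?_⟩
  intro r T S kk hr hr1'' hT hS hδ hδP hev
  set c : ℝ := r1 / (256 * Q) with hc
  have hc0 : 0 < c := by positivity
  have hcQ : 256 * Q * c = r1 := by
    rw [hc]
    field_simp
  set δ : ℝ := dep S kk with hδdef
  set P : ℝ := Phi r T with hP
  have hCT : C ≤ T := (le_max_left _ _).trans hT
  have hc1 : c ≤ 1 := by
    have := mul_le_mul_of_nonneg_right hQ6 hc0.le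
    linarith
  have hcr : c * r ≤ r := mul_le_of_le_one_left hr.le hc1
  obtain ⟨Λ, k0, hΛ, hgv, hk1, hk2, hk3, hP1, hre, hlen⟩ :=
    hpar r T S kk hr hr1'' hCT (fun ρ hρ => ⟨(hS ρ hρ).1, (hS ρ hρ).2.1, (hS ρ hρ).2.2.2.1⟩) hδ
      (hδP.trans hcr)
  have hT0 : 0 ≤ T := by linarith
  set t : ℝ := comb S kk with ht
  have htT : |t| ≤ (len S kk + 1) * T := by
    have h1 := em_comb (kk := kk) (fun ρ hρ => (hS ρ hρ).2.2.2.1)
    have h2 : (len S kk + 1) * T = len S kk * T + T := by ring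
    linarith
  set a : ℝ := r1 * r with ha
  have ha0 : 0 < a := mul_pos hr1 hr
  have ha1 : a ≤ r1 := mul_le_of_le_one_right hr1.le hr1''
  have ha3 : 3 * a ≤ r := by
    have := mul_le_mul_of_nonneg_right hr1' hr.le
    linarith
  set x : ℝ := 16 * δ with hx
  have hx0 : 0 < x := by positivity
  have hδcr : δ ≤ c * r := by
    have : δ * 1 ≤ δ * P := mul_le_mul_of_nonneg_left hP1 hδ.le
    linarith
  have hcra : 256 * Q * (c * r) = a := by
    rw [ha, ← hcQ]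
    ring
  -- `x` is small compared with `a`
  have hxa : 16 * Q * x ≤ a := by
    have := mul_le_mul_of_nonneg_left hδcr (by positivity : 0 ≤ 256 * Q)
    rw [← hcra, hx]
    linarith
  have hxa2 : x ≤ a / 2 := by
    have := mul_le_mul_of_nonneg_right hQ6 hx0.le
    linarith
  set q : ℝ := 1 - x / a with hq
  have hxa' : x / a ≤ 1 / 2 := by
    rw [div_le_iff₀ ha0]
    linarith
  have hxa0 : 0 < x / a := div_pos hx0 ha0
  have hq0 : 0 < q := by linarith
  have hq1 : q < 1 := by linarith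
  have hqa : (1 - q) * a = x := by
    rw [hq]
    field_simp
    ring
  obtain ⟨K, hkK, hqK⟩ := em_level hq0 hq1 k0
  have hδa : δ < a := by linarith [hxa2]
  have hM0 : 0 ≤ len S kk ^ 2 * (C1 * Λ) := by
    have := sq_nonneg (len S kk)
    positivity
  have hM2 : len S kk ^ 2 * (C1 * Λ) ≤ 2 ^ k0 := by
    calc _ = C1 * len S kk ^ 2 * Λ := by ring
      _ ≤ _ := hk1
  have hE : 1 / ((1 - q) * a) - (k0 + 1) / a - (2 * C1 + 2) / a - δ / ((1 - q) * a) ^ 2 ≤
      ∑ k ∈ Finset.Ico k0 K, (q * a) ^ k * (Dk a k t).re := by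
    refine evA (D0 := fun k => ∑' n : ℕ, dco a k n) (L := fun k => loss (dco a k) S kk) ha0 hq0 hq1 hkK hqK
      (by linarith) hM0 hM2 hδ.le (fun k => hd2 a k ha0 ha1) (fun k => ?_) (fun k => ?_)
    · have h1 := hd3 a r Λ k S kk ha0 ha1 ha3 hr1'' (fun ρ hρ => ⟨(hS ρ hρ).1, (hS ρ hρ).2.2.1,
        (hS ρ hρ).2.2.2.2, fun h0 => (hre ρ hρ h0).trans_lt hδa, hgv _ ?_⟩)
      · calc _ ≤ _ := h1
          _ = _ := by ring
      · have h2 := (hS ρ hρ).2.2.2.1
        have h3 := mul_le_mul_of_nonneg_right hlen hT0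
        have h4 : (len S kk + 1) * T = len S kk * T + T := by ring
        linarith
    · have h1 := posK (dco a k) (dco_nonneg a k) (by simp [dco]) (summable_dco ha0 k) S kk
      have h2 : sg S kk = 1 := hev.neg_one_zpow
      rw [h2, one_mul] at h1
      exact h1
  set E : ℝ := ∑ k ∈ Finset.Ico k0 K, (q * a) ^ k * (Dk a k t).re with hEdef
  rw [hqa] at hE
  -- the main lower bound
  have hinv : 0 < 1 / x := by positivity
  have hia : ∀ y : ℝ, 0 ≤ y → y ≤ Q → y / a ≤ 1 / 16 * (1 / x) := by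
    intro y hy hyQ
    rw [← mul_div_assoc, mul_one, div_le_div_iff₀ ha0 hx0]
    have := mul_le_mul_of_nonneg_right hyQ hx0.le
    linarith
  have hk4 : ((k0 : ℝ) + 1) / a ≤ 1 / 16 * (1 / x) := by
    rw [← mul_div_assoc, mul_one, div_le_div_iff₀ ha0 hx0]
    have h1 : ((k0 : ℝ) + 1) * x ≤ C4 * P * x := mul_le_mul_of_nonneg_right hk3 hx0.le
    have h2 : C4 * P * x = 16 * C4 * (δ * P) := by
      rw [hx]
      ring
    have h3 : 16 * C4 * (δ * P) ≤ 16 * C4 * (c * r) := mul_le_mul_of_nonneg_left hδP (by linarith)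
    have h4 : 16 * C4 * (c * r) ≤ 16 * Q * (c * r) :=
      mul_le_mul_of_nonneg_right (by linarith) (by positivity)
    linarith
  have hδx : δ / x ^ 2 = 1 / 16 * (1 / x) := by
    rw [hx]
    field_simp
  have hE2 : 13 / 16 * (1 / x) ≤ E := by
    have h1 := hia (2 * C1 + 2) (by linarith) (by linarith)
    rw [hδx] at hE
    linarith
  rcases lt_or_ge |t| (2 * a) with hta | hta
  · left
    rcases eq_or_ne t 0 with h0 | h0
    · rw [h0, abs_zero]
      positivity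
    · have h1 := evB (D := fun k => Dk a k t) ha0 hq0 hq1 hkK (by linarith : (0 : ℝ) ≤ C1) h0
        (fun k => hd1 a t k ha0 ha1 hta.le)
      have h2 : E ≤ 2 / |t| + 2 * C1 / a := h1
      have h3 := hia (2 * C1) (by linarith) (by linarith)
      have h4 : 3 / 4 * (1 / x) ≤ 2 / |t| := by linarith
      have ht0 : 0 < |t| := abs_pos.2 h0
      rw [← mul_div_assoc, mul_one, div_le_div_iff₀ hx0 ht0] at h4
      have h5 : |t| ≤ 64 * δ := by
        rw [hx] at h4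
        linarith
      exact h5.trans (mul_le_mul_of_nonneg_right (le_max_right _ _) hδ.le)
  · right
    have h1 := (hloc a q t Λ k0 K ha0 (by linarith) hq0 hq1 hkK hqK hta (hgv t htT)
      ((le_mul_of_one_le_left (by linarith) hC1).trans hk2)).1
    have h2 : (∑ k ∈ Finset.Ico k0 K, ((q * a : ℝ) : ℂ) ^ k * Dk a k t).re = E := by
      rw [hEdef, Complex.re_sum]
      refine Finset.sum_congr rfl fun k _ => ?_
      rw [← Complex.ofReal_pow, Complex.re_ofReal_mul]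
    rw [h2] at h1
    have h3 := hia C2 (by linarith) (by linarith)
    have h4 : 3 / 4 * (1 / x) ≤ ((k0 : ℝ) + 1) / a * zc (3 * a) t := by linarith
    have h5 : (zc (3 * a) t : ℝ) ≤ (zc r t : ℝ) := by
      exact_mod_cast zc_mono ha3 hr1'' t
    set Z : ℝ := (zc r t : ℝ) with hZ
    have hZ0 : 0 ≤ Z := Nat.cast_nonneg _
    have h6 : 3 / 4 * (1 / x) ≤ C4 * P / a * Z := by
      refine h4.trans ?_
      refine mul_le_mul (div_le_div_of_nonneg_right hk3 ha0.le) h5 (Nat.cast_nonneg _) (by positivity)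
    have hδP0 : 0 < δ * P := by positivity
    rw [div_le_iff₀ hδP0]
    have h7 : 3 / 4 * (1 / x) * (x * a) ≤ C4 * P / a * Z * (x * a) :=
      mul_le_mul_of_nonneg_right h6 (by positivity)
    have h8 : 3 / 4 * (1 / x) * (x * a) = 3 / 4 * a := by
      field_simp
    have h9 : C4 * P / a * Z * (x * a) = 16 * C4 * (Z * (δ * P)) := by
      rw [hx]
      field_simp
    rw [h8, h9, ← hcra] at h7
    have h10 : 16 * C4 * (Z * (δ * P)) ≤ 16 * Q * (Z * (δ * P)) :=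
      mul_le_mul_of_nonneg_right (by linarith) (by positivity)
    have h11 : Q * (c * r) ≤ Q * (Z * (δ * P)) := by
      have : 0 ≤ Q * (c * r) := by positivity
      linarith
    exact le_of_mul_le_mul_left h11 hQ0

end Pool.Agent.H76.GS
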