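import Mathlib
import Pool.Agent.H76.GS.Defic
import Pool.Agent.H76.GS.Par
import Pool.Agent.H76.GS.PosK

/-!
# OddM: odd combinations

PROOF.  `r1, C1` from `defic`, `C2` from `locG_pt`, `C, C4` from `par` (with `64 (C1 + C2)` in place of
`C1`); `c = min 1 (r1/(64 C4))`; `a = r1 r`, `Λ, k0` from `par`, `t = comb S kk` (`|t| ≤ len T`).
For `k ≥ k0`, `k + 1 ≤ 2 (k0 + 1)`: `defic` (3) (for `kk ρ ≠ 0`: `1 - Re ρ ≤ dep ≤ c r/Phi < a`):
`a^(k+1) loss ≤ (k+1) dep/a + len² C1 Λ/2^k ≤ 2 C4 Phi dep/(r1 r) + 1/64 ≤ 1/32 + 1/64 < 1/16`.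
`posK` with `d = dco a k` (`dco_nonneg`, `summable_dco`), `sg = -1` (odd), times `a^(k+1)`:
`a^(k+1) (D0 + Re Dk t) ≤ 1/16`, and `a^(k+1) D0 ≥ 1 - 1/64` (`defic` (2)), so
`Re (a^(k+1) Dk t) ≤ -7/8`.                                                   (*)
CASE `2a ≤ |t|`: if `zc r t = 0` then `disc (3a) t = ∅` (private lemma `mb_empty` of `H52/RK/MainBG.lean`,
copy) and `locG_pt` (1) gives `a^(k+1) ‖Dk t‖ ≤ C2 Λ/2^(k+1) ≤ 1/64`, contradiction with (*) at `k = k0`.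
CASE `|t| < 2a`: (*) at `k = k0` and at `k = 2 k0 + 1`, with `w = (a/(a+it))^(k0+1)`, `‖w‖ ≤ 1`, and
`defic` (1): `Re w ≤ -13/16`, `Re (w²) ≤ -13/16`; but `Re (w²) = 2 (Re w)² - ‖w‖² ≥ 2 (13/16)² - 1 > 0`.
Contradiction.  About 170 lines.
-/

set_option autoImplicit false

open Complex

namespace Pool.Agent.H76.GS

open Pool.Agent.H76.CR Pool.Agent.H76.RP Pool.Agent.H52.RK

private theorem om_empty {a r t : ℝ} (hr : r ≤ 1) (har : 3 * a ≤ r) (hz : zc r t = 0) :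
    disc (3 * a) t = ∅ := by
  rw [Set.eq_empty_iff_forall_notMem]
  intro u hu
  have h3 := zc_ge hr t {u} (by
    intro z hz
    rw [Finset.mem_singleton] at hz
    rw [hz]
    exact ⟨hu.1, lt_of_lt_of_le hu.2 har⟩)
  rw [Finset.sum_singleton] at h3
  have h4 := ord_pos hu.1
  omega

private theorem om_comb {S : Finset ℂ} {kk : ℂ → ℤ} {T : ℝ} (h : ∀ ρ ∈ S, |ρ.im| ≤ T) :
    |comb S kk| ≤ len S kk * T := by
  unfold comb len
  rw [Finset.sum_mul]
  refine (Finset.abs_sum_le_sum_abs _ _).trans (Finset.sum_le_sum fun ρ hρ => ?_)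
  rw [abs_mul]
  exact mul_le_mul_of_nonneg_left (h ρ hρ) (abs_nonneg _)

private theorem om_re {a t x : ℝ} {k : ℕ} (ha : 0 < a) (h : a ^ (k + 1) * (Dk a k t).re ≤ x) :
    ((a : ℂ) ^ (k + 1) * Dk a k t).re ≤ x := by
  rw [← Complex.ofReal_pow, Complex.re_ofReal_mul]
  exact h

private theorem om_w {a t : ℝ} (ha : 0 < a) : ‖(a : ℂ) / (a + t * I)‖ ≤ 1 := by
  rw [norm_div]
  have h1 : ‖(a : ℂ)‖ = a := by rw [Complex.norm_real, Real.norm_eq_abs, abs_of_pos ha]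
  have h2 : a ≤ ‖(a : ℂ) + t * I‖ := by
    have h3 := Complex.abs_re_le_norm ((a : ℂ) + t * I)
    have h4 : ((a : ℂ) + t * I).re = a := by simp
    rw [h4, abs_of_pos ha] at h3
    exact h3
  rw [h1, div_le_one (lt_of_lt_of_le ha h2)]
  exact h2

private theorem om_sq {w : ℂ} (h1 : ‖w‖ ≤ 1) (h2 : w.re ≤ -(13 / 16)) (h3 : (w ^ 2).re ≤ -(13 / 16)) :
    False := by
  have h4 : (w ^ 2).re = w.re * w.re - w.im * w.im := by rw [sq, Complex.mul_re]
  have h5 : ‖w‖ ^ 2 = w.re * w.re + w.im * w.im := by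
    rw [Complex.sq_norm, Complex.normSq_apply]
  have h6 : ‖w‖ ^ 2 ≤ 1 := by
    have := norm_nonneg w
    nlinarith
  nlinarith

theorem oddM : ∃ c C : ℝ, 0 < c ∧ 1 ≤ C ∧ ∀ (r T : ℝ) (S : Finset ℂ) (kk : ℂ → ℤ), 0 < r → r ≤ 1 →
    C ≤ T → (∀ ρ ∈ S, riemannZeta ρ = 0 ∧ 0 < ρ.re ∧ 1 ≤ |ρ.im| ∧ |ρ.im| ≤ T ∧ zc r ρ.im ≤ 1) →
    0 < dep S kk → dep S kk * Phi r T ≤ c * r → Odd (∑ ρ ∈ S, kk ρ) →
    1 ≤ zc r (comb S kk) := by
  obtain ⟨r1, C1, hr1, hr1', hC1, hp1, hp2, hp3⟩ := defic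
  obtain ⟨C2, hC2, hloc⟩ := locG_pt
  obtain ⟨C, C4, hC, hC4, hpar⟩ := par (r1 := r1) (C1 := 64 * (C1 + C2)) hr1 (by linarith)
    (by linarith)
  refine ⟨min 1 (r1 / (64 * C4)), C, by positivity, hC, ?_⟩
  intro r T S kk hr hr' hT hS hdep hdc hodd
  obtain ⟨c, hc⟩ : ∃ c : ℝ, c = min 1 (r1 / (64 * C4)) := ⟨_, rfl⟩
  rw [← hc] at hdc
  have hc1 : c ≤ 1 := by rw [hc]; exact min_le_left _ _
  have hc2 : c ≤ r1 / (64 * C4) := by rw [hc]; exact min_le_right _ _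
  have hc0 : 0 < c := by rw [hc]; positivity
  have hT0 : 0 ≤ T := by linarith
  have hcr : c * r ≤ r := by nlinarith
  obtain ⟨Λ, k0, hΛ1, hgv, h1, h2, hk0, hPhi, hρdep, hlen⟩ := hpar r T S kk hr hr' hT
    (fun ρ hρ => ⟨(hS ρ hρ).1, (hS ρ hρ).2.1, (hS ρ hρ).2.2.2.1⟩) hdep (hdc.trans hcr)
  obtain ⟨a, ha⟩ : ∃ a : ℝ, a = r1 * r := ⟨_, rfl⟩
  rw [← ha] at hgv
  have ha0 : 0 < a := by rw [ha]; positivity
  have har1 : a ≤ r1 := by rw [ha]; nlinarith
  have h3a : 3 * a ≤ r := by rw [ha]; nlinarith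
  have hlenT : len S kk * T ≤ (len S kk + 1) * T := by nlinarith
  have hTT : T ≤ (len S kk + 1) * T := by nlinarith
  have hdle : dep S kk ≤ c * r := by
    refine le_trans ?_ hdc
    nlinarith
  have hca : c * r < a := by
    have e1 : r1 / (64 * C4) ≤ r1 / 64 := by
      apply div_le_div_of_nonneg_left hr1.le (by norm_num)
      linarith
    have e2 : c * r ≤ r1 / 64 * r := mul_le_mul_of_nonneg_right (hc2.trans e1) hr.le
    rw [ha]
    have : 0 < r1 * r := by positivity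
    linarith
  have hcC : 2 * C4 * c ≤ r1 / 32 := by
    rw [le_div_iff₀ (by positivity)] at hc2
    linarith
  have hsg : sg S kk = -1 := by
    unfold sg
    exact hodd.neg_one_zpow
  -- the main estimate
  have hΛ0 : 0 < Λ := by linarith
  have hpw : ∀ k : ℕ, k0 ≤ k → (2 : ℝ) ^ k0 ≤ 2 ^ k := fun k hk =>
    pow_le_pow_right₀ (by norm_num) hk
  have hC1k : ∀ k : ℕ, k0 ≤ k → C1 / 2 ^ k ≤ 1 / 64 := by
    intro k hk
    rw [div_le_div_iff₀ (by positivity) (by norm_num)]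
    have e1 : C1 * 64 ≤ 64 * (C1 + C2) * Λ := by nlinarith
    have := hpw k hk
    linarith
  have hstar : ∀ k : ℕ, k0 ≤ k → (k : ℝ) + 1 ≤ 2 * ((k0 : ℝ) + 1) →
      a ^ (k + 1) * (Dk a k (comb S kk)).re ≤ -(15 / 16) := by
    intro k hk hk2
    have hl := hp3 a r Λ k S kk ha0 har1 h3a hr' (fun ρ hρ => by
      obtain ⟨q1, q2, q3, q4, q5⟩ := hS ρ hρ
      refine ⟨q1, q3, q5, fun hne => ?_, hgv _ (q4.trans hTT)⟩
      have := hρdep ρ hρ hne
      linarith)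
    have hA : ((k : ℝ) + 1) * dep S kk / a ≤ 1 / 32 := by
      rw [div_le_iff₀ ha0]
      calc ((k : ℝ) + 1) * dep S kk ≤ (2 * (C4 * Phi r T)) * dep S kk := by
            apply mul_le_mul_of_nonneg_right _ hdep.le
            linarith
        _ = 2 * C4 * (dep S kk * Phi r T) := by ring
        _ ≤ 2 * C4 * (c * r) := mul_le_mul_of_nonneg_left hdc (by linarith)
        _ = (2 * C4 * c) * r := by ring
        _ ≤ r1 / 32 * r := mul_le_mul_of_nonneg_right hcC hr.le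
        _ = 1 / 32 * a := by rw [ha]; ring
    have hB : len S kk ^ 2 * (C1 * Λ / 2 ^ k) ≤ 1 / 64 := by
      have e1 : len S kk ^ 2 * (C1 * Λ / 2 ^ k) = C1 * len S kk ^ 2 * Λ / 2 ^ k := by ring
      rw [e1, div_le_div_iff₀ (by positivity) (by norm_num)]
      have e2 := hpw k hk
      have e3 : 0 ≤ C2 * len S kk ^ 2 * Λ := by positivity
      nlinarith
    have hd00 : dco a k 0 = 0 := by unfold dco; simp
    have hpos := posK (dco a k) (dco_nonneg a k) hd00 (summable_dco ha0 k) S kk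
    rw [hsg, ← Dk_Ds] at hpos
    have hak : 0 < a ^ (k + 1) := by positivity
    have hm := mul_le_mul_of_nonneg_left hpos hak.le
    have hx := (abs_le.1 ((hp2 a k ha0 har1).trans (hC1k k hk))).1
    have e : a ^ (k + 1) * ((∑' n : ℕ, dco a k n) - -1 * (Dk a k (comb S kk)).re) =
        a ^ (k + 1) * (∑' n : ℕ, dco a k n) + a ^ (k + 1) * (Dk a k (comb S kk)).re := by ring
    rw [e] at hm
    linarith
  have hct : |comb S kk| ≤ len S kk * T := om_comb fun ρ hρ => (hS ρ hρ).2.2.2.1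
  by_contra hcon
  have hz0 : zc r (comb S kk) = 0 := by omega
  rcases le_or_gt (2 * a) |comb S kk| with hcase | hcase
  · have he := om_empty hr' h3a hz0
    have hb := (hloc a (comb S kk) Λ k0 ha0 (by linarith) hcase
      (hgv _ (hct.trans hlenT))).1 he
    have h4 : C2 * Λ / 2 ^ (k0 + 1) ≤ 1 / 64 := by
      rw [div_le_div_iff₀ (by positivity) (by norm_num), pow_succ]
      have : 0 ≤ C1 * Λ := by positivity
      nlinarith
    have h5 := hstar k0 le_rfl (by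
      have : (0 : ℝ) ≤ k0 := Nat.cast_nonneg _
      linarith)
    have h6 := neg_abs_le (Dk a k0 (comb S kk)).re
    have h7 := Complex.abs_re_le_norm (Dk a k0 (comb S kk))
    have hak : 0 < a ^ (k0 + 1) := by positivity
    have h8 : a ^ (k0 + 1) * (-‖Dk a k0 (comb S kk)‖) ≤ a ^ (k0 + 1) * (Dk a k0 (comb S kk)).re :=
      mul_le_mul_of_nonneg_left (by linarith) hak.le
    linarith
  · have hw := om_w (t := comb S kk) ha0
    have hk2 : (((2 * k0 + 1 : ℕ) : ℝ)) + 1 ≤ 2 * ((k0 : ℝ) + 1) := by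
      push_cast
      linarith
    have h5 := om_re ha0 (hstar k0 le_rfl (by
      have : (0 : ℝ) ≤ k0 := Nat.cast_nonneg _
      linarith))
    have h6 := om_re ha0 (hstar (2 * k0 + 1) (by omega) hk2)
    have g1 := (hp1 a (comb S kk) k0 ha0 har1 hcase.le).trans (hC1k k0 le_rfl)
    have g2 := (hp1 a (comb S kk) (2 * k0 + 1) ha0 har1 hcase.le).trans (hC1k (2 * k0 + 1) (by omega))
    have g3 := (Complex.abs_re_le_norm _).trans g1
    have g4 := (Complex.abs_re_le_norm _).trans g2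
    rw [Complex.sub_re] at g3 g4
    have g5 := (abs_le.1 g3).1
    have g6 := (abs_le.1 g4).1
    refine om_sq (w := ((a : ℂ) / (a + (comb S kk : ℝ) * I)) ^ (k0 + 1)) ?_ (by linarith) ?_
    · rw [norm_pow]
      exact pow_le_one₀ (norm_nonneg _) hw
    · rw [← pow_mul, show (k0 + 1) * 2 = 2 * k0 + 1 + 1 from by ring]
      linarith

end Pool.Agent.H76.GS
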