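import Mathlib
import Pool.Agent.H52.ZR.Low
import Pool.Agent.H76.GS.OddM
import Pool.Agent.H76.GS.EvenM
import Pool.Agent.H76.GS.DHM

/-!
# Main: the lattice theorem for isolated zeros near the line `Re s = 1`
-/

set_option autoImplicit false

open Complex

namespace Pool.Agent.H76.GS

open Pool.Agent.H76.CR Pool.Agent.H76.RP Pool.Agent.H52.RK Pool.Agent.H52.ZR

/-- an isolated zero: `1 ≤ |Im ρ| ≤ T`, and at most one zero, with multiplicity, in the disc of radius `r`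
around `1 + i Im ρ` -/
def Iso (r T : ℝ) (ρ : ℂ) : Prop :=
  riemannZeta ρ = 0 ∧ 0 < ρ.re ∧ 1 ≤ |ρ.im| ∧ |ρ.im| ≤ T ∧ zc r ρ.im ≤ 1

theorem dep_zero {S : Finset ℂ} {k : ℂ → ℤ} (hS : ∀ ρ ∈ S, riemannZeta ρ = 0)
    (h : dep S k ≤ 0) : (∀ ρ ∈ S, k ρ = 0) := by
  intro ρ hρ
  by_contra hne
  have h1 : 0 < |(k ρ : ℝ)| := abs_pos.2 (by exact_mod_cast hne)
  have h2 : 0 < len S k :=
    Finset.sum_pos' (fun _ _ => abs_nonneg _) ⟨ρ, hρ, h1⟩
  have h3 : 0 < ∑ ρ ∈ S, |(k ρ : ℝ)| * (1 - ρ.re) := by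
    refine Finset.sum_pos' (fun u hu => mul_nonneg (abs_nonneg _) ?_) ⟨ρ, hρ, mul_pos h1 ?_⟩
    · have := re_lt_one (hS u hu)
      linarith
    · have := re_lt_one (hS ρ hρ)
      linarith
  have : 0 < dep S k := mul_pos h2 h3
  linarith

theorem lattice : ∃ c C : ℝ, 0 < c ∧ 1 ≤ C ∧ ∀ (r T : ℝ) (S : Finset ℂ) (k : ℂ → ℤ), 0 < r → r ≤ 1 →
    C ≤ T → (∀ ρ ∈ S, Iso r T ρ) → dep S k * Phi r T ≤ c * r →
    (Odd (∑ ρ ∈ S, k ρ) → 1 ≤ zc r (comb S k)) ∧
    (Even (∑ ρ ∈ S, k ρ) → |comb S k| ≤ C * dep S k ∨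
      c * r / (dep S k * Phi r T) ≤ zc r (comb S k)) ∧
    (r * vklam |comb S k| ≤ c → Even (∑ ρ ∈ S, k ρ) ∧ |comb S k| ≤ C * dep S k) ∧
    (∀ ρ₀ : ℂ, Iso r T ρ₀ → r ≤ |ρ₀.im + comb S k| →
      (zc r (ρ₀.im + comb S k) = 0 ∨ r * vklam |ρ₀.im + comb S k| ≤ c) → 0 < dep S k →
      c * r * min 1 (Real.log (c * r / (dep S k * Phi r T)) / Phi r T) ≤ 1 - ρ₀.re) := by
  obtain ⟨c1, C1, hc1, hC1, hodd⟩ := oddM
  obtain ⟨c2, C2, hc2, hC2, heven⟩ := evenM
  obtain ⟨c3, C3, hc3, hC3, hdh⟩ := dhM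
  obtain ⟨c4, hc4, hc41, hlow⟩ := zc_low
  set c : ℝ := min (min c1 c2) (min c3 c4) with hc
  have hc0 : 0 < c := lt_min (lt_min hc1 hc2) (lt_min hc3 hc4)
  have hcc1 : c ≤ c1 := (min_le_left _ _).trans (min_le_left _ _)
  have hcc2 : c ≤ c2 := (min_le_left _ _).trans (min_le_right _ _)
  have hcc3 : c ≤ c3 := (min_le_right _ _).trans (min_le_left _ _)
  have hcc4 : c ≤ c4 := (min_le_right _ _).trans (min_le_right _ _)
  set C : ℝ := max (max C1 C2) (max C3 (Real.exp (Real.exp 1))) with hC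
  have hCC1 : C1 ≤ C := (le_max_left _ _).trans (le_max_left _ _)
  have hCC2 : C2 ≤ C := (le_max_right _ _).trans (le_max_left _ _)
  have hCC3 : C3 ≤ C := (le_max_left _ _).trans (le_max_right _ _)
  have hCC4 : Real.exp (Real.exp 1) ≤ C := (le_max_right _ _).trans (le_max_right _ _)
  refine ⟨c, C, hc0, hC1.trans hCC1, ?_⟩
  intro r T S k hr hr1 hT hS hdep
  have hTpos : 0 < T := by linarith [Real.exp_pos (Real.exp 1)]
  have hPhi : 0 < Phi r T := by
    have h1 : Real.exp 1 ≤ Real.log T := by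
      rw [Real.le_log_iff_exp_le hTpos]
      linarith
    have h2 : 0 < Real.log T := lt_of_lt_of_le (Real.exp_pos _) h1
    have h3 : 1 ≤ Real.log (Real.log T) := by
      rw [Real.le_log_iff_exp_le h2]
      exact h1
    unfold Phi
    apply Real.log_pos
    have h4 : 0 ≤ r ^ (3 / 2 : ℝ) * Real.log T := mul_nonneg (Real.rpow_nonneg hr.le _) h2.le
    linarith
  have hSz : ∀ ρ ∈ S, riemannZeta ρ = 0 := fun ρ hρ => (hS ρ hρ).1
  have hSI : ∀ ρ ∈ S, riemannZeta ρ = 0 ∧ 0 < ρ.re ∧ 1 ≤ |ρ.im| ∧ |ρ.im| ≤ T ∧ zc r ρ.im ≤ 1 := hS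
  rcases le_or_gt (dep S k) 0 with hd | hd
  · have hk := dep_zero hSz hd
    have h1 : ∑ ρ ∈ S, k ρ = 0 := Finset.sum_eq_zero hk
    have h2 : comb S k = 0 := by
      unfold comb
      refine Finset.sum_eq_zero fun ρ hρ => ?_
      rw [hk ρ hρ]
      simp
    have h3 : dep S k = 0 := by
      unfold dep len
      rw [Finset.sum_eq_zero (fun ρ hρ => by rw [hk ρ hρ]; simp), zero_mul]
    have h4 : |comb S k| ≤ C * dep S k := by rw [h2, h3]; simp
    refine ⟨fun h => ?_, fun _ => Or.inl h4, fun _ => ⟨?_, h4⟩, fun _ _ _ _ h => ?_⟩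
    · rw [h1] at h
      exact absurd h (by decide)
    · rw [h1]
      exact Even.zero
    · linarith
  have hd1 : dep S k * Phi r T ≤ c1 * r := hdep.trans (mul_le_mul_of_nonneg_right hcc1 hr.le)
  have hd2 : dep S k * Phi r T ≤ c2 * r := hdep.trans (mul_le_mul_of_nonneg_right hcc2 hr.le)
  have hO := hodd r T S k hr hr1 (hCC1.trans hT) hSI hd hd1
  have hE0 := heven r T S k hr hr1 (hCC2.trans hT) hSI hd hd2
  have hdP : 0 < dep S k * Phi r T := mul_pos hd hPhi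
  have hE : Even (∑ ρ ∈ S, k ρ) → |comb S k| ≤ C * dep S k ∨
      c * r / (dep S k * Phi r T) ≤ zc r (comb S k) := by
    intro h
    rcases hE0 h with h1 | h1
    · left
      exact h1.trans (mul_le_mul_of_nonneg_right hCC2 hd.le)
    · right
      refine le_trans ?_ h1
      exact div_le_div_of_nonneg_right (mul_le_mul_of_nonneg_right hcc2 hr.le) hdP.le
  refine ⟨hO, hE, fun h => ?_, fun ρ₀ h0 hr0 hz _ => ?_⟩
  · have hz : zc r (comb S k) = 0 := hlow r |comb S k| (comb S k) hr le_rfl (h.trans hcc4)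
    rcases Int.even_or_odd (∑ ρ ∈ S, k ρ) with hp | hp
    · refine ⟨hp, ?_⟩
      rcases hE hp with h1 | h1
      · exact h1
      · rw [hz, Nat.cast_zero] at h1
        have : 0 < c * r / (dep S k * Phi r T) := by positivity
        linarith
    · have := hO hp
      omega
  · have hz0 : zc r (ρ₀.im + comb S k) = 0 := by
      rcases hz with h1 | h1
      · exact h1
      · exact hlow r |ρ₀.im + comb S k| _ hr le_rfl (h1.trans hcc4)
    obtain ⟨g1, g2, g3, g4, g5⟩ := h0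
    have h1 := hdh r T S k ρ₀ hr hr1 (hCC3.trans hT) hSI g1 g2 g3 g4 g5 hr0 hz0 hd
    refine le_trans ?_ h1
    have hcr : c * r ≤ c3 * r := mul_le_mul_of_nonneg_right hcc3 hr.le
    have hcr0 : 0 < c * r := mul_pos hc0 hr
    have h2 : Real.log (c * r / (dep S k * Phi r T)) ≤ Real.log (c3 * r / (dep S k * Phi r T)) :=
      Real.log_le_log (by positivity) (div_le_div_of_nonneg_right hcr hdP.le)
    have h3 : min 1 (Real.log (c * r / (dep S k * Phi r T)) / Phi r T) ≤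
        min 1 (Real.log (c3 * r / (dep S k * Phi r T)) / Phi r T) :=
      min_le_min_left _ (div_le_div_of_nonneg_right h2 hPhi.le)
    have h4 : 0 ≤ Real.log (c * r / (dep S k * Phi r T)) := by
      apply Real.log_nonneg
      rw [le_div_iff₀ hdP]
      linarith
    have h5 : 0 ≤ min 1 (Real.log (c * r / (dep S k * Phi r T)) / Phi r T) :=
      le_min zero_le_one (div_nonneg h4 hPhi.le)
    exact mul_le_mul hcr h3 h5 (by positivity)

end Pool.Agent.H76.GS
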