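import Mathlib
import Pool.Agent.H76.GS.CoreU
import Pool.Agent.H76.RP.Geo

/-!
# OddU: odd combinations of uncrowded zeros

PROOF.  `coreU` (shrink its `c`), `C2` from `locG_pt`; `a = r1 r`, `x = 32 dep`, `t = comb S kk`, `sg = -1`:
`∑ (qa)^k Re Dk t ≤ -(3/4)/x`.                                                     (*)
CASE `2a ≤ |t|`: if `zc r t = 0`, `disc (3a) t = ∅` (private lemma `mb_empty` of `H52/RK/MainBG.lean`, copy),
`locG_pt` (1): `(qa)^k ‖Dk t‖ ≤ (q^k/a) C2 Λ/2^(k+1)`, the sum over `k ≥ k0` is `≤ C2 Λ/(a 2^k0) ≤ C2/a`;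
contradiction with (*), since `C2/a < (3/4)/x` (`x ≤ 32 c r`, `c` small).
CASE `|t| < 2a`: `geo` of `H76/RP/Geo.lean` with `w = it` (`Re w = 0`):
`-Re ∑ (qa)^k/(a+it)^(k+1) ≤ -Re (1/(x+it)) + (k0+1)/a ≤ (k0+1)/a`; the difference to `∑ (qa)^k Dk t` is
`≤ 2 C1/a` (near-pole formula of `coreU`).  So `∑ (qa)^k Re Dk t ≥ -(k0+1+2C1)/a > -(3/4)/x`
(`x (k0+1) ≤ 32 C4 dep Phi ≤ 32 C4 c r`).  Contradiction.
-/

set_option autoImplicit false

open Complex

namespace Pool.Agent.H76.GS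

open Pool.Agent.H76.CR Pool.Agent.H76.RP Pool.Agent.H52.RK

private theorem ou_empty {a r t : ℝ} (hr : r ≤ 1) (har : 3 * a ≤ r) (hz : zc r t = 0) : disc (3 * a) t = ∅ := by
  rw [Set.eq_empty_iff_forall_notMem]
  intro u hu
  have h3 := zc_ge hr t {u} (by
    intro z hz
    rw [Finset.mem_singleton] at hz
    rw [hz]
    exact ⟨hu.1, lt_of_lt_of_le hu.2 har⟩)
  rw [Finset.sum_singleton] at h3
  have h4 := ord_pos hu.1
  omega

/-- a geometric tail -/
private theorem ou_tail (B : ℝ) (hB : 0 ≤ B) (k0 K : ℕ) :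
    ∑ k ∈ Finset.Ico k0 K, B / 2 ^ k ≤ 2 * B / 2 ^ k0 := by
  rcases le_or_gt k0 K with h | h
  · have h1 : ∀ n, ∑ k ∈ Finset.Ico k0 (k0 + n), B / 2 ^ k = 2 * B / 2 ^ k0 - 2 * B / 2 ^ (k0 + n) := by
      intro n
      induction n with
      | zero => simp
      | succ n ih =>
        rw [← add_assoc, Finset.sum_Ico_succ_top (by omega), ih]
        rw [pow_succ 2 (k0 + n)]
        have : (2 : ℝ) ^ (k0 + n) ≠ 0 := by positivity
        field_simp
        ring
    obtain ⟨n, rfl⟩ := Nat.exists_eq_add_of_le h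
    rw [h1]
    have : 0 ≤ 2 * B / 2 ^ (k0 + n) := by positivity
    linarith
  · rw [Finset.Ico_eq_empty_of_le h.le, Finset.sum_empty]
    positivity

theorem oddU : ∃ c C : ℝ, 0 < c ∧ 1 ≤ C ∧ ∀ (r T : ℝ) (S : Finset ℂ) (kk : ℂ → ℤ), 0 < r → r ≤ 1 →
    C ≤ T → (∀ ρ ∈ S, riemannZeta ρ = 0 ∧ 0 < ρ.re ∧ 1 ≤ |ρ.im| ∧ |ρ.im| ≤ T) →
    0 < dep S kk → dep S kk * Phi r T ≤ c * r → dep S kk * num r S kk * Phi r T ≤ c * r →
    Odd (∑ ρ ∈ S, kk ρ) → 1 ≤ zc r (comb S kk) := by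
  obtain ⟨r1, C1, c, C, C4, hr1, hr1', hC1, hc, hc1, hC, hC4, hpole, hcore⟩ := coreU
  obtain ⟨C2, hC2, hloc⟩ := locG_pt
  refine ⟨min c (r1 / (64 * (C4 + 2 * C1 + C2))), C, ?_, hC, ?_⟩
  · exact lt_min hc (by positivity)
  intro r T S kk hr hr' hT hS hd hdP hdN hodd
  have hcc : min c (r1 / (64 * (C4 + 2 * C1 + C2))) * r ≤ c * r :=
    mul_le_mul_of_nonneg_right (min_le_left _ _) hr.le
  obtain ⟨q, Λ, k0, K, hq, hq1, hqx, hk0K, hqK, hΛ, hΛk, hk0, hPhi, hgv, hmain⟩ :=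
    hcore r T S kk hr hr' hT hS hd (hdP.trans hcc) (hdN.trans hcc)
  have ha : 0 < r1 * r := mul_pos hr1 hr
  have ha1 : r1 * r ≤ r1 := by nlinarith
  -- the smallness of `dep`
  have hsmall : ∀ M : ℝ, 0 ≤ M → M ≤ C4 + 2 * C1 + C2 → 32 * (dep S kk * Phi r T) * M ≤ (r1 * r) / 2 := by
    intro M hM hM'
    have h1 : dep S kk * Phi r T ≤ r1 / (64 * (C4 + 2 * C1 + C2)) * r :=
      hdP.trans (mul_le_mul_of_nonneg_right (min_le_right _ _) hr.le)
    have hpos : 0 < C4 + 2 * C1 + C2 := by linarith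
    have h2 : 32 * (dep S kk * Phi r T) * M ≤ 32 * (r1 / (64 * (C4 + 2 * C1 + C2)) * r) * (C4 + 2 * C1 + C2) := by
      apply mul_le_mul _ hM' hM (by positivity)
      linarith
    have h3 : 32 * (r1 / (64 * (C4 + 2 * C1 + C2)) * r) * (C4 + 2 * C1 + C2) = (r1 * r) / 2 := by
      field_simp
      ring
    linarith
  have hend : ∀ X : ℝ, 3 / 4 / (32 * dep S kk) ≤ X → X ≤ (C4 * Phi r T + 2 * C1 + C2) / (r1 * r) → False := by
    intro X h1 h2
    have h3 := h1.trans h2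
    rw [div_le_div_iff₀ (by positivity) ha] at h3
    have hd0 : 0 ≤ dep S kk * Phi r T := by positivity
    have h4 : (C4 * Phi r T + 2 * C1 + C2) * (32 * dep S kk) ≤ 32 * (dep S kk * Phi r T) * (C4 + 2 * C1 + C2) := by
      have h5 : dep S kk * (2 * C1 + C2) ≤ dep S kk * Phi r T * (2 * C1 + C2) := by
        apply mul_le_mul_of_nonneg_right _ (by linarith)
        nlinarith
      nlinarith
    have h6 := hsmall (C4 + 2 * C1 + C2) (by linarith) le_rfl
    linarith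
  have hsg : sg S kk = -1 := by
    unfold sg
    exact hodd.neg_one_zpow
  rw [hsg] at hmain
  by_contra hcon
  have hz : zc r (comb S kk) = 0 := by omega
  set t := comb S kk with ht
  set a := r1 * r with hadef
  have hqk : ∀ k : ℕ, q ^ k ≤ 1 := fun k => pow_le_one₀ hq.le hq1.le
  rcases le_or_gt (2 * a) |t| with hcase | hcase
  · have hempty := ou_empty (a := a) hr' (by rw [hadef]; nlinarith) hz
    have hb : ∀ k, a ^ (k + 1) * ‖Dk a k t‖ ≤ C2 * Λ / 2 ^ (k + 1) := fun k =>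
      (hloc a t Λ k ha (by linarith) hcase hgv).1 hempty
    apply hend _ hmain
    have h1 : -1 * ∑ k ∈ Finset.Ico k0 K, (q * a) ^ k * (Dk a k t).re ≤
        ∑ k ∈ Finset.Ico k0 K, (C2 * Λ / (2 * a)) / 2 ^ k := by
      rw [neg_one_mul, ← Finset.sum_neg_distrib]
      apply Finset.sum_le_sum
      intro k _
      have h2 : -((q * a) ^ k * (Dk a k t).re) ≤ (q * a) ^ k * ‖Dk a k t‖ := by
        rw [← mul_neg]
        apply mul_le_mul_of_nonneg_left _ (by positivity)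
        exact (neg_le_abs _).trans (abs_re_le_norm _)
      refine h2.trans ?_
      have h3 : (q * a) ^ k * ‖Dk a k t‖ = q ^ k / a * (a ^ (k + 1) * ‖Dk a k t‖) := by
        rw [mul_pow, pow_succ]
        field_simp
      rw [h3]
      have h4 : q ^ k / a * (a ^ (k + 1) * ‖Dk a k t‖) ≤ 1 / a * (C2 * Λ / 2 ^ (k + 1)) := by
        apply mul_le_mul _ (hb k) (by positivity) (by positivity)
        exact div_le_div_of_nonneg_right (hqk k) ha.le
      refine h4.trans (le_of_eq ?_)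
      rw [pow_succ]
      field_simp
    refine h1.trans ((ou_tail _ (by positivity) k0 K).trans ?_)
    have h5 : 2 * (C2 * Λ / (2 * a)) / 2 ^ k0 = C2 * (Λ / 2 ^ k0) / a := by
      field_simp
    rw [h5]
    apply div_le_div_of_nonneg_right _ ha.le
    have h6 : Λ / 2 ^ k0 ≤ 1 := by
      rw [div_le_one (by positivity)]
      exact hΛk
    have h7 : 0 ≤ C4 * Phi r T := by positivity
    nlinarith
  · have hp : ∀ k, ‖(a : ℂ) ^ (k + 1) * Dk a k t - ((a : ℂ) / (a + t * I)) ^ (k + 1)‖ ≤ C1 / 2 ^ k := fun k =>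
      hpole a t k ha ha1 hcase.le
    apply hend _ hmain
    have hg := geo ha hq hq1 hk0K hqK (w := (t : ℂ) * I) (by simp)
    have hg2 : 0 ≤ (1 / ((((1 - q) * a : ℝ) : ℂ) + (t : ℂ) * I)).re := by
      rw [one_div, inv_re]
      apply div_nonneg _ (normSq_nonneg _)
      simp only [add_re, ofReal_re, mul_re, I_re, mul_zero, ofReal_im, I_im, mul_one, sub_self, add_zero]
      nlinarith
    have hac : (a : ℂ) ≠ 0 := by exact_mod_cast ha.ne'
    have h1 : -1 * ∑ k ∈ Finset.Ico k0 K, (q * a) ^ k * (Dk a k t).re ≤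
        -(∑ k ∈ Finset.Ico k0 K, ((q * a : ℝ) : ℂ) ^ k / (a + (t : ℂ) * I) ^ (k + 1)).re +
          ∑ k ∈ Finset.Ico k0 K, (C1 / a) / 2 ^ k := by
      rw [neg_one_mul, re_sum, ← Finset.sum_neg_distrib, ← Finset.sum_neg_distrib, ← Finset.sum_add_distrib]
      apply Finset.sum_le_sum
      intro k _
      have e1 : (q * a) ^ k * (Dk a k t).re = (((q * a : ℝ) : ℂ) ^ k * Dk a k t).re := by
        rw [← ofReal_pow, re_ofReal_mul]
      have e2 : ((q * a : ℝ) : ℂ) ^ k * Dk a k t - ((q * a : ℝ) : ℂ) ^ k / (a + (t : ℂ) * I) ^ (k + 1) =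
          ((q ^ k / a : ℝ) : ℂ) * ((a : ℂ) ^ (k + 1) * Dk a k t - ((a : ℂ) / (a + t * I)) ^ (k + 1)) := by
        rw [div_pow]
        push_cast
        rw [mul_pow, pow_succ (a : ℂ)]
        field_simp
      have e3 : |(((q * a : ℝ) : ℂ) ^ k * Dk a k t - ((q * a : ℝ) : ℂ) ^ k / (a + (t : ℂ) * I) ^ (k + 1)).re| ≤
          C1 / a / 2 ^ k := by
        refine (abs_re_le_norm _).trans ?_
        rw [e2, norm_mul, norm_real, Real.norm_of_nonneg (by positivity)]
        have h4 : q ^ k / a * ‖(a : ℂ) ^ (k + 1) * Dk a k t - ((a : ℂ) / (a + t * I)) ^ (k + 1)‖ ≤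
            1 / a * (C1 / 2 ^ k) := by
          apply mul_le_mul _ (hp k) (norm_nonneg _) (by positivity)
          exact div_le_div_of_nonneg_right (hqk k) ha.le
        refine h4.trans (le_of_eq ?_)
        field_simp
      rw [sub_re] at e3
      have h5 := (abs_le.1 e3).1
      rw [e1]
      linarith
    refine h1.trans ?_
    have h2 := ou_tail (C1 / a) (by positivity) k0 K
    have h3 : 2 * (C1 / a) / 2 ^ k0 ≤ 2 * C1 / a := by
      rw [mul_div_assoc', div_le_iff₀ (by positivity)]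
      have h4 : (1 : ℝ) ≤ 2 ^ k0 := one_le_pow₀ (by norm_num)
      have h5 : 0 ≤ 2 * C1 / a := by positivity
      nlinarith
    have h6 : (k0 + 1 : ℝ) / a + 2 * C1 / a ≤ (C4 * Phi r T + 2 * C1 + C2) / a := by
      rw [← add_div]
      apply div_le_div_of_nonneg_right _ ha.le
      linarith
    linarith

end Pool.Agent.H76.GS
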