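import Mathlib
import Pool.Agent.H76.GS.Main
import Pool.Agent.H76.GS.OddU
import Pool.Agent.H76.GS.EvenU

/-!
# MainF: the lattice theorem for uncrowded zeros near the line `Re s = 1`
-/

set_option autoImplicit false

open Complex

namespace Pool.Agent.H76.GS

open Pool.Agent.H76.CR Pool.Agent.H76.RP Pool.Agent.H52.RK Pool.Agent.H52.ZR

theorem latticeU : ∃ c C : ℝ, 0 < c ∧ 1 ≤ C ∧ ∀ (r T : ℝ) (S : Finset ℂ) (k : ℂ → ℤ), 0 < r → r ≤ 1 →
    C ≤ T → (∀ ρ ∈ S, riemannZeta ρ = 0 ∧ 0 < ρ.re ∧ 1 ≤ |ρ.im| ∧ |ρ.im| ≤ T) →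
    dep S k * Phi r T ≤ c * r → dep S k * num r S k * Phi r T ≤ c * r →
    (Odd (∑ ρ ∈ S, k ρ) → 1 ≤ zc r (comb S k)) ∧
    (Even (∑ ρ ∈ S, k ρ) → |comb S k| ≤ C * dep S k ∨
      c * r / (dep S k * Phi r T) ≤ zc r (comb S k)) ∧
    (r * vklam |comb S k| ≤ c → Even (∑ ρ ∈ S, k ρ) ∧ |comb S k| ≤ C * dep S k) := by
  obtain ⟨c1, C1, hc1, hC1, hodd⟩ := oddU
  obtain ⟨c2, C2, hc2, hC2, heven⟩ := evenU
  obtain ⟨c4, hc4, hc41, hlow⟩ := zc_low
  set c : ℝ := min (min c1 c2) c4 with hc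
  have hc0 : 0 < c := lt_min (lt_min hc1 hc2) hc4
  have hcc1 : c ≤ c1 := (min_le_left _ _).trans (min_le_left _ _)
  have hcc2 : c ≤ c2 := (min_le_left _ _).trans (min_le_right _ _)
  have hcc4 : c ≤ c4 := min_le_right _ _
  set C : ℝ := max (max C1 C2) (Real.exp (Real.exp 1)) with hC
  have hCC1 : C1 ≤ C := (le_max_left _ _).trans (le_max_left _ _)
  have hCC2 : C2 ≤ C := (le_max_right _ _).trans (le_max_left _ _)
  have hCC4 : Real.exp (Real.exp 1) ≤ C := le_max_right _ _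
  refine ⟨c, C, hc0, hC1.trans hCC1, ?_⟩
  intro r T S k hr hr1 hT hS hdep hnum
  have hTpos : 0 < T := by linarith [Real.exp_pos (Real.exp 1)]
  have hPhi : 0 < Phi r T := by
    have h1 : Real.exp 1 ≤ Real.log T := by
      rw [Real.le_log_iff_exp_le hTpos]
      linarith
    have h2 : 0 < Real.log T := lt_of_lt_of_le (Real.exp_pos _) h1
    have h3 : 1 ≤ Real.log (Real.log T) := by
      rw [Real.le_log_iff_exp_le h2]
      exact h1
    unfold Phi
    apply Real.log_pos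
    have h4 : 0 ≤ r ^ (3 / 2 : ℝ) * Real.log T := mul_nonneg (Real.rpow_nonneg hr.le _) h2.le
    linarith
  have hSz : ∀ ρ ∈ S, riemannZeta ρ = 0 := fun ρ hρ => (hS ρ hρ).1
  rcases le_or_gt (dep S k) 0 with hd | hd
  · have hk := dep_zero hSz hd
    have h1 : ∑ ρ ∈ S, k ρ = 0 := Finset.sum_eq_zero hk
    have h2 : comb S k = 0 := by
      unfold comb
      refine Finset.sum_eq_zero fun ρ hρ => ?_
      rw [hk ρ hρ]
      simp
    have h3 : dep S k = 0 := by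
      unfold dep len
      rw [Finset.sum_eq_zero (fun ρ hρ => by rw [hk ρ hρ]; simp), zero_mul]
    have h4 : |comb S k| ≤ C * dep S k := by rw [h2, h3]; simp
    refine ⟨fun h => ?_, fun _ => Or.inl h4, fun _ => ⟨?_, h4⟩⟩
    · rw [h1] at h
      exact absurd h (by decide)
    · rw [h1]
      exact Even.zero
  have hd1 : dep S k * Phi r T ≤ c1 * r := hdep.trans (mul_le_mul_of_nonneg_right hcc1 hr.le)
  have hd2 : dep S k * Phi r T ≤ c2 * r := hdep.trans (mul_le_mul_of_nonneg_right hcc2 hr.le)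
  have hn1 : dep S k * num r S k * Phi r T ≤ c1 * r :=
    hnum.trans (mul_le_mul_of_nonneg_right hcc1 hr.le)
  have hn2 : dep S k * num r S k * Phi r T ≤ c2 * r :=
    hnum.trans (mul_le_mul_of_nonneg_right hcc2 hr.le)
  have hO := hodd r T S k hr hr1 (hCC1.trans hT) hS hd hd1 hn1
  have hE0 := heven r T S k hr hr1 (hCC2.trans hT) hS hd hd2 hn2
  have hdP : 0 < dep S k * Phi r T := mul_pos hd hPhi
  have hE : Even (∑ ρ ∈ S, k ρ) → |comb S k| ≤ C * dep S k ∨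
      c * r / (dep S k * Phi r T) ≤ zc r (comb S k) := by
    intro h
    rcases hE0 h with h1 | h1
    · left
      exact h1.trans (mul_le_mul_of_nonneg_right hCC2 hd.le)
    · right
      refine le_trans ?_ h1
      exact div_le_div_of_nonneg_right (mul_le_mul_of_nonneg_right hcc2 hr.le) hdP.le
  refine ⟨hO, hE, fun h => ?_⟩
  have hz : zc r (comb S k) = 0 := hlow r |comb S k| (comb S k) hr le_rfl (h.trans hcc4)
  rcases Int.even_or_odd (∑ ρ ∈ S, k ρ) with hp | hp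
  · refine ⟨hp, ?_⟩
    rcases hE hp with h1 | h1
    · exact h1
    · rw [hz, Nat.cast_zero] at h1
      have : 0 < c * r / (dep S k * Phi r T) := by positivity
      linarith
  · have := hO hp
    omega

/-- both forms together -/
theorem latticeF : ∃ c C : ℝ, 0 < c ∧ 1 ≤ C ∧ ∀ (r T : ℝ) (S : Finset ℂ) (k : ℂ → ℤ), 0 < r → r ≤ 1 →
    C ≤ T → (∀ ρ ∈ S, riemannZeta ρ = 0 ∧ 0 < ρ.re ∧ 1 ≤ |ρ.im| ∧ |ρ.im| ≤ T) →
    dep S k * Phi r T ≤ c * r →
    (((∀ ρ ∈ S, zc r ρ.im ≤ 1) ∨ dep S k * num r S k * Phi r T ≤ c * r) →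
      (Odd (∑ ρ ∈ S, k ρ) → 1 ≤ zc r (comb S k)) ∧
      (Even (∑ ρ ∈ S, k ρ) → |comb S k| ≤ C * dep S k ∨
        c * r / (dep S k * Phi r T) ≤ zc r (comb S k)) ∧
      (r * vklam |comb S k| ≤ c → Even (∑ ρ ∈ S, k ρ) ∧ |comb S k| ≤ C * dep S k)) ∧
    ((∀ ρ ∈ S, zc r ρ.im ≤ 1) → ∀ ρ₀ : ℂ, riemannZeta ρ₀ = 0 → 0 < ρ₀.re → 1 ≤ |ρ₀.im| →
      |ρ₀.im| ≤ T → zc r ρ₀.im ≤ 1 → r ≤ |ρ₀.im + comb S k| →
      (zc r (ρ₀.im + comb S k) = 0 ∨ r * vklam |ρ₀.im + comb S k| ≤ c) → 0 < dep S k →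
      c * r * min 1 (Real.log (c * r / (dep S k * Phi r T)) / Phi r T) ≤ 1 - ρ₀.re) := by
  obtain ⟨c1, C1, hc1, hC1, hI⟩ := lattice
  obtain ⟨c2, C2, hc2, hC2, hU⟩ := latticeU
  set c : ℝ := min c1 c2 with hc
  have hc0 : 0 < c := lt_min hc1 hc2
  have hcc1 : c ≤ c1 := min_le_left _ _
  have hcc2 : c ≤ c2 := min_le_right _ _
  set C : ℝ := max (max C1 C2) (Real.exp (Real.exp 1)) with hC
  have hCC1 : C1 ≤ C := (le_max_left _ _).trans (le_max_left _ _)
  have hCC2 : C2 ≤ C := (le_max_right _ _).trans (le_max_left _ _)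
  have hCC4 : Real.exp (Real.exp 1) ≤ C := le_max_right _ _
  refine ⟨c, C, hc0, hC1.trans hCC1, ?_⟩
  intro r T S k hr hr1 hT hS hdep
  have hTpos : 0 < T := by linarith [Real.exp_pos (Real.exp 1)]
  have hPhi : 0 < Phi r T := by
    have h1 : Real.exp 1 ≤ Real.log T := by
      rw [Real.le_log_iff_exp_le hTpos]
      linarith
    have h2 : 0 < Real.log T := lt_of_lt_of_le (Real.exp_pos _) h1
    have h3 : 1 ≤ Real.log (Real.log T) := by
      rw [Real.le_log_iff_exp_le h2]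
      exact h1
    unfold Phi
    apply Real.log_pos
    have h4 : 0 ≤ r ^ (3 / 2 : ℝ) * Real.log T := mul_nonneg (Real.rpow_nonneg hr.le _) h2.le
    linarith
  have hd0 : 0 ≤ dep S k := by
    unfold dep
    refine mul_nonneg (len_nonneg S k) (Finset.sum_nonneg fun ρ hρ => mul_nonneg (abs_nonneg _) ?_)
    have := re_lt_one (hS ρ hρ).1
    linarith
  have hdP : 0 ≤ dep S k * Phi r T := mul_nonneg hd0 hPhi.le
  have hd1 : dep S k * Phi r T ≤ c1 * r := hdep.trans (mul_le_mul_of_nonneg_right hcc1 hr.le)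
  have hd2 : dep S k * Phi r T ≤ c2 * r := hdep.trans (mul_le_mul_of_nonneg_right hcc2 hr.le)
  have hiso : (∀ ρ ∈ S, zc r ρ.im ≤ 1) → ∀ ρ ∈ S, Iso r T ρ := fun h ρ hρ =>
    ⟨(hS ρ hρ).1, (hS ρ hρ).2.1, (hS ρ hρ).2.2.1, (hS ρ hρ).2.2.2, h ρ hρ⟩
  refine ⟨fun h => ?_, fun h ρ₀ g1 g2 g3 g4 g5 hr0 hz hd => ?_⟩
  · rcases h with h | h
    · obtain ⟨h1, h2, h3, -⟩ := hI r T S k hr hr1 (hCC1.trans hT) (hiso h) hd1
      refine ⟨h1, fun he => ?_, fun he => ?_⟩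
      · rcases h2 he with h4 | h4
        · exact Or.inl (h4.trans (mul_le_mul_of_nonneg_right hCC1 hd0))
        · exact Or.inr ((div_le_div_of_nonneg_right
            (mul_le_mul_of_nonneg_right hcc1 hr.le) hdP).trans h4)
      · obtain ⟨h4, h5⟩ := h3 (he.trans hcc1)
        exact ⟨h4, h5.trans (mul_le_mul_of_nonneg_right hCC1 hd0)⟩
    · obtain ⟨h1, h2, h3⟩ := hU r T S k hr hr1 (hCC2.trans hT) hS hd2
        (h.trans (mul_le_mul_of_nonneg_right hcc2 hr.le))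
      refine ⟨h1, fun he => ?_, fun he => ?_⟩
      · rcases h2 he with h4 | h4
        · exact Or.inl (h4.trans (mul_le_mul_of_nonneg_right hCC2 hd0))
        · exact Or.inr ((div_le_div_of_nonneg_right
            (mul_le_mul_of_nonneg_right hcc2 hr.le) hdP).trans h4)
      · obtain ⟨h4, h5⟩ := h3 (he.trans hcc2)
        exact ⟨h4, h5.trans (mul_le_mul_of_nonneg_right hCC2 hd0)⟩
  · obtain ⟨-, -, -, h4⟩ := hI r T S k hr hr1 (hCC1.trans hT) (hiso h) hd1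
    have hz' : zc r (ρ₀.im + comb S k) = 0 ∨ r * vklam |ρ₀.im + comb S k| ≤ c1 := by
      rcases hz with h5 | h5
      · exact Or.inl h5
      · exact Or.inr (h5.trans hcc1)
    have h1 := h4 ρ₀ ⟨g1, g2, g3, g4, g5⟩ hr0 hz' hd
    refine le_trans ?_ h1
    have hdPp : 0 < dep S k * Phi r T := mul_pos hd hPhi
    have hcr : c * r ≤ c1 * r := mul_le_mul_of_nonneg_right hcc1 hr.le
    have hcr0 : 0 < c * r := mul_pos hc0 hr
    have h2 : Real.log (c * r / (dep S k * Phi r T)) ≤ Real.log (c1 * r / (dep S k * Phi r T)) :=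
      Real.log_le_log (by positivity) (div_le_div_of_nonneg_right hcr hdPp.le)
    have h3 : min 1 (Real.log (c * r / (dep S k * Phi r T)) / Phi r T) ≤
        min 1 (Real.log (c1 * r / (dep S k * Phi r T)) / Phi r T) :=
      min_le_min_left _ (div_le_div_of_nonneg_right h2 hPhi.le)
    have h4' : 0 ≤ Real.log (c * r / (dep S k * Phi r T)) := by
      apply Real.log_nonneg
      rw [le_div_iff₀ hdPp]
      linarith
    have h5 : 0 ≤ min 1 (Real.log (c * r / (dep S k * Phi r T)) / Phi r T) :=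
      le_min zero_le_one (div_nonneg h4' hPhi.le)
    exact mul_le_mul hcr h3 h5 (by positivity)

end Pool.Agent.H76.GS
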