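import Mathlib
import Pool.Agent.H76.GS.MainF
import Pool.Agent.H52.RK.MainAG

/-!
# Zeros of the zeta function near the line `Re s = 1`: lattice structure and repulsion (draft)

`zc r t` (`Pool/Agent/H76/RP/Defs.lean`) is the number, with multiplicity, of the zeros `u` of `ζ` with
`|u - (1 + it)| < r`; `Phi r T = log (2 + r^(3/2) log T + loglog T)` (`Pool/Agent/H52/RK/MainAG.lean`);
`vklam H = (log (H + 3))^(2/3) (1 + loglog (H + 3))^(1/3)` (`Pool/Agent/H52/ZR/Low.lean`);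
`comb S k = ∑ k(ρ) Im ρ`, `len S k = ∑ |k(ρ)|`, `dep S k = (∑ |k(ρ)|) (∑ |k(ρ)| (1 - Re ρ))`
(`Pool/Agent/H76/GS/Defs.lean`); `num r S k = (∑ |k(ρ)|) (∑ |k(ρ)| zc r (Im ρ))`
(`Pool/Agent/H76/GS/DefsU.lean`).
-/

set_option autoImplicit false

open Complex

namespace Pool.Agent.H76.GS

open Pool.Agent.H76.RP Pool.Agent.H52.RK Pool.Agent.H52.ZR

theorem result :
    (∃ c C : ℝ, 0 < c ∧ 1 ≤ C ∧ ∀ (r T : ℝ) (S : Finset ℂ) (k : ℂ → ℤ), 0 < r → r ≤ 1 →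
      C ≤ T → (∀ ρ ∈ S, riemannZeta ρ = 0 ∧ 0 < ρ.re ∧ 1 ≤ |ρ.im| ∧ |ρ.im| ≤ T) →
      dep S k * Phi r T ≤ c * r →
      (((∀ ρ ∈ S, zc r ρ.im ≤ 1) ∨ dep S k * num r S k * Phi r T ≤ c * r) →
        (Odd (∑ ρ ∈ S, k ρ) → 1 ≤ zc r (comb S k)) ∧
        (Even (∑ ρ ∈ S, k ρ) → |comb S k| ≤ C * dep S k ∨
          c * r / (dep S k * Phi r T) ≤ zc r (comb S k)) ∧
        (r * vklam |comb S k| ≤ c → Even (∑ ρ ∈ S, k ρ) ∧ |comb S k| ≤ C * dep S k)) ∧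
      ((∀ ρ ∈ S, zc r ρ.im ≤ 1) → ∀ ρ₀ : ℂ, riemannZeta ρ₀ = 0 → 0 < ρ₀.re → 1 ≤ |ρ₀.im| →
        |ρ₀.im| ≤ T → zc r ρ₀.im ≤ 1 → r ≤ |ρ₀.im + comb S k| →
        (zc r (ρ₀.im + comb S k) = 0 ∨ r * vklam |ρ₀.im + comb S k| ≤ c) → 0 < dep S k →
        c * r * min 1 (Real.log (c * r / (dep S k * Phi r T)) / Phi r T) ≤ 1 - ρ₀.re)) ∧
    (∃ c C : ℝ, 0 < c ∧ 1 ≤ C ∧ ∀ (r δ T : ℝ) (S : Finset ℂ), 0 < δ → δ < r →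
      r ≤ 1 → C ≤ T → 2 ≤ S.card →
      (∀ ρ ∈ S, riemannZeta ρ = 0 ∧ 1 - δ ≤ ρ.re ∧ 1 ≤ |ρ.im| ∧ |ρ.im| ≤ T) →
      (∀ ρ ∈ S, ∀ ρ' ∈ S, ρ ≠ ρ' → r ≤ |ρ.im - ρ'.im|) →
      c * r / (δ * Phi r T) ≤
        (∑ ρ ∈ S, (zc r ρ.im : ℝ)) / S.card +
        (∑ ρ ∈ S, ∑ ρ' ∈ S, (if ρ = ρ' then 0 else (zc r (ρ.im - ρ'.im) : ℝ))) / S.card ^ 2) :=
  ⟨latticeF, mainA⟩

end Pool.Agent.H76.GS
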